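import Mathlib
import Pool.Agent.Helper9.NS
import Pool.Agent.Helper21.TO.Defs
import Pool.Agent.Helper21.TO.Defs3

/-!
# GT: surfaces decomposed by a finite group, definitions

Project GT (MP_83b46e_ag): Voisin's conjecture for surfaces of general type. Let `F` be the function field of
the surface `S`, `ξ` its generic point and `G` a finite group of automorphisms of `F`. A model of the quotient by
the subgroup `Γ` is the closure of the point with the coordinates `∏_{γ ∈ Γ} γ (∑_i a_i ξ_i)`, where
`a` runs through the grid `{0, …, d}^M`. A point `y` of this closure is of the form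
`y_a = c ∏_γ ∑_i a_i z_γ,i` with points `z_γ` of `S`, unique up to permutation; so `y` gives the cycle
`∑_γ [z_γ]` on `S`.
-/

set_option linter.unusedSectionVars false

namespace Pool.Agent.Helper15.GT

open VC VF Function Pool.Agent.Helper21.TO

universe u

/-! ### The grid -/

/-- The `l`-th vector of the grid `{0, …, d}^M`. -/
def gpt (M d : ℕ) (l : Fin ((d + 1) ^ M)) (i : Fin M) : ℕ := (finFunctionFinEquiv.symm l i : ℕ)

/-- The values on the grid of the product of the linear forms given by the vectors `x j`. -/
def nm {ι : Type*} [Fintype ι] {R : Type*} [CommRing R] {M : ℕ} (d : ℕ) (x : ι → Fin M → R) :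
    Fin ((d + 1) ^ M) → R :=
  fun l => ∏ j, ∑ i, (gpt M d l i : R) * x j i

section nm

variable {ι : Type*} [Fintype ι] {R S : Type*} [CommRing R] [CommRing S] {M d : ℕ}

lemma nm_apply (x : ι → Fin M → R) (l : Fin ((d + 1) ^ M)) :
    nm d x l = ∏ j, ∑ i, (gpt M d l i : R) * x j i := rfl

lemma nm_map (f : R →+* S) (x : ι → Fin M → R) (l : Fin ((d + 1) ^ M)) :
    nm d (fun j i => f (x j i)) l = f (nm d x l) := by
  simp only [nm, map_prod, map_sum, map_mul, map_natCast]

lemma nm_smul (c : ι → R) (x : ι → Fin M → R) (l : Fin ((d + 1) ^ M)) :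
    nm d (fun j i => c j * x j i) l = (∏ j, c j) * nm d x l := by
  unfold nm
  rw [← Finset.prod_mul_distrib]
  refine Finset.prod_congr rfl fun j _ => ?_
  rw [Finset.mul_sum]
  refine Finset.sum_congr rfl fun i _ => ?_
  ring

lemma nm_perm {κ : Type*} [Fintype κ] (π : κ ≃ ι) (x : ι → Fin M → R) :
    nm d (fun j => x (π j)) = nm d x := by
  funext l
  exact Equiv.prod_comp π (fun j => ∑ i, (gpt M d l i : R) * x j i)

end nm

/-- The vector `y` is, up to a factor, the vector of the values on the grid of the product of the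
linear forms given by the vectors `z j`. -/
def IsFac {ι : Type*} [Fintype ι] {M : ℕ} (d : ℕ) {K : Type*} [Field K]
    (y : Fin ((d + 1) ^ M) → K) (z : ι → Fin M → K) : Prop :=
  (∀ j, z j ≠ 0) ∧ ∃ c : K, c ≠ 0 ∧ ∀ l, y l = c * nm d z l

open Classical in
/-- The cycle `∑_j [z j]` given by a factorization of `y`. -/
noncomputable def Zc {k : Type u} [Field k] [IsAlgClosed k] [CharZero k] (ι : Type*) [Fintype ι]
    {M : ℕ} (I : Set (MvPolynomial (Fin M) k)) (d : ℕ)
    {I' : Set (MvPolynomial (Fin ((d + 1) ^ M)) k)} (y : PPt k k I') : (proj k I).Cycles :=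
  if h : ∃ z : ι → Fin M → k, IsFac d y.1.rep z then ∑ j, cy I (h.choose j) else 0

/-- The translates of the point `ξ` by the automorphisms `ρ (s j)`. -/
def tr {k : Type u} [Field k] {F : Type*} [Field F] [Algebra k F] {G : Type*} [Group G] {κ : Type*} {M : ℕ}
    (ρ : G →* (F ≃ₐ[k] F)) (ξ : Fin M → F) (s : κ → G) : κ → Fin M → F :=
  fun j i => ρ (s j) (ξ i)

/-! ### Families of cycles, correspondences -/

section

variable {k : Type u} [Field k] [IsAlgClosed k] [CharZero k]

/-- The cycles `z w` depending on the point `w` of the curve with function field `K` are given by morphisms from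
this curve. -/
def Fam (S : Variety k) {K : Type u} [Field K] [Algebra k K] (hK : IsFunctionField k K)
    (z : Place k K → S.Cycles) : Prop :=
  ∃ (r : ℕ) (P : Fin r → S.Mor K) (e : Fin r → ℤ), ∀ w, z w = ∑ l, Finsupp.single (S.eval hK (P l) w) (e l)

/-- Every point is the value of a constant morphism. -/
def HasConst (S : Variety k) : Prop :=
  ∀ (K : Type u) [Field K] [Algebra k K] (hK : IsFunctionField k K) (p : S.Pt),
    ∃ c : S.Mor K, ∀ v, S.eval hK c v = p

/-- The map `Z` from the points of `X` to the cycles on `S` is a correspondence. -/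
def Cor (X S : Variety k) (Z : X.Pt → S.Cycles) : Prop :=
  ∀ (K : Type u) [Field K] [Algebra k K] (hK : IsFunctionField k K) (n : ℕ) (c : Fin n → X.Mor K),
    ∃ (K' : Type u) (_ : Field K') (_ : Algebra k K') (_ : Algebra K K') (_ : IsScalarTower k K K')
      (hK' : IsFunctionField k K'), ∀ i, Fam S hK' (fun w => Z (X.eval hK (c i) (VQ.res hK hK' w)))

/-- The alternating sum of the exterior products of `n` cycles in `H` is torsion modulo rational
equivalence. -/
def VoisinOn (X : Variety k) (H : Set X.Cycles) (n : ℕ) : Prop :=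
  ∀ a : Fin n → X.Cycles, (∀ i, a i ∈ H) →
    ∃ m : ℕ, 0 < m ∧ m • ∑ σ : Equiv.Perm (Fin n), ((Equiv.Perm.sign σ : ℤˣ) : ℤ) •
      extProd (fun i => a (σ i)) ∈ (X.pow n).Rat

lemma voisinOn_iff {X : Variety k} {n : ℕ} :
    VoisinOn X {a : X.Cycles | a.sum (fun _ c => c) = 0} n ↔ Voisin X n := Iff.rfl

/-- The functional `Φ` on the exterior products of `n` cycles, as a multilinear map. -/
noncomputable def TM (X : Variety k) {n : ℕ} (Φ : (X.pow n).Pt → k) :
    MultilinearMap ℤ (fun _ : Fin n => X.Cycles) k :=
  (Finsupp.linearCombination ℤ Φ).compMultilinearMap (extM X.Pt n)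

lemma TM_apply {X : Variety k} {n : ℕ} (Φ : (X.pow n).Pt → k) (z : Fin n → X.Cycles) :
    TM X Φ z = Finsupp.linearCombination ℤ Φ (extProd z) := rfl

end

/-! ### Voisin's property for function fields -/

/-- Voisin's property for `n > p` for all closures of points with coordinates in the field `F`, i.e. for all
projective models of the varieties with function field `F` (and of the varieties dominated by them). -/
def VP (k F : Type u) [Field k] [IsAlgClosed k] [CharZero k] [Field F] [Algebra k F] (p : ℕ) : Prop :=
  ∀ (M : ℕ) (ξ : Fin M → F), ξ ≠ 0 → ∀ n : ℕ, p < n → Voisin (proj k (van k ξ)) n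

end Pool.Agent.Helper15.GT
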