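import Mathlib
import Pool.Agent.Helper9.NS
import Pool.Agent.Helper15.GT.Defs
import Pool.Agent.Helper15.GT.Fams
import Pool.Agent.Helper21.TO.Trans

/-!
# Block GT-ALT: an alternating functional vanishes if more than `p` slots come from `X`

Let `A = (TM S Φ).alternatization` (an alternating map, `A z = ∑_σ sgn σ TM S Φ (z ∘ σ)`). For `y : Fin n' → X.Cycles` let
`E y = Function.extend e (fun l => lin Z (y l)) z : Fin n → S.Cycles` (`e` is injective: `(E y) (e l) = lin Z (y l)`,
`Function.Injective.extend_apply`; `(E y) j = z j` for `j` not in the range, `Function.extend_apply'`); `lin Z = Finsupp.linearCombination ℤ Z`.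
* `B y = A (E y)` is an alternating map in `y` with values in `k`: additive and homogeneous in each slot
  (`E (update y l b) = update (E y) (e l) (lin Z b)`), and if `y l = y l'`, `l ≠ l'`, then `(E y) (e l) = (E y) (e l')` and
  `A (E y) = 0` (`AlternatingMap.map_eq_zero_of_eq`).
* `Ψ y = B (fun l => single (y l) 1)` is `Kills (X.pow n')`: `kills_of_gen` (TO/Trans). For `K`, `c : Fin n' → X.Mor K` and `f ≠ 0` take
  `K'` from `hZ` (all `Z (c l (res w))` are families). For every `σ` the sum over the places `w` of `K'` of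
  `ord_w f * TM S Φ ((E (single (c l (res w)))) ∘ σ)` is zero by `kills_fam` (the slots are families: `Fam.const` for those
  outside of the range of `e`). So the sum of `ord_w f Ψ (c (res w))` over the places of `K'` is zero; `QF.kills_res` (see the end of the proof of
  `kills_trans` in TO/Trans.lean) gives the sum over the places of `K`.
* `Ψ_lin (extProd b) = B b` by multilinearity (as `lin_ext24` in TO/Transfer.lean).
* `hV b hb` gives `m > 0` with `m • ∑_σ sgn σ • extProd (b ∘ σ) ∈ Rat`; apply `Ψ_lin`: `m * ∑_σ sgn σ B (b ∘ σ) = 0`, and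
  `B (b ∘ σ) = sgn σ B b` (`AlternatingMap.map_perm`), so `m * n'! * B b = 0` and `B b = 0`; `B b = A z` as `E b = z` by `hz`.
-/

set_option linter.unusedSectionVars false

namespace Pool.Agent.Helper15.GT

open VC VF Function Pool.Agent.Helper21.TO

universe u

variable {k : Type u} [Field k] [IsAlgClosed k] [CharZero k]

private lemma alt_apply71 {S : Variety k} {n : ℕ} (Φ : (S.pow n).Pt → k) (z : Fin n → S.Cycles) :
    (TM S Φ).alternatization z = ∑ σ : Equiv.Perm (Fin n), ((Equiv.Perm.sign σ : ℤˣ) : ℤ) •
      TM S Φ (fun i => z (σ i)) := by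
  rw [MultilinearMap.alternatization_apply]
  refine Finset.sum_congr rfl fun σ _ => ?_
  rw [Units.smul_def]
  rfl

private lemma extend_update71 {α : Type*} {n' n : ℕ} (e : Fin n' ↪ Fin n) (g : Fin n' → α)
    (z : Fin n → α) (l : Fin n') (x : α) :
    Function.extend e (update g l x) z = update (Function.extend e g z) (e l) x := by
  funext j
  by_cases hj : ∃ l', e l' = j
  · obtain ⟨l', rfl⟩ := hj
    rw [e.injective.extend_apply]
    by_cases hl : l' = l
    · subst hl
      rw [update_self, update_self]
    · rw [update_of_ne hl, update_of_ne (fun h => hl (e.injective h)), e.injective.extend_apply]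
  · rw [Function.extend_apply' _ _ _ hj, update_of_ne (fun h => hj ⟨l, h.symm⟩),
      Function.extend_apply' _ _ _ hj]

private lemma comp_update71 {α β : Type*} {n' : ℕ} (f : α → β) (m : Fin n' → α) (l : Fin n')
    (x : α) : (fun i => f (update m l x i)) = update (fun i => f (m i)) l (f x) := by
  funext i
  by_cases hi : i = l
  · subst hi
    rw [update_self, update_self]
  · rw [update_of_ne hi, update_of_ne hi]

/-- The alternating functional as a functional of the cycles in the slots `e l`. -/
private noncomputable def B71 {X S : Variety k} (Z : X.Pt → S.Cycles) {n' n : ℕ}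
    (Φ : (S.pow n).Pt → k) (e : Fin n' ↪ Fin n) (z : Fin n → S.Cycles) :
    X.Cycles [⋀^Fin n']→ₗ[ℤ] k where
  toFun b := (TM S Φ).alternatization
    (Function.extend e (fun l => Finsupp.linearCombination ℤ Z (b l)) z)
  map_update_add' := by
    intro inst m i x y
    have : inst = instDecidableEqFin n' := Subsingleton.elim _ _
    subst this
    rw [comp_update71 (Finsupp.linearCombination ℤ Z), comp_update71 (Finsupp.linearCombination ℤ Z),
      comp_update71 (Finsupp.linearCombination ℤ Z), extend_update71, extend_update71,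
      extend_update71, map_add, AlternatingMap.map_update_add]
  map_update_smul' := by
    intro inst m i c x
    have : inst = instDecidableEqFin n' := Subsingleton.elim _ _
    subst this
    rw [comp_update71 (Finsupp.linearCombination ℤ Z), comp_update71 (Finsupp.linearCombination ℤ Z),
      extend_update71, extend_update71, map_smul, AlternatingMap.map_update_smul]
  map_eq_zero_of_eq' := by
    intro v i j hv hij
    refine AlternatingMap.map_eq_zero_of_eq _ _ (i := e i) (j := e j) ?_
      (fun h => hij (e.injective h))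
    rw [e.injective.extend_apply, e.injective.extend_apply, hv]

private lemma B71_apply {X S : Variety k} (Z : X.Pt → S.Cycles) {n' n : ℕ}
    (Φ : (S.pow n).Pt → k) (e : Fin n' ↪ Fin n) (z : Fin n → S.Cycles) (b : Fin n' → X.Cycles) :
    B71 Z Φ e z b = (TM S Φ).alternatization
      (Function.extend e (fun l => Finsupp.linearCombination ℤ Z (b l)) z) := rfl

private lemma B71_single {X S : Variety k} (Z : X.Pt → S.Cycles) {n' n : ℕ}
    (Φ : (S.pow n).Pt → k) (e : Fin n' ↪ Fin n) (z : Fin n → S.Cycles) (y : Fin n' → X.Pt) :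
    B71 Z Φ e z (fun l => Finsupp.single (y l) 1) = (TM S Φ).alternatization
      (Function.extend e (fun l => Z (y l)) z) := by
  rw [B71_apply]
  simp only [Finsupp.linearCombination_single, one_smul]

private lemma lin_ext71 {X S : Variety k} (Z : X.Pt → S.Cycles) {n' n : ℕ}
    (Φ : (S.pow n).Pt → k) (e : Fin n' ↪ Fin n) (z : Fin n → S.Cycles) (b : Fin n' → X.Cycles) :
    Finsupp.linearCombination ℤ (fun y : (X.pow n').Pt => (TM S Φ).alternatization
      (Function.extend e (fun l => Z (y l)) z)) (extProd b) = B71 Z Φ e z b := by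
  classical
  have e1 : b = fun i => ∑ x ∈ (b i).support, (b i x) • Finsupp.single x (1 : ℤ) := by
    funext i
    conv_lhs => rw [← Finsupp.sum_single (b i)]
    refine Finset.sum_congr rfl fun x _ => ?_
    rw [Finsupp.smul_single, smul_eq_mul, mul_one]
  have e2 := MultilinearMap.map_sum_finset (B71 Z Φ e z).toMultilinearMap
    (fun i x => (b i x) • (Finsupp.single x (1 : ℤ) : X.Cycles)) (fun i => (b i).support)
  rw [← e1] at e2
  change _ = (B71 Z Φ e z).toMultilinearMap b
  rw [e2]
  unfold extProd
  rw [map_sum]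
  refine Finset.sum_congr rfl fun p _ => ?_
  rw [Finsupp.linearCombination_single, MultilinearMap.map_smul_univ]
  congr 1
  exact (B71_single Z Φ e z p).symm

private lemma kills71 {X S : Variety k} (hS : HasConst S) {Z : X.Pt → S.Cycles} (hZ : Cor X S Z)
    {n' n : ℕ} {Φ : (S.pow n).Pt → k} (hΦ : Kills (S.pow n) Φ) (e : Fin n' ↪ Fin n)
    (z : Fin n → S.Cycles) :
    Kills (X.pow n') (fun y => (TM S Φ).alternatization
      (Function.extend e (fun l => Z (y l)) z)) := by
  classical
  apply kills_of_gen
  intro K _ _ hK c f hf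
  obtain ⟨K', iF', iA', iAK, iT, hK', hfam⟩ := hZ K hK n' c
  have hf' : algebraMap K K' f ≠ 0 := (_root_.map_ne_zero _).mpr hf
  refine Pool.Agent.Helper83.QF.kills_res hK hK' (fun v => (TM S Φ).alternatization
    (Function.extend e (fun l => Z (X.eval hK (c l) v)) z)) hf hf' ?_
  have hslot : ∀ j : Fin n, Fam S hK' (fun w => Function.extend e
      (fun l => Z (X.eval hK (c l) (VQ.res hK hK' w))) z j) := by
    intro j
    by_cases hj : ∃ l, e l = j
    · obtain ⟨l, rfl⟩ := hj
      simp only [e.injective.extend_apply]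
      exact hfam l
    · simp only [Function.extend_apply' _ _ _ hj]
      exact Fam.const hS hK' (z j)
  have h1 : ∀ σ : Equiv.Perm (Fin n), ∑ w ∈ (finite_support_ord hK' hf').toFinset,
      (ord w.ring (algebraMap K K' f) : k) * TM S Φ (fun i => Function.extend e
      (fun l => Z (X.eval hK (c l) (VQ.res hK hK' w))) z (σ i)) = 0 := fun σ =>
    kills_fam hΦ hK' (fun i w => Function.extend e
      (fun l => Z (X.eval hK (c l) (VQ.res hK hK' w))) z (σ i)) (fun i => hslot (σ i)) hf'
  simp only [alt_apply71, Finset.mul_sum]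
  rw [Finset.sum_comm]
  refine Finset.sum_eq_zero fun σ _ => ?_
  have h2 : ∑ w ∈ (finite_support_ord hK' hf').toFinset,
      (ord w.ring (algebraMap K K' f) : k) * (((Equiv.Perm.sign σ : ℤˣ) : ℤ) •
        TM S Φ (fun i => Function.extend e
          (fun l => Z (X.eval hK (c l) (VQ.res hK hK' w))) z (σ i))) =
      ((Equiv.Perm.sign σ : ℤˣ) : ℤ) • ∑ w ∈ (finite_support_ord hK' hf').toFinset,
      (ord w.ring (algebraMap K K' f) : k) * TM S Φ (fun i => Function.extend e
          (fun l => Z (X.eval hK (c l) (VQ.res hK hK' w))) z (σ i)) := by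
    rw [Finset.smul_sum]
    refine Finset.sum_congr rfl fun w _ => ?_
    rw [mul_smul_comm]
  rw [h2, h1 σ, smul_zero]

theorem alt_cor {X S : Variety k} (hS : HasConst S) {Z : X.Pt → S.Cycles} (hZ : Cor X S Z)
    {H : Set X.Cycles} {n' n : ℕ} (hV : VoisinOn X H n') {Φ : (S.pow n).Pt → k}
    (hΦ : Kills (S.pow n) Φ) (e : Fin n' ↪ Fin n) (b : Fin n' → X.Cycles) (hb : ∀ l, b l ∈ H)
    (z : Fin n → S.Cycles) (hz : ∀ l, z (e l) = Finsupp.linearCombination ℤ Z (b l)) :
    (TM S Φ).alternatization z = 0 := by
  classical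
  have hz' : Function.extend e (fun l => Finsupp.linearCombination ℤ Z (b l)) z = z := by
    funext j
    by_cases hj : ∃ l, e l = j
    · obtain ⟨l, rfl⟩ := hj
      rw [e.injective.extend_apply, hz l]
    · rw [Function.extend_apply' _ _ _ hj]
  have hB : B71 Z Φ e z b = (TM S Φ).alternatization z := by rw [B71_apply, hz']
  rw [← hB]
  obtain ⟨m, hm, hmem⟩ := hV b hb
  have h1 := kills71 hS hZ hΦ e z _ hmem
  rw [map_nsmul, map_sum] at h1
  have h2 : ∀ σ : Equiv.Perm (Fin n'), Finsupp.linearCombination ℤ (fun y : (X.pow n').Pt =>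
      (TM S Φ).alternatization (Function.extend e (fun l => Z (y l)) z))
      (((Equiv.Perm.sign σ : ℤˣ) : ℤ) • extProd (fun i => b (σ i))) = B71 Z Φ e z b := by
    intro σ
    rw [map_smul, lin_ext71]
    have h3 : B71 Z Φ e z (fun i => b (σ i)) = Equiv.Perm.sign σ • B71 Z Φ e z b :=
      AlternatingMap.map_perm (B71 Z Φ e z) b σ
    rw [h3, Units.smul_def, smul_smul]
    rw [← Units.val_mul, Int.units_mul_self, Units.val_one, one_smul]
  rw [Finset.sum_congr rfl fun σ _ => h2 σ, Finset.sum_const, smul_smul] at h1
  rcases smul_eq_zero.1 h1 with h0 | h0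
  · exfalso
    rcases Nat.mul_eq_zero.1 h0 with h4 | h4
    · exact hm.ne' h4
    · rw [Finset.card_univ, Fintype.card_perm] at h4
      exact (Nat.factorial_pos _).ne' h4
  · exact h0

end Pool.Agent.Helper15.GT
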