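import Mathlib
import Pool.Agent.Helper9.NS
import Pool.Agent.Helper15.GT.Defs
import Pool.Agent.Helper15.GT.Aut

/-!
# GT: rational places of a field and their centers

A rational place of the field `F` over `k` is a valuation ring of `F` containing `k` with residue field `k`. The
center of the place on the closure of the point `ξ` with coordinates in `F` is its value: scale the coordinates so that all
of them are regular and not all of them vanish, and take residues.
-/

set_option linter.unusedSectionVars false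

namespace Pool.Agent.Helper15.GT

open VC VF Function Pool.Agent.Helper21.TO

universe u

/-- A rational place of the field `F` over `k`: a valuation ring of `F` containing `k` with residue
field `k`. -/
@[ext] structure RPl (k F : Type u) [Field k] [Field F] [Algebra k F] where
  /-- the valuation ring -/
  ring : ValuationSubring F
  alg : ∀ c : k, algebraMap k F c ∈ ring
  res : ∀ z ∈ ring, ∃ c : k, z - algebraMap k F c ∈ ring.nonunits

section basic

variable {k F : Type u} [Field k] [Field F] [Algebra k F]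

/-- The function `z` has the value `c` at the rational place `w`. -/
def Rs (w : RPl k F) (z : F) (c : k) : Prop := z - algebraMap k F c ∈ w.ring.nonunits

variable {w : RPl k F} {x y : F} {c d : k}

lemma Rs.mem (h : Rs w x c) : x ∈ w.ring := by
  have := w.ring.add_mem _ _ (nonunits_le h) (w.alg c)
  rwa [sub_add_cancel] at this

lemma exists_rs (h : x ∈ w.ring) : ∃ c, Rs w x c := w.res x h

lemma rs_const (c : k) : Rs w (algebraMap k F c) c := by
  unfold Rs; rw [sub_self]; exact nonunits_zero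

lemma rs_zero : Rs w (0 : F) (0 : k) := by
  have := rs_const (w := w) (0 : k)
  rwa [map_zero] at this

lemma rs_one : Rs w (1 : F) (1 : k) := by
  have := rs_const (w := w) (1 : k)
  rwa [map_one] at this

lemma Rs.add (h : Rs w x c) (h' : Rs w y d) : Rs w (x + y) (c + d) := by
  unfold Rs at *
  have := nonunits_add h h'
  rw [map_add]
  convert this using 1; ring

lemma Rs.mul (h : Rs w x c) (h' : Rs w y d) : Rs w (x * y) (c * d) := by
  have h1 := nonunits_mul h.mem h'
  have h2 := nonunits_mul (w.alg d) h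
  have := nonunits_add h1 h2
  unfold Rs at *
  rw [map_mul]
  convert this using 1; ring

lemma Rs.neg (h : Rs w x c) : Rs w (-x) (-c) := by
  have := (rs_const (w := w) (-1 : k)).mul h
  simpa using this

lemma Rs.sub (h : Rs w x c) (h' : Rs w y d) : Rs w (x - y) (c - d) := by
  rw [sub_eq_add_neg, sub_eq_add_neg]; exact h.add h'.neg

lemma rs_natCast (n : ℕ) : Rs w (n : F) (n : k) := by
  have := rs_const (w := w) (n : k)
  rwa [map_natCast] at this

lemma Rs.sum {ι : Type*} (s : Finset ι) {f : ι → F} {g : ι → k} (h : ∀ i ∈ s, Rs w (f i) (g i)) :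
    Rs w (∑ i ∈ s, f i) (∑ i ∈ s, g i) := by
  classical
  induction s using Finset.induction_on with
  | empty => simpa using rs_zero
  | insert a s ha ih =>
    rw [Finset.sum_insert ha, Finset.sum_insert ha]
    exact (h a (Finset.mem_insert_self _ _)).add (ih (fun i hi => h i (Finset.mem_insert_of_mem hi)))

lemma Rs.prod {ι : Type*} (s : Finset ι) {f : ι → F} {g : ι → k} (h : ∀ i ∈ s, Rs w (f i) (g i)) :
    Rs w (∏ i ∈ s, f i) (∏ i ∈ s, g i) := by
  classical
  induction s using Finset.induction_on with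
  | empty => simpa using rs_one
  | insert a s ha ih =>
    rw [Finset.prod_insert ha, Finset.prod_insert ha]
    exact (h a (Finset.mem_insert_self _ _)).mul (ih (fun i hi => h i (Finset.mem_insert_of_mem hi)))

lemma not_nonunit_const (hc : c ≠ 0) : algebraMap k F c ∉ w.ring.nonunits := by
  intro h
  have h1 := nonunits_mul (w.alg c⁻¹) h
  rw [← map_mul, inv_mul_cancel₀ hc, map_one] at h1
  exact one_notMem h1

lemma Rs.unique (h : Rs w x c) (h' : Rs w x d) : c = d := by
  by_contra hcd
  have h1 := h'.sub h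
  unfold Rs at h1
  rw [sub_self, zero_sub, ← map_neg] at h1
  exact not_nonunit_const (neg_ne_zero.mpr (sub_ne_zero.mpr (Ne.symm hcd))) h1

lemma rs_zero_iff : Rs w x 0 ↔ x ∈ w.ring.nonunits := by
  unfold Rs; rw [map_zero, sub_zero]

lemma Rs.inv_mem (h : Rs w x c) (hc : c ≠ 0) : x ≠ 0 ∧ x⁻¹ ∈ w.ring := by
  have h1 : x ∉ w.ring.nonunits := fun h1 => hc (h.unique (rs_zero_iff.mpr h1))
  rw [ValuationSubring.mem_nonunits_iff_or] at h1
  push Not at h1
  exact h1

lemma Rs.inv (h : Rs w x c) (hc : c ≠ 0) : Rs w x⁻¹ c⁻¹ := by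
  obtain ⟨h1, h2⟩ := h.inv_mem hc
  obtain ⟨e, he⟩ := exists_rs h2
  have h3 := h.mul he
  rw [mul_inv_cancel₀ h1] at h3
  have h4 := h3.unique rs_one
  rwa [eq_inv_of_mul_eq_one_right h4] at he

lemma Rs.div (h : Rs w x c) (h' : Rs w y d) (hd : d ≠ 0) : Rs w (x / y) (c / d) := by
  rw [div_eq_mul_inv, div_eq_mul_inv]
  exact h.mul (h'.inv hd)

lemma rs_mvaeval {M : ℕ} {a : Fin M → F} {b : Fin M → k} (h : ∀ i, Rs w (a i) (b i))
    (P : MvPolynomial (Fin M) k) : Rs w (MvPolynomial.aeval a P) (MvPolynomial.aeval b P) := by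
  induction P using MvPolynomial.induction_on with
  | C a =>
    rw [MvPolynomial.algHom_C, MvPolynomial.algHom_C]
    exact rs_const a
  | add p q hp hq => rw [map_add, map_add]; exact hp.add hq
  | mul_X p i hp =>
    rw [map_mul, map_mul, MvPolynomial.aeval_X, MvPolynomial.aeval_X]
    exact hp.mul (h i)

lemma rs_nm {ι : Type*} [Fintype ι] {M d : ℕ} {x : ι → Fin M → F} {z : ι → Fin M → k}
    (h : ∀ j i, Rs w (x j i) (z j i)) (l : Fin ((d + 1) ^ M)) : Rs w (nm d x l) (nm d z l) :=
  Rs.prod _ fun j _ => Rs.sum _ fun i _ => (rs_natCast _).mul (h j i)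

/-! ### Restriction of places -/

variable {F' : Type u} [Field F'] [Algebra k F']

lemma mem_nonunits_comap' (w : RPl k F) (f : F' →ₐ[k] F) (z : F') :
    z ∈ (w.ring.comap f.toRingHom).nonunits ↔ f z ∈ w.ring.nonunits := by
  rw [ValuationSubring.mem_nonunits_iff_or, ValuationSubring.mem_nonunits_iff_or,
    ValuationSubring.mem_comap]
  have h1 : f.toRingHom z⁻¹ = (f z)⁻¹ := map_inv₀ f z
  rw [h1, map_eq_zero_iff f f.toRingHom.injective]

/-- The restriction of a rational place. -/
def RPl.comap (w : RPl k F) (f : F' →ₐ[k] F) : RPl k F' where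
  ring := w.ring.comap f.toRingHom
  alg c := by
    rw [ValuationSubring.mem_comap]
    have h : f.toRingHom (algebraMap k F' c) = algebraMap k F c := f.commutes c
    rw [h]
    exact w.alg c
  res z hz := by
    rw [ValuationSubring.mem_comap] at hz
    obtain ⟨c, hc⟩ := w.res _ hz
    refine ⟨c, ?_⟩
    rw [mem_nonunits_comap', map_sub, AlgHom.commutes]
    exact hc

lemma rs_comap (w : RPl k F) (f : F' →ₐ[k] F) (z : F') (c : k) :
    Rs (w.comap f) z c ↔ Rs w (f z) c := by
  unfold Rs
  change z - algebraMap k F' c ∈ (w.ring.comap f.toRingHom).nonunits ↔ _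
  rw [mem_nonunits_comap', map_sub, AlgHom.commutes]

lemma RPl.comap_comap {F'' : Type u} [Field F''] [Algebra k F''] (w : RPl k F) (f : F' →ₐ[k] F)
    (g : F'' →ₐ[k] F') : (w.comap f).comap g = w.comap (f.comp g) := by
  ext z
  rfl

/-- The restriction of a rational place to a function field of one variable. -/
def RPl.pl {K : Type u} [Field K] [Algebra k K] (hK : IsFunctionField k K) (j : K →ₐ[k] F)
    (w : RPl k F) : Place k K where
  ring := w.ring.comap j.toRingHom
  algebraMap_mem c := (w.comap j).alg c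
  ne_top := by
    intro h
    obtain ⟨t, ht, -⟩ := hK
    have h1 : t ∈ (w.comap j).ring := by
      change t ∈ w.ring.comap j.toRingHom
      rw [h]
      exact ValuationSubring.mem_top t
    obtain ⟨c, hc⟩ := (w.comap j).res t h1
    rw [ValuationSubring.mem_nonunits_iff_or] at hc
    rcases hc with hc | hc
    · apply ht
      rw [sub_eq_zero.mp hc]
      exact isAlgebraic_algebraMap c
    · apply hc
      change (t - algebraMap k K c)⁻¹ ∈ w.ring.comap j.toRingHom
      rw [h]
      exact ValuationSubring.mem_top _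

lemma isRes_pl {K : Type u} [Field K] [Algebra k K] (hK : IsFunctionField k K) (j : K →ₐ[k] F)
    (w : RPl k F) (z : K) (c : k) : IsRes (w.pl hK j) z c ↔ Rs w (j z) c := by
  unfold IsRes Rs
  change z - algebraMap k K c ∈ (w.ring.comap j.toRingHom).nonunits ↔ _
  rw [mem_nonunits_comap', map_sub, AlgHom.commutes]

lemma pl_comap {K : Type u} [Field K] [Algebra k K] (hK : IsFunctionField k K) (j : K →ₐ[k] F')
    (w : RPl k F) (f : F' →ₐ[k] F) : (w.comap f).pl hK j = w.pl hK (f.comp j) := by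
  ext z
  rfl

/-! ### Values of points -/

/-- The vector `b` is a vector of homogeneous coordinates of the value of the point with
homogeneous coordinates `ξ` at the place `w`. -/
def Vl (w : RPl k F) {M : ℕ} (ξ : Fin M → F) (b : Fin M → k) : Prop :=
  b ≠ 0 ∧ ∃ r : F, ∀ i, Rs w (r * ξ i) (b i)

lemma Vl.r_ne {M : ℕ} {ξ : Fin M → F} {b : Fin M → k} {r : F} (hb : b ≠ 0)
    (h : ∀ i, Rs w (r * ξ i) (b i)) : r ≠ 0 := by
  rintro rfl
  apply hb
  funext i
  have h1 := h i
  rw [zero_mul] at h1
  exact h1.unique rs_zero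

lemma exists_vl (w : RPl k F) {M : ℕ} (ξ : Fin M → F) (hξ : ξ ≠ 0) : ∃ b, Vl w ξ b := by
  obtain ⟨j, hj, hj'⟩ := exists_max w.ring ξ hξ
  choose b hb using fun i => exists_rs (hj' i)
  refine ⟨b, ?_, (ξ j)⁻¹, fun i => by rw [mul_comm]; exact hb i⟩
  intro h
  have h1 := hb j
  rw [mul_inv_cancel₀ hj, h] at h1
  exact zero_ne_one (h1.unique rs_one)

lemma Vl.unique {M : ℕ} {ξ : Fin M → F} {b b' : Fin M → k} (h : Vl w ξ b) (h' : Vl w ξ b') :
    ∃ c : k, c ≠ 0 ∧ ∀ i, b' i = c * b i := by
  obtain ⟨hb, r, hr⟩ := h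
  obtain ⟨hb', r', hr'⟩ := h'
  have hr0 := Vl.r_ne hb hr
  have hr0' := Vl.r_ne hb' hr'
  obtain ⟨j, hj⟩ := Function.ne_iff.mp hb
  have hj' : b j ≠ 0 := hj
  have key : ∀ i, b' i * b j = b' j * b i := by
    intro i
    have h1 := (hr' i).mul (hr j)
    have h2 := (hr' j).mul (hr i)
    have e : r' * ξ i * (r * ξ j) = r' * ξ j * (r * ξ i) := by ring
    rw [e] at h1
    exact h1.unique h2
  refine ⟨b' j / b j, ?_, fun i => ?_⟩
  · intro h0
    apply hb'
    have h3 : b' j = 0 := by
      rcases div_eq_zero_iff.mp h0 with h | h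
      · exact h
      · exact absurd h hj'
    funext i
    have h4 := key i
    rw [h3, zero_mul] at h4
    exact (mul_eq_zero.mp h4).resolve_right hj'
  · have h4 := key i
    field_simp
    linear_combination h4

lemma Vl.smul {M : ℕ} {ξ : Fin M → F} {b : Fin M → k} (h : Vl w ξ b) {c : k} (hc : c ≠ 0) :
    Vl w ξ (fun i => c * b i) := by
  obtain ⟨hb, r, hr⟩ := h
  refine ⟨?_, algebraMap k F c * r, fun i => ?_⟩
  · obtain ⟨j, hj⟩ := Function.ne_iff.mp hb
    intro h0
    exact hj ((mul_eq_zero.mp (congrFun h0 j)).resolve_left hc)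
  · rw [mul_assoc]
    exact (rs_const c).mul (hr i)

lemma Vl.sat {M : ℕ} {ξ : Fin M → F} {b : Fin M → k} (h : Vl w ξ b) : Sat (van k ξ) b := by
  obtain ⟨hb, r, hr⟩ := h
  intro P hP n hn
  have h1 := rs_mvaeval hr P
  have h2 : MvPolynomial.aeval ξ P = 0 := hP
  rw [aeval_smul' hn, h2, mul_zero] at h1
  exact h1.unique rs_zero

lemma Vl.comap {M : ℕ} {f : F' →ₐ[k] F} {ξ : Fin M → F'} {b : Fin M → k} (h : Vl (w.comap f) ξ b) :
    Vl w (fun i => f (ξ i)) b := by
  obtain ⟨hb, r, hr⟩ := h
  refine ⟨hb, f r, fun i => ?_⟩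
  rw [← map_mul]
  exact (rs_comap w f _ _).mp (hr i)

lemma Vl.comap' {M : ℕ} {f : F' →ₐ[k] F} {ξ : Fin M → F'} (hξ : ξ ≠ 0) {b : Fin M → k}
    (h : Vl w (fun i => f (ξ i)) b) : Vl (w.comap f) ξ b := by
  obtain ⟨b', hb'⟩ := exists_vl (w.comap f) ξ hξ
  obtain ⟨c, hc, h1⟩ := hb'.comap.unique h
  have e : b = fun i => c * b' i := funext h1
  rw [e]
  exact hb'.smul hc

end basic

/-! ### The center of a place -/

section center

variable {k F : Type u} [Field k] [IsAlgClosed k] [CharZero k] [Field F] [Algebra k F]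

/-- The center of the place `w` on the closure of the point `ξ`. -/
noncomputable def evP {M : ℕ} (ξ : Fin M → F) (hξ : ξ ≠ 0) (w : RPl k F) : (proj k (van k ξ)).Pt :=
  ppt (exists_vl w ξ hξ).choose (exists_vl w ξ hξ).choose_spec.1 (exists_vl w ξ hξ).choose_spec.sat

lemma evP_eq {M : ℕ} {ξ : Fin M → F} (hξ : ξ ≠ 0) {w : RPl k F} {b : Fin M → k} (h : Vl w ξ b)
    (hb : b ≠ 0) (hs : Sat (van k ξ) b) : evP ξ hξ w = ppt b hb hs := by
  obtain ⟨c, hc, h1⟩ := h.unique (exists_vl w ξ hξ).choose_spec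
  exact ppt_eq_iff.mpr ⟨c, fun i => (h1 i).symm⟩

lemma exists_evP {M : ℕ} (ξ : Fin M → F) (hξ : ξ ≠ 0) (w : RPl k F) :
    ∃ (b : Fin M → k) (hb : b ≠ 0) (hs : Sat (van k ξ) b), Vl w ξ b ∧ evP ξ hξ w = ppt b hb hs := by
  obtain ⟨b, hb⟩ := exists_vl w ξ hξ
  exact ⟨b, hb.1, hb.sat, hb, evP_eq hξ hb hb.1 hb.sat⟩

end center

end Pool.Agent.Helper15.GT
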