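import Mathlib
import Pool.Agent.Helper9.NS
import Pool.Agent.Helper15.GT.RDefs
import Pool.Agent.Helper21.TB.AllZ

/-!
# Block GT-RBASE: genus one fibrations

Let `ξ : Fin M → F`, `η = f ∘ ξ`, so `van k η = van k ξ` (`van_hom`) and `vanB k η = van k η` (the same definition). Let
`b l = (a l).mapDomain (evP ξ hξ)` with `AJ k F (a l)`, `n > p`. Apply `voisin_np` (TB/AllZ.lean) to `η`; its hypothesis `ha`: let `φ`,
`κ'` be given (`Kills φ`, `Harm κ'`, `φ (ppt s) = κ' P` for all `(P, s)` with `Clo T.j η P s`). For every rational place `w` of `F`: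
`Clo T.j η (w.pl T.hF κ) b` for `Vl w ξ b` (`clo_pl`). So `φ (evP ξ hξ w) = κ' (w.pl T.hF κ)`, and
`φ_lin (b l) = κ'_lin ((a l).mapDomain (RPl.pl T.hF κ)) = 0` by `harm_curve`.
-/

set_option linter.unusedSectionVars false

namespace Pool.Agent.Helper15.GT

open VC VF Function Pool.Agent.Helper21.TO

universe u

open Pool.Agent.Helper21.TB

variable {k F K : Type u} [Field k] [Field F] [Algebra k F] [Field K] [Algebra k K]

lemma eval₂_smul15 {n M : ℕ} {G : MvPolynomial (Fin M) K} (hG : G.IsHomogeneous n) (φ : K →+* F) (r : F)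
    (a : Fin M → F) : G.eval₂ φ (fun i => r * a i) = r ^ n * G.eval₂ φ a := by
  rw [MvPolynomial.eval₂_eq', MvPolynomial.eval₂_eq', Finset.mul_sum]
  apply Finset.sum_congr rfl
  intro d hd
  have h1 : ∑ i, d i = n := by
    have := hG (MvPolynomial.mem_support_iff.mp hd)
    rw [Finsupp.weight_apply, Finsupp.sum_fintype _ _ (fun i => by simp)] at this
    simpa using this
  simp only [mul_pow, Finset.prod_mul_distrib]
  rw [Finset.prod_pow_eq_pow_sum, h1]
  ring

lemma rs_eval₂ {w : RPl k F} (hK : IsFunctionField k K) (κ : K →ₐ[k] F) {M : ℕ}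
    {G : MvPolynomial (Fin M) K} {G₀ : MvPolynomial (Fin M) k}
    (h : ∀ m, IsRes (w.pl hK κ) (G.coeff m) (G₀.coeff m)) {a : Fin M → F} {b : Fin M → k}
    (hab : ∀ i, Rs w (a i) (b i)) : Rs w (G.eval₂ (κ : K →+* F) a) (MvPolynomial.aeval b G₀) := by
  classical
  have e1 : G.eval₂ (κ : K →+* F) a =
      ∑ m ∈ G.support ∪ G₀.support, κ (G.coeff m) * ∏ i, a i ^ m i := by
    rw [MvPolynomial.eval₂_eq']
    refine Finset.sum_subset Finset.subset_union_left fun m _ hm => ?_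
    rw [MvPolynomial.notMem_support_iff.mp hm, map_zero, zero_mul]
  have e2 : MvPolynomial.aeval b G₀ = ∑ m ∈ G.support ∪ G₀.support, G₀.coeff m * ∏ i, b i ^ m i := by
    rw [MvPolynomial.aeval_def, MvPolynomial.eval₂_eq']
    refine Finset.sum_subset Finset.subset_union_right fun m _ hm => ?_
    rw [MvPolynomial.notMem_support_iff.mp hm, map_zero, zero_mul]
  rw [e1, e2]
  refine Rs.sum _ fun m _ => ((isRes_pl hK κ w _ _).mp (h m)).mul (Rs.prod _ fun i _ => ?_)
  have hp : ∀ n : ℕ, Rs w (a i ^ n) (b i ^ n) := by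
    intro n
    induction n with
    | zero => rw [pow_zero, pow_zero]; exact rs_one
    | succ n ih => rw [pow_succ, pow_succ]; exact ih.mul (hab i)
  exact hp _

/-- The center of a place on the base and on the closure is a point of the closure of the graph. -/
lemma clo_pl {Ω : Type u} [Field Ω] [Algebra k Ω] (hK : IsFunctionField k K) (κ : K →ₐ[k] F)
    (f : F →ₐ[k] Ω) {w : RPl k F} {M : ℕ} {ξ : Fin M → F} {b : Fin M → k} (hb : Vl w ξ b) :
    Clo (f.comp κ) (fun i => f (ξ i)) (w.pl hK κ) b := by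
  intro n G G₀ hG h0 hr
  obtain ⟨-, r, hr'⟩ := hb
  have h1 : G.eval₂ (κ : K →+* F) ξ = 0 := by
    have h2 : f (G.eval₂ (κ : K →+* F) ξ) = G.eval₂ ((f.comp κ : K →ₐ[k] Ω) : K →+* Ω) (fun i => f (ξ i)) := by
      rw [MvPolynomial.eval₂_eq', MvPolynomial.eval₂_eq', map_sum]
      refine Finset.sum_congr rfl fun m _ => ?_
      rw [map_mul, map_prod]
      simp only [map_pow]
      rfl
    rw [h0] at h2
    exact (map_eq_zero_iff f f.toRingHom.injective).mp h2
  have h3 := rs_eval₂ hK κ hr hr'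
  rw [eval₂_smul15 hG, h1, mul_zero] at h3
  exact h3.unique rs_zero

theorem vpj_fib {k F K L Ω : Type u} [Field k] [IsAlgClosed k] [CharZero k] [Field F] [Algebra k F] [Field K]
    [Algebra k K] [Field L] [Algebra k L] [Algebra K L] [IsScalarTower k K L] [Field Ω] [Algebra k Ω]
    [Algebra L Ω] [IsScalarTower k L Ω] (T : Fibration k K L Ω) {g : ℕ} (hg : IsGenus k K g)
    (E : Place k K →₀ ℤ) (h4 : ∀ P : Place k K, T.a ≠ 0 → 0 ≤ ord P.ring T.a + 4 * E P)
    (h6 : ∀ P : Place k K, T.b ≠ 0 → 0 ≤ ord P.ring T.b + 6 * E P)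
    (hmin : ∀ P : Place k K, (T.a ≠ 0 ∧ ord P.ring T.a + 4 * E P < 4) ∨
      (T.b ≠ 0 ∧ ord P.ring T.b + 6 * E P < 6)) (hE : ¬ ∃ u : K, u ≠ 0 ∧ ∀ P : Place k K, ord P.ring u = E P)
    (κ : K →ₐ[k] F) (f : F →ₐ[k] Ω) (hκ : f.comp κ = T.j) (hf : ∀ σ ∈ T.G, ∀ z, σ (f z) = f z) {p : ℕ}
    (hp : (E.sum fun _ m => m) + g = p + 1) : VPJ k F p := by
  intro M ξ hξ n hn b hb
  choose a ha hab using hb
  have hη : (fun i => f (ξ i)) ≠ 0 := by
    intro h0
    apply hξ
    funext i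
    exact (map_eq_zero_iff f f.toRingHom.injective).mp (congrFun h0 i)
  have hvan : vanB k (fun i => f (ξ i)) = van k ξ := van_hom f ξ
  have hn' : (E.sum fun _ m => m) + g ≤ n := by
    rw [hp]
    exact_mod_cast hn
  have key := fun (b' : Fin n → (proj k (vanB k (fun i => f (ξ i)))).Cycles) ha' =>
    voisin_np T hg E h4 h6 hmin hE (fun i => f (ξ i)) hη
      (fun σ hσ i => hf σ hσ _) hn' b' ha'
  rw [hvan] at key
  refine key b fun i φ κ' hφ hκ' hcl _ => ?_
  have h1 : ∀ w : RPl k F, φ (evP ξ hξ w) = κ' (w.pl T.hF κ) := by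
    intro w
    obtain ⟨c, hc, hs, hv, he⟩ := exists_evP ξ hξ w
    rw [he]
    refine hcl _ c hc hs ?_
    rw [← hκ]
    exact clo_pl T.hF κ f hv
  rw [hab i, Finsupp.linearCombination_mapDomain]
  have h2 := harm_curve hκ' _ ((ha i).2 K T.hF κ)
  rw [Finsupp.linearCombination_mapDomain] at h2
  rw [← h2]
  congr 1
  congr 1
  funext w
  exact h1 w

end Pool.Agent.Helper15.GT
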