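import Mathlib
import Pool.Agent.Helper9.NS
import Pool.Agent.Helper15.GT.Defs
import Pool.Agent.Helper15.GT.Alt
import Pool.Agent.Helper21.TO.ExtCongr

/-!
# Block GT-DEC: the decomposition of Voisin's property

By `separation (S.pow n)` (see `transfer` in Helper21/TO/Transfer.lean) it suffices to show `A a = 0` for
`A = (TM S Φ).alternatization`, `Φ` with `Kills (S.pow n) Φ` and `a j ∈ HS` (`A a = ∑_σ sgn σ Φ_lin (extProd (a ∘ σ))`:
`MultilinearMap.alternatization_apply`, `alt_apply24` in Transfer.lean). Choose `D j > 0` and `b j i ∈ H i` for `a j` by `hHS`. Then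
`(∏_j D j) A a = A (fun j => D j • a j) = A (fun j => ∑_i lin (Z i) (b j i))`: the first equality by `map_smul_univ`; the second one
because changing a slot by a cycle which is `Nul` does not change `TM S Φ (z ∘ σ)` (`ext_congr` in TO/ExtCongr.lean). Expand by
multilinearity (`MultilinearMap.map_sum`): the sum over `f : Fin n → Fin m` of `A (fun j => lin (Z (f j)) (b j (f j)))`. For every `f`
there is `i` with `p i < #{j : f j = i} = n'` (otherwise `n = ∑_i #{j : f j = i} ≤ ∑_i p i < n`; `Finset.card_eq_sum_card_fiberwise`).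
Let `e : Fin n' ↪ Fin n` enumerate `{j : f j = i}` (`Finset.orderEmbOfFin`) and apply `alt_cor` with `b' l = b (e l) i`.
-/

set_option linter.unusedSectionVars false

namespace Pool.Agent.Helper15.GT

open VC VF Function Pool.Agent.Helper21.TO

universe u

variable {k : Type u} [Field k] [IsAlgClosed k] [CharZero k]

private lemma alt_apply53 {S : Variety k} {n : ℕ} (Φ : (S.pow n).Pt → k) (z : Fin n → S.Cycles) :
    (TM S Φ).alternatization z = ∑ σ : Equiv.Perm (Fin n), ((Equiv.Perm.sign σ : ℤˣ) : ℤ) •
      TM S Φ (fun i => z (σ i)) := by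
  rw [MultilinearMap.alternatization_apply]
  refine Finset.sum_congr rfl fun σ _ => ?_
  rw [Units.smul_def]
  rfl

private lemma alt_congr53 {S : Variety k} (hS : HasConst S) {n : ℕ} {Φ : (S.pow n).Pt → k}
    (hΦ : Kills (S.pow n) Φ) (z w : Fin n → S.Cycles) (h : ∀ j, Nul S (z j - w j)) :
    (TM S Φ).alternatization z = (TM S Φ).alternatization w := by
  rw [alt_apply53, alt_apply53]
  refine Finset.sum_congr rfl fun σ _ => ?_
  rw [TM_apply, TM_apply, ext_congr hS hΦ (fun i => z (σ i)) (fun i => w (σ i)) fun i => h (σ i)]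

theorem voisinOn_dec {m : ℕ} {S : Variety k} (hS : HasConst S) {X : Fin m → Variety k}
    {Z : ∀ i, (X i).Pt → S.Cycles} (hZ : ∀ i, Cor (X i) S (Z i)) (H : ∀ i, Set (X i).Cycles)
    (p : Fin m → ℕ) (hV : ∀ i n, p i < n → VoisinOn (X i) (H i) n) {n : ℕ} (hn : ∑ i, p i < n)
    (HS : Set S.Cycles)
    (hHS : ∀ a ∈ HS, ∃ D : ℕ, 0 < D ∧ ∃ b : ∀ i, (X i).Cycles, (∀ i, b i ∈ H i) ∧
      Nul S (D • a - ∑ i, Finsupp.linearCombination ℤ (Z i) (b i))) : VoisinOn S HS n := by
  classical
  intro a ha
  refine separation (S.pow n) _ fun Φ hΦ => ?_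
  have h0 : (TM S Φ).alternatization a = 0 := by
    choose D hD b hb hnul using fun j => hHS (a j) (ha j)
    have h1 : (TM S Φ).alternatization (fun j => (D j : ℤ) • a j) =
        (∏ j, (D j : ℤ)) • (TM S Φ).alternatization a :=
      ((TM S Φ).alternatization.toMultilinearMap).map_smul_univ (fun j => (D j : ℤ)) a
    have h2 : (TM S Φ).alternatization (fun j => (D j : ℤ) • a j) =
        (TM S Φ).alternatization (fun j => ∑ i, Finsupp.linearCombination ℤ (Z i) (b j i)) := by
      refine alt_congr53 hS hΦ _ _ fun j => ?_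
      have h3 := hnul j
      rw [natCast_zsmul]
      exact h3
    have h3 : (TM S Φ).alternatization (fun j => ∑ i, Finsupp.linearCombination ℤ (Z i) (b j i)) =
        ∑ f : Fin n → Fin m, (TM S Φ).alternatization
          (fun j => Finsupp.linearCombination ℤ (Z (f j)) (b j (f j))) :=
      ((TM S Φ).alternatization.toMultilinearMap).map_sum
        (fun j i => Finsupp.linearCombination ℤ (Z i) (b j i))
    have h4 : ∀ f : Fin n → Fin m, (TM S Φ).alternatization
          (fun j => Finsupp.linearCombination ℤ (Z (f j)) (b j (f j))) = 0 := by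
      intro f
      obtain ⟨i, hi⟩ : ∃ i, p i < (Finset.univ.filter fun j => f j = i).card := by
        by_contra hcon
        push Not at hcon
        have h5 : n = ∑ i, (Finset.univ.filter fun j => f j = i).card := by
          have := Finset.card_eq_sum_card_fiberwise (s := (Finset.univ : Finset (Fin n)))
            (t := (Finset.univ : Finset (Fin m))) (f := f) (fun x _ => Finset.mem_coe.2 (Finset.mem_univ _))
          rwa [Finset.card_univ, Fintype.card_fin] at this
        have h6 : ∑ i, (Finset.univ.filter fun j => f j = i).card ≤ ∑ i, p i :=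
          Finset.sum_le_sum fun i _ => hcon i
        omega
      refine alt_cor hS (hZ i) (hV i _ hi) hΦ
        ((Finset.univ.filter fun j => f j = i).orderEmbOfFin rfl).toEmbedding
        (fun l => b ((Finset.univ.filter fun j => f j = i).orderEmbOfFin rfl l) i)
        (fun l => hb _ i) _ fun l => ?_
      have h7 : f ((Finset.univ.filter fun j => f j = i).orderEmbOfFin rfl l) = i :=
        (Finset.mem_filter.1 (Finset.orderEmbOfFin_mem (Finset.univ.filter fun j => f j = i) rfl l)).2
      have h8 : ∀ i', i' = i → Finsupp.linearCombination ℤ (Z i')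
          (b ((Finset.univ.filter fun j => f j = i).orderEmbOfFin rfl l) i') =
          Finsupp.linearCombination ℤ (Z i)
          (b ((Finset.univ.filter fun j => f j = i).orderEmbOfFin rfl l) i) := by
        rintro i' rfl
        rfl
      exact h8 _ h7
    rw [h2, h3, Finset.sum_eq_zero fun f _ => h4 f] at h1
    refine (smul_eq_zero.1 h1.symm).resolve_left ?_
    exact Finset.prod_ne_zero_iff.2 fun j _ => by exact_mod_cast (hD j).ne'
  rw [alt_apply53] at h0
  rw [map_sum, ← h0]
  refine Finset.sum_congr rfl fun σ _ => ?_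
  rw [map_smul, TM_apply]

end Pool.Agent.Helper15.GT
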