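import Mathlib
import Pool.Agent.Helper9.NS
import Pool.Agent.Helper15.GT.Defs
import Pool.Agent.Helper15.GT.Grid

/-!
# Block GT-INT: integrality

Let `ℓ_j = ∑_i (gpt l0 i) x j i`, so `∏_j ℓ_j = nm d x l0 ≠ 0` and all `ℓ_j ≠ 0`. Fix `i`. In `F[T]` the polynomial
`Q = ∏_j (T ℓ_j - x j i)` equals `∑_l (lag l) (T a0 - e_i) * C (nm d x l)` by `interp` with `R = F[T]`, the vectors `x j` mapped by `C`,
and the vector `a = T a0 - e_i`, `a0 = gpt l0`, `e_i = Pi.single i 1` (`∑_i' a i' * C (x j i') = T C ℓ_j - C (x j i)`). The
coefficients of `(lag l) (T a0 - e_i)` are in `k`: it is the image of a polynomial `∈ k[T]`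
(`MvPolynomial.aeval` of `a` with values in the image of `k[T]`). Divide by `nm d x l0`: `∏_j (T - x j i / ℓ_j)` has coefficients
in `A = Algebra.adjoin k {nm d x l / nm d x l0}`; it is monic and has the root `x j i / ℓ_j`. So `x j i / ℓ_j` is integral over `A`.
(To see that a monic polynomial `Q ∈ F[T]` with all coefficients in `A` and root `z` gives `IsIntegral A z`: lift it with
`Polynomial.lifts_and_degree_eq_and_monic` or `Polynomial.toSubring` with `A.toSubring`.)
-/

set_option linter.unusedSectionVars false

namespace Pool.Agent.Helper15.GT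

open VC VF Function Pool.Agent.Helper21.TO

universe u

theorem isIntegral_div {k F : Type*} [Field k] [CharZero k] [Field F] [Algebra k F] {ι : Type*} [Fintype ι] {M d : ℕ}
    (hd : Fintype.card ι ≤ d) (x : ι → Fin M → F) (l0 : Fin ((d + 1) ^ M)) (h0 : nm d x l0 ≠ 0) (j : ι)
    (i : Fin M) :
    IsIntegral (Algebra.adjoin k (Set.range fun l => nm d x l / nm d x l0))
      (x j i / ∑ i', (gpt M d l0 i' : F) * x j i') := by
  classical
  set A := Algebra.adjoin k (Set.range fun l => nm d x l / nm d x l0) with hA
  set ℓ : ι → F := fun j => ∑ i', (gpt M d l0 i' : F) * x j i' with hℓ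
  have hprod : ∏ j, ℓ j = nm d x l0 := rfl
  have hℓ0 : ∀ j, ℓ j ≠ 0 := by
    intro j hj
    apply h0
    rw [← hprod]
    exact Finset.prod_eq_zero (Finset.mem_univ j) hj
  -- the vector
  let a : Fin M → Polynomial F := fun i' => ((gpt M d l0 i' : ℕ) : Polynomial F) * Polynomial.X -
    Polynomial.C (if i' = i then (1 : F) else 0)
  let b : Fin M → Polynomial k := fun i' => ((gpt M d l0 i' : ℕ) : Polynomial k) * Polynomial.X -
    Polynomial.C (if i' = i then (1 : k) else 0)
  have hab : ∀ i', a i' = Polynomial.mapAlgHom (Algebra.ofId k F) (b i') := by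
    intro i'
    change ((gpt M d l0 i' : ℕ) : Polynomial F) * Polynomial.X - Polynomial.C (if i' = i then (1 : F) else 0) =
      Polynomial.map (algebraMap k F) (((gpt M d l0 i' : ℕ) : Polynomial k) * Polynomial.X -
        Polynomial.C (if i' = i then (1 : k) else 0))
    rw [Polynomial.map_sub, Polynomial.map_mul, Polynomial.map_natCast, Polynomial.map_X, Polynomial.map_C]
    split_ifs
    · rw [map_one (algebraMap k F)]
    · rw [map_zero (algebraMap k F)]
  have haev : ∀ P : MvPolynomial (Fin M) k, MvPolynomial.aeval a P =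
      (MvPolynomial.aeval b P).map (algebraMap k F) := by
    intro P
    have h1 := MvPolynomial.comp_aeval_apply (R := k) b (Polynomial.mapAlgHom (Algebra.ofId k F)) P
    have h2 : (fun i' => Polynomial.mapAlgHom (Algebra.ofId k F) (b i')) = a := funext fun i' => (hab i').symm
    rw [h2] at h1
    exact h1.symm
  have hint := interp (k := k) (R := Polynomial F) hd (fun j i' => Polynomial.C (x j i')) a
  have hL : ∀ j, ∑ i', a i' * Polynomial.C (x j i') =
      Polynomial.C (ℓ j) * Polynomial.X - Polynomial.C (x j i) := by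
    intro j
    have e1 : ∀ i', a i' * Polynomial.C (x j i') =
        Polynomial.C ((gpt M d l0 i' : F) * x j i') * Polynomial.X -
        (if i' = i then Polynomial.C (x j i') else 0) := by
      intro i'
      change (((gpt M d l0 i' : ℕ) : Polynomial F) * Polynomial.X -
        Polynomial.C (if i' = i then (1 : F) else 0)) * Polynomial.C (x j i') = _
      rw [Polynomial.C_mul, Polynomial.C_eq_natCast]
      split_ifs
      · rw [map_one]
        ring
      · rw [map_zero]
        ring
    rw [Finset.sum_congr rfl fun i' _ => e1 i', Finset.sum_sub_distrib, ← Finset.sum_mul, ← map_sum,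
      Finset.sum_ite_eq' Finset.univ i]
    simp only [Finset.mem_univ, if_true]
    rfl
  have hR : ∀ l, nm d (fun j i' => (Polynomial.C (x j i') : Polynomial F)) l = Polynomial.C (nm d x l) := fun l =>
    nm_map (Polynomial.C : F →+* Polynomial F) x l
  have hmem : ∀ l, nm d x l / nm d x l0 ∈ A := fun l => Algebra.subset_adjoin ⟨l, rfl⟩
  let q : Polynomial A := ∑ l, (MvPolynomial.aeval b (lag k M d l)).map (algebraMap k A) *
    Polynomial.C (⟨nm d x l / nm d x l0, hmem l⟩ : A)
  have hq : q.map (algebraMap A F) = ∏ j, (Polynomial.X - Polynomial.C (x j i / ℓ j)) := by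
    have e2 : Polynomial.C (nm d x l0) * q.map (algebraMap A F) =
        Polynomial.C (nm d x l0) * ∏ j, (Polynomial.X - Polynomial.C (x j i / ℓ j)) := by
      have e3 : Polynomial.C (nm d x l0) * ∏ j, (Polynomial.X - Polynomial.C (x j i / ℓ j)) =
          ∏ j, (Polynomial.C (ℓ j) * Polynomial.X - Polynomial.C (x j i)) := by
        rw [← hprod, map_prod, ← Finset.prod_mul_distrib]
        refine Finset.prod_congr rfl fun j _ => ?_
        rw [mul_sub, ← Polynomial.C_mul, mul_div_cancel₀ _ (hℓ0 j)]
      rw [e3, ← Finset.prod_congr rfl fun j _ => hL j, hint, Polynomial.map_sum, Finset.mul_sum]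
      refine Finset.sum_congr rfl fun l _ => ?_
      rw [haev, hR, Polynomial.map_mul, Polynomial.map_C, Polynomial.map_map,
        ← IsScalarTower.algebraMap_eq k A F]
      change Polynomial.C (nm d x l0) * (_ * Polynomial.C (nm d x l / nm d x l0)) = _
      rw [mul_left_comm, ← Polynomial.C_mul, mul_div_cancel₀ _ h0]
    exact mul_left_cancel₀ (Polynomial.C_ne_zero.mpr h0) e2
  refine ⟨q, ?_, ?_⟩
  · have hinj : Function.Injective (algebraMap A F) := Subtype.coe_injective
    rw [Function.Injective.monic_map_iff hinj, hq]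
    exact Polynomial.monic_prod_of_monic _ _ fun j _ => Polynomial.monic_X_sub_C _
  · rw [← Polynomial.eval_map, hq, Polynomial.eval_prod]
    refine Finset.prod_eq_zero (Finset.mem_univ j) ?_
    rw [Polynomial.eval_sub, Polynomial.eval_X, Polynomial.eval_C, sub_self]

end Pool.Agent.Helper15.GT
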