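import Mathlib
import Pool.Agent.Helper9.NS
import Pool.Agent.Helper15.GT.Defs
import Pool.Agent.Helper15.GT.Grid
import Pool.Agent.Helper15.GT.Hom
import Pool.Agent.Helper15.GT.Ext
import Pool.Agent.Helper15.GT.Integ

/-!
# Block GT-FAC: the points of the model of the quotient factor

Choose `l0` with `y l0 ≠ 0`. `exists_homK` with `g = nm d x`: `nm d x l0 ≠ 0` and `θ : A → Kc`, `A = Algebra.adjoin k {nm d x l /
nm d x l0}`, `θ (nm d x l / nm d x l0) = y l / y l0`. `exists_ext`: extend `θ` to `θ' : B → Kc` with `B` containing all elements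
integral over `A`, in particular (`isIntegral_div`) all `r_j,i = x j i / ℓ_j`, `ℓ_j = ∑_i (gpt l0 i) x j i ≠ 0`. Put
`z j i = θ' (r_j,i)`. `z j ≠ 0` as `∑_i (gpt l0 i) z j i = θ' 1 = 1`. `Sat I (z j)`: for a form `P ∈ I` of degree `n`,
`P (r_j) = ℓ_j ^ (-n) P (x j) = 0` (`aeval_smul'`, `Sat.smul` with `l = ℓ_j⁻¹`), so `P (z j) = θ' (P (r_j)) = 0` (the value of
`MvPolynomial.aeval` in `B`, `MvPolynomial.comp_aeval_apply` for `B.val` and for `θ'`). Finally
`y l / y l0 = θ' (nm d x l / nm d x l0) = θ' (nm d r l) = nm d z l` (`nm_smul` with `c j = ℓ_j⁻¹`, `nm_map`), so `c = y l0`.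
-/

set_option linter.unusedSectionVars false

namespace Pool.Agent.Helper15.GT

open VC VF Function Pool.Agent.Helper21.TO

universe u

theorem exists_fac {k F Kc : Type u} [Field k] [CharZero k] [Field F] [Algebra k F] [Field Kc] [IsAlgClosed Kc]
    [Algebra k Kc] {ι : Type*} [Fintype ι] {M d : ℕ} (hd : Fintype.card ι ≤ d)
    (I : Set (MvPolynomial (Fin M) k)) (x : ι → Fin M → F) (hx : ∀ j, Sat I (x j))
    (y : Fin ((d + 1) ^ M) → Kc) (hy0 : y ≠ 0) (hy : Sat (van k (nm d x)) y) :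
    ∃ z : ι → Fin M → Kc, IsFac d y z ∧ ∀ j, Sat I (z j) := by
  classical
  obtain ⟨l0, hl0⟩ := Function.ne_iff.mp hy0
  simp only [Pi.zero_apply] at hl0
  obtain ⟨hg, θ, hθ⟩ := exists_homK (nm d x) y hy l0 hl0
  obtain ⟨B, hAB, θ', hB, hθ'⟩ := exists_ext _ θ
  have hℓ0 : ∀ j, (∑ i', (gpt M d l0 i' : F) * x j i') ≠ 0 := fun j =>
    Finset.prod_ne_zero_iff.mp hg j (Finset.mem_univ j)
  have hr : ∀ j i, (∑ i', (gpt M d l0 i' : F) * x j i')⁻¹ * x j i ∈ B := fun j i => by
    rw [inv_mul_eq_div]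
    exact hB _ (isIntegral_div hd x l0 hg j i)
  obtain ⟨r, hrv⟩ : ∃ r : ι → Fin M → B, ∀ j i, (r j i : F) =
      (∑ i', (gpt M d l0 i' : F) * x j i')⁻¹ * x j i := ⟨fun j i => ⟨_, hr j i⟩, fun j i => rfl⟩
  have hr1 : ∀ j, ∑ i, (gpt M d l0 i : B) * r j i = 1 := by
    intro j
    apply Subtype.ext
    push_cast
    have e : ∀ i, (gpt M d l0 i : F) * (r j i : F) =
        (∑ i', (gpt M d l0 i' : F) * x j i')⁻¹ * ((gpt M d l0 i : F) * x j i) := by
      intro i
      rw [hrv]
      ring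
    rw [Finset.sum_congr rfl fun i _ => e i, ← Finset.mul_sum, inv_mul_cancel₀ (hℓ0 j)]
  have hnm1 : ∀ l, ((nm d r l : B) : F) = nm d x l / nm d x l0 := by
    intro l
    have h1 := nm_map (d := d) (B.val : B →+* F) r l
    have h2 : (fun j i => (B.val : B →+* F) (r j i)) =
        fun j i => (∑ i', (gpt M d l0 i' : F) * x j i')⁻¹ * x j i := by
      funext j i
      exact hrv j i
    rw [h2, nm_smul] at h1
    have h3 : ((nm d r l : B) : F) = (B.val : B →+* F) (nm d r l) := rfl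
    rw [h3, ← h1, Finset.prod_inv_distrib, div_eq_inv_mul]
    rfl
  refine ⟨fun j i => θ' (r j i), ⟨fun j hz => ?_, y l0, hl0, fun l => ?_⟩, fun j P hP n hn => ?_⟩
  · have h1 := congrArg θ' (hr1 j)
    rw [map_sum, map_one] at h1
    have h2 : ∀ i, θ' ((gpt M d l0 i : B) * r j i) = 0 := by
      intro i
      have hzi : θ' (r j i) = 0 := congrFun hz i
      rw [map_mul, hzi, mul_zero]
    rw [Finset.sum_congr rfl fun i _ => h2 i, Finset.sum_const_zero] at h1
    exact zero_ne_one h1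
  · have hm : nm d x l / nm d x l0 ∈ Algebra.adjoin k (Set.range (fun l => nm d x l / nm d x l0)) :=
      Algebra.subset_adjoin ⟨l, rfl⟩
    have h1 := nm_map (d := d) (θ' : B →+* Kc) r l
    have h2 : (θ' : B →+* Kc) (nm d r l) = y l / y l0 := by
      have h3 : nm d r l = Subalgebra.inclusion hAB ⟨_, hm⟩ := Subtype.ext (hnm1 l)
      rw [h3]
      exact (hθ' _).trans (hθ l hm)
    rw [h2] at h1
    have h4 : nm d (fun j i => θ' (r j i)) l = y l / y l0 := h1
    rw [h4, mul_div_cancel₀ _ hl0]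
  · have h1 : MvPolynomial.aeval (fun i => (∑ i', (gpt M d l0 i' : F) * x j i')⁻¹ * x j i) P = 0 := by
      rw [aeval_smul' hn, hx j P hP n hn, mul_zero]
    have h2 : MvPolynomial.aeval (r j) P = 0 := by
      apply Subtype.val_injective
      have h3 : B.val (MvPolynomial.aeval (r j) P) =
          MvPolynomial.aeval (fun i => B.val (r j i)) P := by
        rw [← MvPolynomial.comp_aeval_apply]
      have h4 : (fun i => B.val (r j i)) =
          fun i => (∑ i', (gpt M d l0 i' : F) * x j i')⁻¹ * x j i := by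
        funext i
        exact hrv j i
      rw [h4, h1] at h3
      exact h3
    have h5 := MvPolynomial.comp_aeval_apply (R := k) (r j) θ' P
    rw [h2, map_zero] at h5
    exact h5.symm

end Pool.Agent.Helper15.GT
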