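import Mathlib
import Pool.Agent.Helper9.NS
import Pool.Agent.Helper15.GT.Defs
import Pool.Agent.Helper15.GT.Grid

/-!
# Block GT-UNIQ: factorizations are unique

* `fac_unique`: by `interp` (Grid.lean, with `k = K`, `R = MvPolynomial (Fin M) K`, `a = X`, the vectors mapped by `C`, see
  `nm_map`) the products of the linear forms `L_j = ∑_i X i * C (z j i)` and `L'_j = ∑_i X i * C (z' j i)` differ by a nonzero
  constant factor. A nonzero linear form is irreducible (by degrees: `totalDegree` is additive on nonzero polynomials over a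
  field, a factor of total degree 0 is a nonzero constant, a unit), `MvPolynomial (Fin M) K` is a unique factorization domain, so
  the multisets of the classes of the `L_j` and `L'_j` in `Associates` agree (`Associates.unique'`, or
  `UniqueFactorizationMonoid.factors_unique`); this gives the permutation (equality of `Multiset.map` on `univ`; or
  induct: `L'_j0` divides `∏ L_j`, so it is associated to some `L_j`, remove both), and associated linear forms have proportional
  coefficients (the unit is a constant: `MvPolynomial.isUnit_iff_eq_C_of_isReduced` or degrees).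
-/

set_option linter.unusedSectionVars false

namespace Pool.Agent.Helper15.GT

open VC VF Function Pool.Agent.Helper21.TO

universe u

open MvPolynomial in
private theorem lin_eq11 {K : Type*} [Field K] {M : ℕ} (v : Fin M → K) :
    sumSMulX (Finsupp.equivFunOnFinite.symm v) = ∑ i, (X i : MvPolynomial (Fin M) K) * C (v i) := by
  unfold sumSMulX
  rw [Finsupp.linearCombination_apply, Finsupp.sum_fintype]
  · refine Finset.sum_congr rfl fun i _ => ?_
    rw [MvPolynomial.smul_eq_C_mul, mul_comm]
    rfl
  · intro i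
    rw [zero_smul]

open MvPolynomial in
private theorem lin_irr11 {K : Type*} [Field K] {M : ℕ} {v : Fin M → K} (hv : v ≠ 0) :
    Irreducible (sumSMulX (Finsupp.equivFunOnFinite.symm v)) := by
  obtain ⟨i, hi⟩ := Function.ne_iff.1 hv
  refine irreducible_sumSMulX _ ⟨i, ?_⟩ fun r hr => ?_
  · rw [Finsupp.mem_support_iff]
    exact hi
  · refine isUnit_iff_ne_zero.2 fun h0 => hi ?_
    have h1 := hr i
    rw [h0, zero_dvd_iff] at h1
    exact h1

private theorem perm_of_map11 {ι α : Type*} [Fintype ι] (f g : ι → α)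
    (h : Multiset.map f Finset.univ.val = Multiset.map g Finset.univ.val) :
    ∃ π : Equiv.Perm ι, ∀ j, g (π j) = f j := by
  classical
  have h1 : ∀ (f : ι → α) (a : α), Multiset.count a (Multiset.map f Finset.univ.val) =
      Fintype.card {j // f j = a} := by
    intro f a
    rw [Multiset.count_map, Fintype.card_subtype, Finset.card_def, Finset.filter_val]
    congr 1
    exact Multiset.filter_congr fun j _ => eq_comm
  have h2 : ∀ a : α, Nonempty ({j // f j = a} ≃ {j // g j = a}) := fun a =>
    ⟨Fintype.equivOfCardEq (by rw [← h1, ← h1, h])⟩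
  exact ⟨Equiv.ofFiberEquiv fun a => (h2 a).some, fun j => Equiv.ofFiberEquiv_map _ j⟩

theorem fac_unique {K : Type*} [Field K] [CharZero K] {ι : Type*} [Fintype ι] {M d : ℕ}
    (hd : Fintype.card ι ≤ d) {y : Fin ((d + 1) ^ M) → K} {z z' : ι → Fin M → K} (h : IsFac d y z)
    (h' : IsFac d y z') :
    ∃ (π : Equiv.Perm ι) (c : ι → K), ∀ j, c j ≠ 0 ∧ ∀ i, z' (π j) i = c j * z j i := by
  classical
  obtain ⟨hz, c, hc, hy⟩ := h
  obtain ⟨hz', c', hc', hy'⟩ := h'
  have key : ∀ (z : ι → Fin M → K) (c : K), (∀ l, y l = c * nm d z l) →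
      MvPolynomial.C c * ∏ j, MvPolynomial.sumSMulX (Finsupp.equivFunOnFinite.symm (z j)) =
        ∑ l, MvPolynomial.aeval MvPolynomial.X (lag K M d l) * (MvPolynomial.C (y l) : MvPolynomial (Fin M) K) := by
    intro z c hy
    have h1 := interp (k := K) (R := MvPolynomial (Fin M) K) hd (fun j i => MvPolynomial.C (z j i)) MvPolynomial.X
    have h2 : ∏ j, MvPolynomial.sumSMulX (Finsupp.equivFunOnFinite.symm (z j)) =
        ∏ j, ∑ i, (MvPolynomial.X i : MvPolynomial (Fin M) K) * MvPolynomial.C (z j i) :=
      Finset.prod_congr rfl fun j _ => lin_eq11 (z j)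
    rw [h2, h1, Finset.mul_sum]
    refine Finset.sum_congr rfl fun l _ => ?_
    rw [hy l, MvPolynomial.C_mul, nm_map (MvPolynomial.C : K →+* MvPolynomial (Fin M) K) z l]
    ring
  have hassoc : Associated (∏ j, MvPolynomial.sumSMulX (Finsupp.equivFunOnFinite.symm (z j)))
      (∏ j, MvPolynomial.sumSMulX (Finsupp.equivFunOnFinite.symm (z' j))) := by
    have h1 := (key z c hy).trans (key z' c' hy').symm
    have u1 : IsUnit (MvPolynomial.C c : MvPolynomial (Fin M) K) := (isUnit_iff_ne_zero.2 hc).map MvPolynomial.C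
    have u2 : IsUnit (MvPolynomial.C c' : MvPolynomial (Fin M) K) := (isUnit_iff_ne_zero.2 hc').map MvPolynomial.C
    exact (associated_unit_mul_left _ _ u1).symm.trans (h1 ▸ associated_unit_mul_left _ _ u2)
  have hrel := UniqueFactorizationMonoid.factors_unique
    (f := Multiset.map (fun j => MvPolynomial.sumSMulX (Finsupp.equivFunOnFinite.symm (z j))) Finset.univ.val)
    (g := Multiset.map (fun j => MvPolynomial.sumSMulX (Finsupp.equivFunOnFinite.symm (z' j))) Finset.univ.val)
    (fun x hx => by
      obtain ⟨j, -, rfl⟩ := Multiset.mem_map.1 hx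
      exact lin_irr11 (hz j))
    (fun x hx => by
      obtain ⟨j, -, rfl⟩ := Multiset.mem_map.1 hx
      exact lin_irr11 (hz' j)) hassoc
  rw [Associates.rel_associated_iff_map_eq_map, Multiset.map_map, Multiset.map_map] at hrel
  obtain ⟨π, hπ⟩ := perm_of_map11 _ _ hrel
  have h3 : ∀ j, ∃ r : K, r ≠ 0 ∧ ∀ i, z' (π j) i = r * z j i := by
    intro j
    have h4 : Associated (MvPolynomial.sumSMulX (Finsupp.equivFunOnFinite.symm (z j)))
        (MvPolynomial.sumSMulX (Finsupp.equivFunOnFinite.symm (z' (π j)))) :=
      Associates.mk_eq_mk_iff_associated.1 (hπ j).symm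
    obtain ⟨u, hu⟩ := h4
    obtain ⟨r, hr, hru⟩ := MvPolynomial.isUnit_iff_eq_C_of_isReduced.1 u.isUnit
    refine ⟨r, hr.ne_zero, fun i => ?_⟩
    have h5 := congrArg (MvPolynomial.coeff (Finsupp.single i 1)) hu
    rw [hru, mul_comm, MvPolynomial.coeff_C_mul, MvPolynomial.coeff_sumSMulX, MvPolynomial.coeff_sumSMulX] at h5
    exact h5.symm
  choose r hr using h3
  exact ⟨π, r, hr⟩

end Pool.Agent.Helper15.GT
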