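import Mathlib
import Pool.Agent.Helper9.NS
import Pool.Agent.Helper15.GT.RZev
import Pool.Agent.Helper15.GT.Ring
import Pool.Agent.Helper15.GT.Dec
import Pool.Agent.Helper15.GT.Lift

/-!
# GT: the decomposition theorem for Albanese trivial cycles
-/

set_option linter.unusedSectionVars false

namespace Pool.Agent.Helper15.GT

open VC VF Function Pool.Agent.Helper21.TO

universe u

variable {k : Type u} [Field k] [IsAlgClosed k] [CharZero k]

lemma deg_mapDomain {α β : Type*} (f : α → β) (a : α →₀ ℤ) :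
    (a.mapDomain f).sum (fun _ c => c) = a.sum (fun _ c => c) := by
  classical
  exact Finsupp.sum_mapDomain_index (fun _ => rfl) (fun _ _ _ => rfl)

lemma deg_sum_smul {α ι : Type*} (s : Finset ι) (c : ι → ℤ) (a : ι → α →₀ ℤ)
    (h : ∀ i ∈ s, (a i).sum (fun _ c => c) = 0) : (∑ i ∈ s, c i • a i).sum (fun _ c => c) = 0 := by
  classical
  have key : ∀ x : α →₀ ℤ, x.sum (fun _ c => c) = Finsupp.linearCombination ℤ (fun _ : α => (1 : ℤ)) x := by
    intro x
    rw [Finsupp.linearCombination_apply]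
    refine Finsupp.sum_congr fun _ _ => ?_
    rw [smul_eq_mul, mul_one]
  rw [key, map_sum]
  refine Finset.sum_eq_zero fun i hi => ?_
  rw [map_smul, ← key, h i hi, smul_zero]

/-- Albanese trivial cycles of places are stable under restriction along embeddings and integral combinations. -/
lemma AJ.comb {F F' : Type u} [Field F] [Algebra k F] [Field F'] [Algebra k F'] {a : RPl k F →₀ ℤ}
    (ha : AJ k F a) {ι : Type*} (s : Finset ι) (c : ι → ℤ) (f : ι → F' →ₐ[k] F) :
    AJ k F' (∑ i ∈ s, c i • a.mapDomain (fun w => w.comap (f i))) := by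
  refine ⟨deg_sum_smul s c _ fun i _ => ?_, fun K _ _ hK j => ?_⟩
  · rw [deg_mapDomain, ha.1]
  · rw [Finsupp.mapDomain_finset_sum]
    refine AddSubgroup.sum_mem _ fun i _ => ?_
    rw [Finsupp.mapDomain_smul, ← Finsupp.mapDomain_comp]
    refine AddSubgroup.zsmul_mem _ ?_ _
    have e : (RPl.pl hK j ∘ fun w : RPl k F => w.comap (f i)) = RPl.pl hK ((f i).comp j) := by
      funext w
      exact pl_comap hK j w (f i)
    rw [e]
    exact ha.2 K hK _

theorem vpj_dec {F : Type u} [Field F] [Algebra k F] {G : Type u} [Group G] [Finite G]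
    (ρ : G →* (F ≃ₐ[k] F)) {m : ℕ} (Γ : Fin m → Subgroup G)
    (hΓ : Ideal.span (Set.range fun i => eG (Γ i)) = ⊤) (p : Fin m → ℕ)
    (h : ∀ i, VPJ k (IntermediateField.fixedField ((Γ i).map ρ)) (p i)) : VPJ k F (∑ i, p i) := by
  classical
  intro M ξ hξ n hn
  letI : Fintype G := Fintype.ofFinite G
  letI : ∀ i, Fintype (Γ i) := fun i => Fintype.ofFinite _
  have hd : ∀ i, Fintype.card (Γ i) ≤ Fintype.card G := fun i =>
    Fintype.card_le_of_injective (fun x : Γ i => (x : G)) Subtype.coe_injective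
  obtain ⟨D, c, hD, hc⟩ := exists_coeff Γ hΓ
  have hCor : ∀ i, Cor (proj k (van k (fixV ρ ξ (Γ i) (Fintype.card G)))) (proj k (van k ξ))
      (Zc (Γ i) (van k ξ) (Fintype.card G)) := by
    intro i
    have h1 := cor_Zc (k := k) (hd i) (van k ξ) (tr ρ ξ (fun γ : Γ i => (γ : G))) (fun j => by
      intro P hP n hn
      have h2 : P ∈ van k (fun i' => (ρ (j : G)) (ξ i')) := by
        rw [van_aut]
        exact hP
      exact h2)
    rw [← van_fixV ρ ξ (Γ i) (Fintype.card G)] at h1
    exact h1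
  refine voisinOn_dec (S := proj k (van k ξ)) (fun K _ _ hK p => pconst K hK p)
    (X := fun i => proj k (van k (fixV ρ ξ (Γ i) (Fintype.card G))))
    (Z := fun i => Zc (Γ i) (van k ξ) (Fintype.card G)) hCor
    (fun i => {b | ∃ a : RPl k (IntermediateField.fixedField ((Γ i).map ρ)) →₀ ℤ, AJ k _ a ∧
      b = a.mapDomain (evP (fixV ρ ξ (Γ i) (Fintype.card G)) (fixV_ne_zero ρ hξ (Γ i) (hd i)))}) p
    (fun i n' hn' => h i _ (fixV ρ ξ (Γ i) (Fintype.card G)) (fixV_ne_zero ρ hξ (Γ i) (hd i)) n' hn') hn _ ?_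
  rintro b ⟨a, ha, rfl⟩
  set f : ∀ i, G → IntermediateField.fixedField ((Γ i).map ρ) →ₐ[k] F := fun i h =>
    ((ρ h : F ≃ₐ[k] F) : F →ₐ[k] F).comp (IntermediateField.val _) with hf
  refine ⟨D, hD, fun i => (∑ h, c i h • a.mapDomain (fun w => w.comap (f i h))).mapDomain
    (evP (fixV ρ ξ (Γ i) (Fintype.card G)) (fixV_ne_zero ρ hξ (Γ i) (hd i))), fun i =>
      ⟨_, ha.comb _ _ _, rfl⟩, ?_⟩
  set A : G → (proj k (van k ξ)).Cycles := fun g =>
    a.mapDomain (fun w => evP ξ hξ (w.comap ((ρ g : F ≃ₐ[k] F) : F →ₐ[k] F))) with hA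
  have hA1 : A 1 = a.mapDomain (evP ξ hξ) := by
    rw [hA]
    beta_reduce
    congr 1
    funext w
    congr 1
    rw [map_one]
    ext z
    rfl
  have key : ∀ i, Finsupp.linearCombination ℤ (Zc (Γ i) (van k ξ) (Fintype.card G))
      ((∑ h, c i h • a.mapDomain (fun w => w.comap (f i h))).mapDomain
        (evP (fixV ρ ξ (Γ i) (Fintype.card G)) (fixV_ne_zero ρ hξ (Γ i) (hd i)))) =
      ∑ h, c i h • ∑ γ : Γ i, A (h * γ) := by
    intro i
    rw [Finsupp.linearCombination_mapDomain, map_sum]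
    refine Finset.sum_congr rfl fun h _ => ?_
    rw [map_smul, Finsupp.linearCombination_mapDomain]
    congr 1
    have e : ((Zc (Γ i) (van k ξ) (Fintype.card G) ∘
        evP (fixV ρ ξ (Γ i) (Fintype.card G)) (fixV_ne_zero ρ hξ (Γ i) (hd i))) ∘
        fun w : RPl k F => w.comap (f i h)) = fun w => ∑ γ : Γ i,
          Finsupp.single (evP ξ hξ (w.comap ((ρ (h * γ) : F ≃ₐ[k] F) : F →ₐ[k] F))) (1 : ℤ) := by
      funext w
      exact Z_ev ρ hξ (Γ i) (hd i) w h
    rw [e, Finsupp.linearCombination_apply, Finsupp.sum]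
    simp only [Finset.smul_sum]
    rw [Finset.sum_comm]
    refine Finset.sum_congr rfl fun γ _ => ?_
    rw [hA]
    beta_reduce
    rw [Finsupp.mapDomain, Finsupp.sum]
    refine Finset.sum_congr rfl fun w _ => ?_
    rw [Finsupp.smul_single, smul_eq_mul, mul_one]
  have h0 : D • a.mapDomain (evP ξ hξ) - ∑ i, Finsupp.linearCombination ℤ
      (Zc (Γ i) (van k ξ) (Fintype.card G)) ((∑ h, c i h • a.mapDomain (fun w => w.comap (f i h))).mapDomain
        (evP (fixV ρ ξ (Γ i) (Fintype.card G)) (fixV_ne_zero ρ hξ (Γ i) (hd i)))) = 0 := by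
    rw [sub_eq_zero, Finset.sum_congr rfl fun i _ => key i, ← hA1]
    have h1 := congrArg (Finsupp.linearCombination ℤ A) hc
    rw [Finsupp.linearCombination_single, map_sum] at h1
    rw [← natCast_zsmul, ← h1]
    refine Finset.sum_congr rfl fun i _ => ?_
    rw [map_sum]
    refine Finset.sum_congr rfl fun h _ => ?_
    rw [map_smul, map_sum]
    congr 1
    refine Finset.sum_congr rfl fun γ _ => ?_
    rw [Finsupp.linearCombination_single, one_smul]
  rw [h0]
  exact Nul.zero

end Pool.Agent.Helper15.GT
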