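import Mathlib
import Pool.Agent.Helper9.NS
import Pool.Agent.Helper15.GT.RP

/-!
# Block GT-EXTP: extension of places

* `exists_rpl`. Consider the `k`-subalgebras `R` of `F × k` which contain the graph of `θ` and are such that `(0, c) ∈ R` only for
  `c = 0`. The union of a nonempty chain of such subalgebras is one (`zorn_le_nonempty₀` or `zorn_subset_nonempty`,
  `Subalgebra.coe_iSup_of_directed`); let `R` be maximal, `B` its image in `F`: `R` is the graph of a homomorphism
  `θ' : B → k` extending `θ`. It is convenient to work with the relation `(z, c) ∈ R` itself (closed under sums and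
  products, contains all `(a, a)`, `a ∈ k`; `c` is determined by `z`).
  (1) If `(z, c) ∈ R` and `c ≠ 0` then `(z⁻¹, c⁻¹) ∈ R`: the set of all `(x / z ^ n, d / c ^ n)` with `(x, d) ∈ R` is an
  admissible subalgebra (`x / z ^ n = 0` gives `x = 0`, `d = 0`), so it is contained in `R` by maximality.
  (2) Let `m = {z : (z, 0) ∈ R}`. If `z ∈ F` is not in `B` then `1 ∈ m B[z]` i.e. there are `m_i ∈ m` with `1 = ∑_(i ≤ n) m_i z ^ i`. Otherwise
  `m B[z]` is contained in a maximal ideal `n` of `B[z] = Algebra.adjoin k (B ∪ {z})`; `B[z] / n` is a field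
  generated over `k` by the image of `z` (as `B = k + m`), so it is finite over `k` (if the image of `z` were
  transcendental over `k`, `k[z]` would be a field) and equal to `k` as `k` is algebraically closed. So `θ'` extends to `B[z]`,
  contradicting the maximality. Directly: the ideal `J = {P ∈ k[T] : P (z) ∈ m B[z]}` of `k[T]` is proper, so it has a
  zero `e` in `k`; then `P (z) + x ↦ P (e)` (`P ∈ k[T]`, `x ∈ m B[z]`) is well defined.
  (3) For every `z ≠ 0` in `F` we have `z ∈ B` or `z⁻¹ ∈ B`: otherwise `1 = ∑_(i ≤ n) m_i z ^ i` and `1 = ∑_(i ≤ l) m'_i z ^ (-i)`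
  with `n`, `l` minimal, `n ≥ l` say; `1 - m'_0` is a unit of `B` with value 1 (by (1)), so `1 = ∑_(1 ≤ i ≤ l) m''_i z ^ (-i)`; multiply it by
  `m_n z ^ n` and substitute: the degree `n` drops, contradiction (Atiyah-Macdonald, Theorem 5.21).
  So `B` is the ring of a valuation subring `V` of `F`. Its nonunits are `m` (by (1)), and `z - θ' z ∈ m` for `z ∈ B`.
  Alternatively: take a valuation subring dominating (`LocalSubring.exists_le_valuationSubring`), and then, by Zorn, a
  minimal one containing `k` and dominating `A`; or any other argument.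
* `exists_rpl_evP`: `p = ppt a`, `a j ≠ 0`; `exists_homK` (Hom.lean, `K = k`): `χ : Algebra.adjoin k {ξ i / ξ j} → k` with
  `χ (ξ i / ξ j) = a i / a j`. Apply `exists_rpl` to it; `Vl w ξ (fun i => a i / a j)` with `r = 1 / ξ j`, so `evP ξ hξ w = ppt (a / a j) = ppt a`
  (`evP_eq`, `ppt_eq_iff`).
-/

set_option linter.unusedSectionVars false

namespace Pool.Agent.Helper15.GT

open VC VF Function Pool.Agent.Helper21.TO

universe u

private theorem poly_unit46 {k F : Type u} [Field k] [IsAlgClosed k] [Field F] [Algebra k F]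
    (V : ValuationSubring F) (hk : ∀ c : k, algebraMap k F c ∈ V) (s : F)
    (hs : ∀ c : k, c ≠ 0 → s - algebraMap k F c ∉ V.nonunits) (n : ℕ) :
    ∀ r : Polynomial k, r.natDegree ≤ n → r.coeff 0 ≠ 0 → Polynomial.aeval s r ∉ V.nonunits := by
  have hc : ∀ c : k, c ≠ 0 → algebraMap k F c ∉ V.nonunits := by
    intro c hc h
    rw [ValuationSubring.mem_nonunits_iff_or, ← map_inv₀] at h
    rcases h with h | h
    · exact hc ((map_eq_zero_iff _ (algebraMap k F).injective).1 h)
    · exact h (hk _)
  induction n with
  | zero =>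
    intro r hr h0
    rw [Polynomial.eq_C_of_natDegree_le_zero hr, Polynomial.aeval_C]
    exact hc _ h0
  | succ n ih =>
    intro r hr h0
    by_cases hd : r.natDegree = 0
    · rw [Polynomial.eq_C_of_natDegree_eq_zero hd, Polynomial.aeval_C]
      exact hc _ h0
    · have hr0 : r ≠ 0 := by
        rintro rfl
        exact h0 (Polynomial.coeff_zero 0)
      obtain ⟨c, hroot⟩ := IsAlgClosed.exists_root r (by
        intro h
        exact hd (Polynomial.natDegree_eq_of_degree_eq_some h))
      obtain ⟨q, rfl⟩ := Polynomial.dvd_iff_isRoot.2 hroot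
      have hq0 : q ≠ 0 := right_ne_zero_of_mul hr0
      rw [Polynomial.natDegree_mul (Polynomial.X_sub_C_ne_zero c) hq0, Polynomial.natDegree_X_sub_C] at hr
      rw [Polynomial.mul_coeff_zero] at h0
      have h1 : c ≠ 0 := by
        have := left_ne_zero_of_mul h0
        rw [Polynomial.coeff_sub, Polynomial.coeff_X_zero, Polynomial.coeff_C_zero, zero_sub] at this
        exact neg_ne_zero.1 this
      have h2 := ih q (by omega) (right_ne_zero_of_mul h0)
      have h3 := hs c h1
      rw [map_mul, map_sub, Polynomial.aeval_X, Polynomial.aeval_C]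
      rw [ValuationSubring.mem_nonunits_iff, not_lt] at h2 h3 ⊢
      rw [map_mul]
      exact one_le_mul h3 h2

theorem exists_rpl {k F : Type u} [Field k] [IsAlgClosed k] [Field F] [Algebra k F] (A : Subalgebra k F)
    (θ : A →ₐ[k] k) : ∃ w : RPl k F, ∀ a : A, Rs w (a : F) (θ a) := by
  classical
  -- the valuation rings which contain `k` and in which the kernel of `θ` consists of nonunits
  obtain ⟨T, hT⟩ : ∃ T : Set (ValuationSubring F)ᵒᵈ, T = {V | (∀ c : k, algebraMap k F c ∈ OrderDual.ofDual V) ∧
      ∀ a : A, θ a = 0 → (a : F) ∈ (OrderDual.ofDual V).nonunits} := ⟨_, rfl⟩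
  have hne : ∃ V, V ∈ T := by
    obtain ⟨V, h1, h2⟩ := Ideal.image_subset_nonunits_valuationSubring (A := A.toSubring)
      (RingHom.ker (θ : A →+* k)) (RingHom.ker_ne_top _)
    refine ⟨OrderDual.toDual V, ?_⟩
    rw [hT]
    refine ⟨fun c => h1 (A.algebraMap_mem c), fun a ha => h2 ⟨a, ?_, rfl⟩⟩
    exact ha
  obtain ⟨V₀, hV₀⟩ := hne
  obtain ⟨V', -, hmax⟩ := zorn_le_nonempty₀ T (by
    intro c hcT hc y hy
    let W : ValuationSubring F :=
      { toSubring := ⨅ V : c, (OrderDual.ofDual V.1).toSubring
        mem_or_inv_mem' := by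
          intro x
          change x ∈ (⨅ V : c, (OrderDual.ofDual V.1).toSubring) ∨ x⁻¹ ∈ (⨅ V : c, (OrderDual.ofDual V.1).toSubring)
          rw [Subring.mem_iInf, Subring.mem_iInf]
          by_contra hcon
          push Not at hcon
          obtain ⟨⟨V₁, h1⟩, ⟨V₂, h2⟩⟩ := hcon
          rcases hc.total V₁.2 V₂.2 with h | h
          · -- `V₂ ≤ V₁` as rings
            have h' : OrderDual.ofDual V₂.1 ≤ OrderDual.ofDual V₁.1 := h
            rcases (OrderDual.ofDual V₂.1).mem_or_inv_mem x with h3 | h3
            · exact h1 (h' h3)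
            · exact h2 h3
          · have h' : OrderDual.ofDual V₁.1 ≤ OrderDual.ofDual V₂.1 := h
            rcases (OrderDual.ofDual V₁.1).mem_or_inv_mem x with h3 | h3
            · exact h1 h3
            · exact h2 (h' h3) }
    have hW : ∀ x : F, x ∈ W ↔ ∀ V : c, x ∈ OrderDual.ofDual V.1 := by
      intro x
      change x ∈ (⨅ V : c, (OrderDual.ofDual V.1).toSubring) ↔ _
      rw [Subring.mem_iInf]
      rfl
    refine ⟨OrderDual.toDual W, ?_, ?_⟩
    · rw [hT]
      refine ⟨fun c' => ?_, fun a ha => ?_⟩
      · change algebraMap k F c' ∈ W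
        rw [hW]
        intro V
        have := hcT V.2
        rw [hT] at this
        exact this.1 c'
      · change (a : F) ∈ W.nonunits
        rw [ValuationSubring.mem_nonunits_iff_or]
        by_cases h0 : (a : F) = 0
        · exact Or.inl h0
        · right
          intro h1
          have h2 := (hW _).1 h1 ⟨y, hy⟩
          have h3 := hcT hy
          rw [hT] at h3
          have h4 := h3.2 a ha
          rw [ValuationSubring.mem_nonunits_iff_or] at h4
          rcases h4 with h4 | h4
          · exact h0 h4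
          · exact h4 h2
    · intro z hz
      change W ≤ OrderDual.ofDual z
      intro x hx
      exact (hW x).1 hx ⟨z, hz⟩) V₀ hV₀
  obtain ⟨V, hV⟩ : ∃ V : ValuationSubring F, V = OrderDual.ofDual V' := ⟨_, rfl⟩
  have hVT := hmax.prop
  rw [hT] at hVT
  obtain ⟨hk, hA⟩ := hVT
  rw [← hV] at hk hA
  have hmin : ∀ W : ValuationSubring F, (∀ c : k, algebraMap k F c ∈ W) →
      (∀ a : A, θ a = 0 → (a : F) ∈ W.nonunits) → W ≤ V → V ≤ W := by
    intro W h1 h2 h3
    have h4 : OrderDual.toDual W ∈ T := by
      rw [hT]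
      exact ⟨h1, h2⟩
    have h5 : V' ≤ OrderDual.toDual W := by
      change W ≤ OrderDual.ofDual V'
      rw [← hV]
      exact h3
    have h6 : OrderDual.toDual W ≤ V' := hmax.le_of_ge h4 h5
    rw [hV]
    exact h6
  have hres : ∀ z ∈ V, ∃ c : k, z - algebraMap k F c ∈ V.nonunits := by
    intro t ht
    by_contra hcon
    push Not at hcon
    have ht0 : t ≠ 0 := by
      rintro rfl
      refine hcon 0 ?_
      rw [map_zero, sub_zero]
      exact V.nonunits.zero_mem
    have htn : t ∉ V.nonunits := by
      have := hcon 0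
      rwa [map_zero, sub_zero] at this
    have hti : t⁻¹ ∈ V := by
      rw [ValuationSubring.mem_nonunits_iff_or] at htn
      push Not at htn
      exact htn.2
    have htin : t⁻¹ ∉ V.nonunits := by
      rw [ValuationSubring.inv_mem_nonunits_iff]
      push Not
      exact ⟨ht0, ht⟩
    have hpol : ∀ r : Polynomial k, r.coeff 0 ≠ 0 → Polynomial.aeval t⁻¹ r ∉ V.nonunits := by
      intro r hr
      refine poly_unit46 V hk t⁻¹ ?_ r.natDegree r le_rfl hr
      intro c hc h
      have e : t⁻¹ - algebraMap k F c = t⁻¹ * (algebraMap k F (-c) * (t - algebraMap k F c⁻¹)) := by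
        rw [mul_sub, mul_sub, ← map_mul, neg_mul, mul_inv_cancel₀ hc, map_neg, map_neg, map_one]
        field_simp
        ring
      rw [e, ValuationSubring.mem_nonunits_iff, map_mul, map_mul, ← not_le] at h
      apply h
      have h1 : 1 ≤ V.valuation t⁻¹ := by
        rw [ValuationSubring.mem_nonunits_iff, not_lt] at htin
        exact htin
      have h2 : 1 ≤ V.valuation (algebraMap k F (-c)) := by
        have h3 : algebraMap k F (-c) ∉ V.nonunits := by
          intro h
          rw [ValuationSubring.mem_nonunits_iff_or, ← map_inv₀] at h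
          rcases h with h | h
          · exact (neg_ne_zero.2 hc) ((map_eq_zero_iff _ (algebraMap k F).injective).1 h)
          · exact h (hk _)
        rw [ValuationSubring.mem_nonunits_iff, not_lt] at h3
        exact h3
      have h3 : 1 ≤ V.valuation (t - algebraMap k F c⁻¹) := by
        have := hcon c⁻¹
        rw [ValuationSubring.mem_nonunits_iff, not_lt] at this
        exact this
      exact one_le_mul h1 (one_le_mul h2 h3)
    have haev : ∀ p : Polynomial k, Polynomial.aeval t⁻¹ p ∈ V := by
      intro p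
      rw [Polynomial.aeval_eq_sum_range]
      refine V.toSubring.sum_mem fun i _ => ?_
      rw [Algebra.smul_def]
      exact V.mul_mem _ _ (hk _) (V.toSubring.pow_mem hti i)
    have hmul : ∀ x y : F, x ∈ V → y ∈ V.nonunits → x * y ∈ V.nonunits := by
      intro x y hx hy
      exact nonunits_mul hx hy
    have hadd : ∀ x y : F, x ∈ V.nonunits → y ∈ V.nonunits → x + y ∈ V.nonunits := fun x y hx hy =>
      V.nonunits.add_mem hx hy
    have hsub : ∀ x : F, x ∈ V.nonunits → x ∈ V := fun x hx => V.nonunits_subset hx
    -- the ring `k[1/t] + m`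
    let B : Subring F :=
      { carrier := {z | ∃ p : Polynomial k, z - Polynomial.aeval t⁻¹ p ∈ V.nonunits}
        mul_mem' := by
          rintro x y ⟨p, hp⟩ ⟨q, hq⟩
          refine ⟨p * q, ?_⟩
          have hy : y ∈ V := by
            have := V.add_mem _ _ (hsub _ hq) (haev q)
            rwa [sub_add_cancel] at this
          have e : x * y - Polynomial.aeval t⁻¹ (p * q) = y * (x - Polynomial.aeval t⁻¹ p) +
              Polynomial.aeval t⁻¹ p * (y - Polynomial.aeval t⁻¹ q) := by
            rw [map_mul]
            ring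
          rw [e]
          exact hadd _ _ (hmul _ _ hy hp) (hmul _ _ (haev p) hq)
        one_mem' := ⟨1, by rw [map_one, sub_self]; exact V.nonunits.zero_mem⟩
        add_mem' := by
          rintro x y ⟨p, hp⟩ ⟨q, hq⟩
          refine ⟨p + q, ?_⟩
          rw [map_add, add_sub_add_comm]
          exact hadd _ _ hp hq
        zero_mem' := ⟨0, by rw [map_zero, sub_self]; exact V.nonunits.zero_mem⟩
        neg_mem' := by
          rintro x ⟨p, hp⟩
          refine ⟨-p, ?_⟩
          rw [map_neg, neg_sub_neg, ← neg_sub]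
          exact V.nonunits.neg_mem hp }
    let I : Ideal B :=
      { carrier := {z | ∃ p : Polynomial k, p.coeff 0 = 0 ∧ (z : F) - Polynomial.aeval t⁻¹ p ∈ V.nonunits}
        add_mem' := by
          rintro x y ⟨p, hp0, hp⟩ ⟨q, hq0, hq⟩
          refine ⟨p + q, by rw [Polynomial.coeff_add, hp0, hq0, add_zero], ?_⟩
          rw [map_add, Subring.coe_add, add_sub_add_comm]
          exact hadd _ _ hp hq
        zero_mem' := ⟨0, Polynomial.coeff_zero 0, by
          rw [map_zero, sub_zero]
          exact V.nonunits.zero_mem⟩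
        smul_mem' := by
          rintro ⟨r, q, hq⟩ x ⟨p, hp0, hp⟩
          refine ⟨q * p, by rw [Polynomial.mul_coeff_zero, hp0, mul_zero], ?_⟩
          have hr : r ∈ V := by
            have := V.add_mem _ _ (hsub _ hq) (haev q)
            rwa [sub_add_cancel] at this
          have e : r * (x : F) - Polynomial.aeval t⁻¹ (q * p) = r * ((x : F) - Polynomial.aeval t⁻¹ p) +
              Polynomial.aeval t⁻¹ p * (r - Polynomial.aeval t⁻¹ q) := by
            rw [map_mul]
            ring
          change r * (x : F) - Polynomial.aeval t⁻¹ (q * p) ∈ V.nonunits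
          rw [e]
          exact hadd _ _ (hmul _ _ hr hp) (hmul _ _ (haev p) hq) }
    have hI : I ≠ ⊤ := by
      intro h
      rw [Ideal.eq_top_iff_one] at h
      obtain ⟨p, hp0, hp⟩ := h
      refine hpol (1 - p) ?_ ?_
      · rw [Polynomial.coeff_sub, hp0, Polynomial.coeff_one_zero, sub_zero]
        exact one_ne_zero
      · rw [map_sub, map_one]
        exact hp
    obtain ⟨W, hW1, hW2⟩ := Ideal.image_subset_nonunits_valuationSubring I hI
    have hnu : ∀ x : F, x ∈ V.nonunits → x ∈ W.nonunits := by
      intro x hx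
      have hxB : x ∈ B := ⟨0, by rw [map_zero, sub_zero]; exact hx⟩
      exact hW2 ⟨⟨x, hxB⟩, ⟨0, Polynomial.coeff_zero 0, by rw [map_zero, sub_zero]; exact hx⟩, rfl⟩
    have hWV : W ≤ V := ValuationSubring.nonunits_le_nonunits.1 hnu
    have hVW := hmin W (fun c => hW1 ⟨Polynomial.C c, by
      rw [Polynomial.aeval_C, sub_self]
      exact V.nonunits.zero_mem⟩) (fun a ha => hnu _ (hA a ha)) hWV
    have htB : t⁻¹ ∈ B := ⟨Polynomial.X, by
      rw [Polynomial.aeval_X, sub_self]
      exact V.nonunits.zero_mem⟩
    have htI : t⁻¹ ∈ W.nonunits := hW2 ⟨⟨t⁻¹, htB⟩, ⟨Polynomial.X, Polynomial.coeff_X_zero, by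
      rw [Polynomial.aeval_X, sub_self]
      exact V.nonunits.zero_mem⟩, rfl⟩
    rw [ValuationSubring.inv_mem_nonunits_iff] at htI
    rcases htI with h | h
    · exact ht0 h
    · exact h (hVW ht)
  refine ⟨⟨V, hk, hres⟩, fun a => ?_⟩
  have h1 := hA (a - algebraMap k A (θ a)) (by
    rw [map_sub, AlgHom.commutes]
    exact sub_self _)
  exact h1

end Pool.Agent.Helper15.GT
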