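import Mathlib
import Pool.Agent.Helper9.NS
import Pool.Agent.Helper15.GT.ExtP
import Pool.Agent.Helper15.GT.Hom

/-!
# Block GT-EXTQ: every point of the closure is the center of a rational place

`p = ppt a` (`exists_ppt`), `a j ≠ 0`; `exists_homK` (Hom.lean, `K = k`): `χ : Algebra.adjoin k {ξ i / ξ j} → k` with
`χ (ξ i / ξ j) = a i / a j`. Apply `exists_rpl` to it; `Vl w ξ (fun i => a i / a j)` with `r = 1 / ξ j`, so
`evP ξ hξ w = ppt (a / a j) = ppt a` (`evP_eq`, `ppt_eq_iff`).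
-/

set_option linter.unusedSectionVars false

namespace Pool.Agent.Helper15.GT

open VC VF Function Pool.Agent.Helper21.TO

universe u

theorem exists_rpl_evP {k F : Type u} [Field k] [IsAlgClosed k] [CharZero k] [Field F] [Algebra k F] {M : ℕ}
    (ξ : Fin M → F) (hξ : ξ ≠ 0) (p : (proj k (van k ξ)).Pt) : ∃ w : RPl k F, evP ξ hξ w = p := by
  obtain ⟨a, ha, hs, rfl⟩ := exists_ppt (I := van k ξ) p
  obtain ⟨j, hj⟩ := Function.ne_iff.mp ha
  have hj' : a j ≠ 0 := hj
  obtain ⟨hξj, χ, hχ⟩ := exists_homK ξ a hs j hj'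
  obtain ⟨w, hw⟩ := exists_rpl (Algebra.adjoin k (Set.range fun i => ξ i / ξ j)) χ
  refine ⟨w, ?_⟩
  have hv : Vl w ξ (fun i => a i / a j) := by
    refine ⟨?_, (ξ j)⁻¹, fun i => ?_⟩
    · intro h0
      have h1 := congrFun h0 j
      change a j / a j = 0 at h1
      rw [div_self hj'] at h1
      exact one_ne_zero h1
    · have hi : ξ i / ξ j ∈ Algebra.adjoin k (Set.range fun i => ξ i / ξ j) :=
        Algebra.subset_adjoin ⟨i, rfl⟩
      have h1 := hw ⟨ξ i / ξ j, hi⟩
      rw [hχ i hi] at h1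
      rwa [inv_mul_eq_div]
  have hv' : Vl w ξ a := by
    have h1 := hv.smul hj'
    have h2 : (fun i => a j * (a i / a j)) = a := by
      funext i
      exact mul_div_cancel₀ (a i) hj'
    rwa [h2] at h1
  exact evP_eq hξ hv' ha hs

end Pool.Agent.Helper15.GT
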