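import Mathlib
import Pool.Agent.Helper9.NS
import Pool.Agent.Helper15.GT.RDefs
import Pool.Agent.Helper15.GT.ExtQ
import Pool.Agent.Helper15.GT.GZ

/-!
# Block GT-RFIN: Voisin's property for cycles on a projective model

For every point `s` of `S` choose a rational place `w s` with center `s` (`exists_rpl_evP`), and let `a' l = (a l).mapDomain w`, so
`(a' l).mapDomain (evP ξ hξ) = a l` (`Finsupp.mapDomain_comp`, `mapDomain_id`). `AJ k F (a' l)`: the degree is the degree of `a l`
(`Finsupp.sum_mapDomain_index`). For `K`, `j`: if the genus is zero use `mem_rat_of_genus_zero`. Otherwise there is `π`, and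
`RPl.pl hK j (w s) = π s`: the ring of `π s` is contained in the one of `RPl.pl hK j (w s)`, because for `f ∈ (π s).ring` we have
`j f * B (ξ) = A (ξ)`, `B (s) ≠ 0`; with `Vl (w s) ξ b`, `r` (`exists_evP`; `b` is proportional to `s.1.rep`) `B (r ξ) = r ^ n B (ξ)` has the
value `B (b) ≠ 0` and `A (r ξ)` the value `A (b)`, so `j f = A (r ξ) / B (r ξ)` is regular at `w s` (`Rs.div`, `aeval_smul'`);
two places with one ring contained in the other are equal (`FF.place_eq_of_le hK`). So
`(a' l).mapDomain (RPl.pl hK j) = (a l).mapDomain π ∈ Rat`.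
-/

set_option linter.unusedSectionVars false

namespace Pool.Agent.Helper15.GT

open VC VF Function Pool.Agent.Helper21.TO

universe u

/-- `π` is a morphism from the closure `S` of the point `ξ` to the curve with function field `K`, which is
embedded in `F` by `j`: every function `f` on the curve which is regular at `π s` is a quotient `A / B` of two
forms of the same degree, with `B (s) ≠ 0`, and `f (π s) = A (s) / B (s)`. -/
def IsMor {k F K : Type u} [Field k] [Field F] [Algebra k F] [Field K] [Algebra k K] {M : ℕ} (j : K →ₐ[k] F)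
    (ξ : Fin M → F) (π : PPt k k (van k ξ) → Place k K) : Prop :=
  ∀ (s : PPt k k (van k ξ)) (f : K), f ∈ (π s).ring → ∃ (n : ℕ) (A B : MvPolynomial (Fin M) k),
    A.IsHomogeneous n ∧ B.IsHomogeneous n ∧ MvPolynomial.aeval s.1.rep B ≠ 0 ∧
    j f * MvPolynomial.aeval ξ B = MvPolynomial.aeval ξ A ∧
    IsRes (π s) f (MvPolynomial.aeval s.1.rep A / MvPolynomial.aeval s.1.rep B)

/-- The coordinates of the center. -/
private lemma vl_rep_h82 {k F : Type u} [Field k] [IsAlgClosed k] [CharZero k] [Field F] [Algebra k F] {M : ℕ}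
    (ξ : Fin M → F) (hξ : ξ ≠ 0) (w : RPl k F) : Vl w ξ (evP ξ hξ w).1.rep := by
  obtain ⟨b, hb, hs, hv, he⟩ := exists_evP ξ hξ w
  rw [he]
  obtain ⟨c, hc⟩ := Projectivization.exists_smul_eq_mk_rep k b hb
  change Vl w ξ (Projectivization.mk k b hb).rep
  rw [← hc]
  have h1 := hv.smul (c := (c : k)) c.ne_zero
  exact h1

/-- The place of the curve given by a place of `F` and a morphism. -/
private lemma pl_eq_h82 {k F K : Type u} [Field k] [IsAlgClosed k] [CharZero k] [Field F] [Algebra k F]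
    [Field K] [Algebra k K] (hK : IsFunctionField k K) {M : ℕ} {j : K →ₐ[k] F} {ξ : Fin M → F} (hξ : ξ ≠ 0)
    {π : PPt k k (van k ξ) → Place k K} (hπ : IsMor j ξ π) (w : RPl k F) :
    RPl.pl hK j w = π (evP ξ hξ w) := by
  symm
  apply FF.place_eq_of_le hK
  intro f hf
  obtain ⟨n, A, B, hA, hB, hB0, hjf, -⟩ := hπ _ f hf
  obtain ⟨hb, r, hr⟩ := vl_rep_h82 ξ hξ w
  have hBr := rs_mvaeval hr B
  have hAr := rs_mvaeval hr A
  rw [aeval_smul' hB] at hBr
  rw [aeval_smul' hA] at hAr
  have hne : r ^ n * MvPolynomial.aeval ξ B ≠ 0 := (hBr.inv_mem hB0).1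
  have h1 := hAr.div hBr hB0
  have h2 : r ^ n * MvPolynomial.aeval ξ A / (r ^ n * MvPolynomial.aeval ξ B) = j f := by
    rw [div_eq_iff hne, ← hjf]
    ring
  rw [h2] at h1
  exact h1.mem

theorem vpj_apply {k F : Type u} [Field k] [IsAlgClosed k] [CharZero k] [Field F] [Algebra k F] {p : ℕ}
    (h : VPJ k F p) {M : ℕ} (ξ : Fin M → F) (hξ : ξ ≠ 0) {n : ℕ} (hn : p < n)
    (a : Fin n → (proj k (van k ξ)).Cycles) (ha0 : ∀ l, (a l).sum (fun _ c => c) = 0)
    (haJ : ∀ (K : Type u) [Field K] [Algebra k K] (hK : IsFunctionField k K) (j : K →ₐ[k] F),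
      ¬ IsGenus k K 0 → ∃ π : PPt k k (van k ξ) → Place k K, IsMor j ξ π ∧
        ∀ l, (a l).mapDomain π ∈ (curve hK).Rat) :
    ∃ m : ℕ, 0 < m ∧ m • ∑ σ : Equiv.Perm (Fin n), ((Equiv.Perm.sign σ : ℤˣ) : ℤ) •
      extProd (fun i => a (σ i)) ∈ ((proj k (van k ξ)).pow n).Rat := by
  classical
  choose w hw using fun s => exists_rpl_evP (k := k) ξ hξ s
  have hdeg : ∀ l, ((a l).mapDomain w).sum (fun _ c => c) = 0 := by
    intro l
    rw [Finsupp.sum_mapDomain_index (fun _ => rfl) (fun _ _ _ => rfl)]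
    exact ha0 l
  refine h M ξ hξ n hn a fun l => ⟨(a l).mapDomain w, ⟨hdeg l, ?_⟩, ?_⟩
  · intro K _ _ hK j
    by_cases hg : IsGenus k K 0
    · apply mem_rat_of_genus_zero hK hg
      rw [Finsupp.sum_mapDomain_index (fun _ => rfl) (fun _ _ _ => rfl)]
      exact hdeg l
    · obtain ⟨π, hπ, hπa⟩ := haJ K hK j hg
      have h1 : ((a l).mapDomain w).mapDomain (RPl.pl hK j) = (a l).mapDomain π := by
        rw [← Finsupp.mapDomain_comp]
        refine Finsupp.mapDomain_congr fun s _ => ?_
        change RPl.pl hK j (w s) = π s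
        rw [pl_eq_h82 hK hξ hπ (w s), hw s]
      rw [h1]
      exact hπa l
  · rw [← Finsupp.mapDomain_comp]
    have h2 : evP ξ hξ ∘ w = id := funext hw
    rw [h2]
    exact Finsupp.mapDomain_id.symm

end Pool.Agent.Helper15.GT
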