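import Mathlib
import Pool.Agent.Helper9.NS
import Pool.Agent.Helper15.GT.Move
import Pool.Agent.Helper21.TO.ExtCongr

/-!
# GT: ruled surfaces

Functionals on a model of a ruled surface come from the base.
-/

set_option linter.unusedSectionVars false

namespace Pool.Agent.Helper15.GT

open VC VF Function Polynomial Pool.Agent.Helper21.TO Pool.Agent.Helper21.TB
open Pool.Agent.Helper51.VN (Harm)

universe u

variable {k F K : Type u} [Field k] [IsAlgClosed k] [CharZero k] [Field F] [Algebra k F] [Field K]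
  [Algebra k K]

/-! ### Rational curves -/

/-- A functional which kills the cycles rationally equivalent to zero is constant on a rational curve. -/
lemma rat_const {M : ℕ} {I : Set (MvPolynomial (Fin M) k)} {φ : (proj k I).Pt → k} (hφ : Kills (proj k I) φ)
    (p : Fin M → k[X]) (hp : ∀ P ∈ I, ∀ n, P.IsHomogeneous n → MvPolynomial.aeval p P = 0) {μ μ' : k}
    (hμ : (fun i => (p i).eval μ) ≠ 0) (hs : Sat I (fun i => (p i).eval μ))
    (hμ' : (fun i => (p i).eval μ') ≠ 0) (hs' : Sat I (fun i => (p i).eval μ')) :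
    φ (ppt _ hμ hs) = φ (ppt _ hμ' hs') := by
  by_cases h : μ = μ'
  · subst h
    rfl
  have hτ : Transcendental k (RatFunc.X : RatFunc k) := transcendental_ratX
  have hne : (fun i => aeval (RatFunc.X : RatFunc k) (p i)) ≠ 0 := by
    intro h0
    apply hμ
    funext i
    have h1 : aeval (RatFunc.X : RatFunc k) (p i) = 0 := congrFun h0 i
    have h2 : p i = 0 := by
      by_contra h3
      exact hτ ⟨_, h3, h1⟩
    rw [h2, eval_zero]
    rfl
  have hsat : Sat I (fun i => aeval (RatFunc.X : RatFunc k) (p i)) := by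
    intro P hP n hn
    have h1 := MvPolynomial.comp_aeval_apply (R := k) p (aeval (RatFunc.X : RatFunc k)) P
    rw [hp P hP n hn, map_zero] at h1
    exact h1.symm
  have key : ∀ (ν : k) (hν : (fun i => (p i).eval ν) ≠ 0) (hsν : Sat I (fun i => (p i).eval ν))
      (w : Place k (RatFunc k)), IsRes w (RatFunc.X : RatFunc k) ν →
      φ ((proj k I).eval ff_ratFunc (ppt _ hne hsat) w) = φ (ppt _ hν hsν) := by
    intro ν hν hsν w hw
    congr 1
    refine peval_eq ff_ratFunc w hne hsat hν hsν fun i => ?_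
    exact hw.poly
  exact path hφ ff_ratFunc (ppt _ hne hsat) hτ h (key μ hμ hs) (key μ' hμ' hs')

/-! ### Reduction of polynomials -/

/-- The polynomial `q` is the reduction of `p` at the place `Q`. -/
def RelP (Q : Place k K) (p : K[X]) (q : k[X]) : Prop := ∀ n, IsRes Q (p.coeff n) (q.coeff n)

omit [IsAlgClosed k] [CharZero k] in
lemma RelP.unique {Q : Place k K} {p : K[X]} {q q' : k[X]} (h : RelP Q p q) (h' : RelP Q p q') : q = q' := by
  ext n
  exact (h n).unique (h' n)

omit [IsAlgClosed k] [CharZero k] in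
lemma RelP.add {Q : Place k K} {p p' : K[X]} {q q' : k[X]} (h : RelP Q p q) (h' : RelP Q p' q') :
    RelP Q (p + p') (q + q') := by
  intro n
  rw [coeff_add, coeff_add]
  exact (h n).add (h' n)

omit [IsAlgClosed k] [CharZero k] in
lemma RelP.mul {Q : Place k K} {p p' : K[X]} {q q' : k[X]} (h : RelP Q p q) (h' : RelP Q p' q') :
    RelP Q (p * p') (q * q') := by
  intro n
  rw [coeff_mul, coeff_mul]
  exact IsRes.sum _ fun x _ => (h x.1).mul (h' x.2)

omit [IsAlgClosed k] [CharZero k] in
lemma relP_C (Q : Place k K) (c : k) : RelP Q (C (algebraMap k K c)) (C c) := by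
  intro n
  rw [coeff_C, coeff_C]
  split_ifs
  · exact isRes_const c
  · exact isRes_zero

omit [IsAlgClosed k] [CharZero k] in
lemma relP_zero (Q : Place k K) : RelP Q (0 : K[X]) (0 : k[X]) := by
  intro n
  rw [coeff_zero, coeff_zero]
  exact isRes_zero

omit [IsAlgClosed k] [CharZero k] in
lemma RelP.mvaeval {Q : Place k K} {M : ℕ} {p : Fin M → K[X]} {q : Fin M → k[X]} (h : ∀ i, RelP Q (p i) (q i))
    (P : MvPolynomial (Fin M) k) : RelP Q (MvPolynomial.aeval p P) (MvPolynomial.aeval q P) := by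
  induction P using MvPolynomial.induction_on with
  | C a =>
    rw [MvPolynomial.algHom_C, MvPolynomial.algHom_C]
    exact relP_C Q a
  | add p q hp hq => rw [map_add, map_add]; exact hp.add hq
  | mul_X p i hp =>
    rw [map_mul, map_mul, MvPolynomial.aeval_X, MvPolynomial.aeval_X]
    exact hp.mul (h i)

lemma exists_relP {Q : Place k K} {hK : IsFunctionField k K} (p : K[X])
    (h : ∀ n, p.coeff n ∈ Q.ring) : ∃ q, RelP Q p q := by
  choose f hf using fun n => exists_res hK (h n)
  refine ⟨∑ n ∈ Finset.range (p.natDegree + 1), C (f n) * X ^ n, fun n => ?_⟩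
  rw [finsetSum_coeff]
  simp only [coeff_C_mul, coeff_X_pow, mul_ite, mul_one, mul_zero, Finset.sum_ite_eq, Finset.mem_range]
  split_ifs with hn
  · exact hf n
  · rw [coeff_eq_zero_of_natDegree_lt (by omega)]
    exact isRes_zero

omit [IsAlgClosed k] [CharZero k] in
/-- The value of a polynomial at a rational place. -/
lemma RelP.rs {w : RPl k F} {hK : IsFunctionField k K} {κ : K →ₐ[k] F} {p : K[X]} {q : k[X]}
    (h : RelP (w.pl hK κ) p q) {x : F} {c : k} (hx : Rs w x c) : Rs w (p.eval₂ (κ : K →+* F) x) (q.eval c) := by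
  have hpow : ∀ n : ℕ, Rs w (x ^ n) (c ^ n) := by
    intro n
    induction n with
    | zero => rw [pow_zero, pow_zero]; exact rs_one
    | succ n ih => rw [pow_succ, pow_succ]; exact ih.mul hx
  rw [eval₂_eq_sum_range' (κ : K →+* F) (n := max p.natDegree q.natDegree + 1) (by omega) x,
    eval_eq_sum_range' (n := max p.natDegree q.natDegree + 1) (by omega) c]
  exact Rs.sum _ fun n _ => ((isRes_pl hK κ w _ _).mp (h n)).mul (hpow n)

omit [IsAlgClosed k] [CharZero k] in
/-- The value of a polynomial at a constant. -/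
lemma RelP.res {Q : Place k K} {p : K[X]} {q : k[X]} (h : RelP Q p q) (c : k) :
    IsRes Q (p.eval (algebraMap k K c)) (q.eval c) := by
  have hpow : ∀ n : ℕ, IsRes Q (algebraMap k K c ^ n) (c ^ n) := by
    intro n
    rw [← map_pow]
    exact isRes_const _
  rw [eval_eq_sum_range' (n := max p.natDegree q.natDegree + 1) (by omega) (algebraMap k K c),
    eval_eq_sum_range' (n := max p.natDegree q.natDegree + 1) (by omega) c]
  exact IsRes.sum _ fun n _ => (h n).mul (hpow n)

/-! ### The functional comes from the base -/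

theorem ruled_base (hK : IsFunctionField k K) (κ : K →ₐ[k] F) (x : F)
    (htr : ∀ p : K[X], p.eval₂ (κ : K →+* F) x = 0 → p = 0)
    (hgen : ∀ z : F, ∃ p q : K[X], q.eval₂ (κ : K →+* F) x ≠ 0 ∧
      z * q.eval₂ (κ : K →+* F) x = p.eval₂ (κ : K →+* F) x)
    {M : ℕ} (ξ : Fin M → F) (hξ : ξ ≠ 0) {φ : (proj k (van k ξ)).Pt → k}
    (hφ : Kills (proj k (van k ξ)) φ) :
    ∃ l : Place k K → k, Harm hK l ∧ ∀ w : RPl k F, φ (evP ξ hξ w) = l (w.pl hK κ) := by
  classical
  -- common denominator
  choose p₀ q₀ hq₀ hpq using fun i => hgen (ξ i)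
  set E : K[X] →+* F := eval₂RingHom (κ : K →+* F) x with hE
  have hEe : ∀ p, E p = p.eval₂ (κ : K →+* F) x := fun p => rfl
  have hEinj : ∀ p, E p = 0 → p = 0 := htr
  set c : F := ∏ i, E (q₀ i) with hcdef
  have hc : c ≠ 0 := Finset.prod_ne_zero_iff.mpr fun i _ => hq₀ i
  set p : Fin M → K[X] := fun i => p₀ i * ∏ i' ∈ Finset.univ.erase i, q₀ i' with hp
  have hcp : ∀ i, c * ξ i = E (p i) := by
    intro i
    rw [hp]
    beta_reduce
    rw [map_mul, map_prod, hEe (p₀ i), ← hpq i, ← hEe, hcdef, ← Finset.mul_prod_erase Finset.univ _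
      (Finset.mem_univ i)]
    ring
  obtain ⟨i0, hi0⟩ := Function.ne_iff.mp hξ
  have hi0' : ξ i0 ≠ 0 := hi0
  have hpi0 : p i0 ≠ 0 := by
    intro h0
    have h1 := hcp i0
    rw [h0, map_zero] at h1
    exact (mul_ne_zero hc hi0') h1
  -- the forms vanish at `p`
  have hvan : ∀ P ∈ van k ξ, ∀ n, P.IsHomogeneous n → MvPolynomial.aeval p P = 0 := by
    intro P hP n hn
    apply hEinj
    have h1 : MvPolynomial.aeval ξ P = 0 := hP
    have h2 : MvPolynomial.aeval (fun i => c * ξ i) P = 0 := by rw [aeval_smul' hn, h1, mul_zero]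
    let E' : K[X] →ₐ[k] F := { E with
      commutes' := fun r => by
        change E (algebraMap k K[X] r) = _
        rw [hEe, IsScalarTower.algebraMap_apply k K K[X], Polynomial.algebraMap_eq, eval₂_C]
        exact κ.commutes r }
    have h3 := MvPolynomial.comp_aeval_apply (R := k) p E' P
    have h4 : (fun i => E' (p i)) = fun i => c * ξ i := funext fun i => (hcp i).symm
    rw [h4, h2] at h3
    exact h3
  -- the section
  obtain ⟨t0, ht0⟩ : ∃ t0 : k, (p i0).eval (algebraMap k K t0) ≠ 0 := by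
    by_contra hcon
    push Not at hcon
    have h1 : Set.Infinite (Set.range (algebraMap k K)) :=
      Set.infinite_range_of_injective (algebraMap k K).injective
    exact hpi0 (eq_zero_of_infinite_isRoot _ (h1.mono (by rintro _ ⟨t, rfl⟩; exact hcon t)))
  set s : Fin M → K := fun i => (p i).eval (algebraMap k K t0) with hs
  have hs0 : s ≠ 0 := fun h0 => ht0 (congrFun h0 i0)
  have hss : Sat (van k ξ) s := by
    intro P hP n hn
    have h3 := MvPolynomial.comp_aeval_apply (R := k) p
      ((Polynomial.aeval (algebraMap k K t0)).restrictScalars k : K[X] →ₐ[k] K) P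
    rw [hvan P hP n hn, map_zero] at h3
    have h4 : (fun i => ((Polynomial.aeval (algebraMap k K t0)).restrictScalars k : K[X] →ₐ[k] K) (p i)) = s := by
      funext i
      change Polynomial.aeval (algebraMap k K t0) (p i) = (p i).eval (algebraMap k K t0)
      rw [Polynomial.coe_aeval_eq_eval]
    rw [h4] at h3
    exact h3.symm
  refine ⟨fun Q => φ ((proj k (van k ξ)).eval hK (ppt s hs0 hss) Q), harm_kills hφ hK _, fun w => ?_⟩
  refine moving hK κ ξ hξ hφ (harm_kills hφ hK (ppt s hs0 hss))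
    (({x, (E (p i0))⁻¹, κ (s i0)⁻¹} : Set F) ∪ ⋃ i : Fin M, (fun n => κ ((p i).coeff n)) '' ((p i).support : Set ℕ))
    ((Set.toFinite _).union (Set.finite_iUnion fun i => ((p i).support.finite_toSet).image _)) ?_ w
  intro w hw
  have hx : x ∈ w.ring := hw _ (Or.inl (by simp))
  have hinv : (E (p i0))⁻¹ ∈ w.ring := hw _ (Or.inl (by simp))
  have hinv2 : κ (s i0)⁻¹ ∈ w.ring := hw _ (Or.inl (by simp))
  have hcoef : ∀ i n, κ ((p i).coeff n) ∈ w.ring := by
    intro i n
    by_cases hn : (p i).coeff n = 0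
    · rw [hn, map_zero]
      exact w.ring.zero_mem
    · exact hw _ (Or.inr (Set.mem_iUnion.mpr ⟨i, n, Polynomial.mem_support_iff.mpr hn, rfl⟩))
  obtain ⟨X0, hX0⟩ := exists_rs hx
  choose q hq using fun i => exists_relP (Q := w.pl hK κ) (hK := hK) (p i) (hcoef i)
  have hqv : ∀ P ∈ van k ξ, ∀ n, P.IsHomogeneous n → MvPolynomial.aeval q P = 0 := by
    intro P hP n hn
    have h1 := RelP.mvaeval hq P
    rw [hvan P hP n hn] at h1
    exact h1.unique (relP_zero _)
  have hv : ∀ i, Rs w (c * ξ i) ((q i).eval X0) := by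
    intro i
    rw [hcp i]
    exact (hq i).rs hX0
  have hq1 : (q i0).eval X0 ≠ 0 := by
    obtain ⟨e, he⟩ := exists_rs hinv
    have h1 := ((hq i0).rs hX0).mul he
    have h2 : eval₂ (κ : K →+* F) x (p i0) * (E (p i0))⁻¹ = 1 :=
      mul_inv_cancel₀ (fun h0 => hpi0 (hEinj _ h0))
    rw [h2] at h1
    intro h0
    rw [h0, zero_mul] at h1
    exact one_ne_zero (rs_one.unique h1)
  have hq2 : (q i0).eval t0 ≠ 0 := by
    obtain ⟨e, he⟩ := exists_rs hinv2
    have h1 := ((isRes_pl hK κ w _ _).mp ((hq i0).res t0)).mul he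
    have h2 : κ ((p i0).eval (algebraMap k K t0)) * κ (s i0)⁻¹ = 1 := by
      rw [← map_mul, mul_inv_cancel₀ ht0, map_one]
    rw [h2] at h1
    intro h0
    rw [h0, zero_mul] at h1
    exact one_ne_zero (rs_one.unique h1)
  have hVl : Vl w ξ (fun i => (q i).eval X0) := ⟨fun h0 => hq1 (congrFun h0 i0), c, hv⟩
  have hsat2 : Sat (van k ξ) (fun i => (q i).eval t0) := by
    intro P hP n hn
    have h3 := MvPolynomial.comp_aeval_apply (R := k) q (Polynomial.aeval t0 : k[X] →ₐ[k] k) P
    rw [hqv P hP n hn, map_zero] at h3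
    exact h3.symm
  have hne2 : (fun i => (q i).eval t0) ≠ 0 := fun h0 => hq2 (congrFun h0 i0)
  rw [evP_eq hξ hVl hVl.1 hVl.sat]
  beta_reduce
  rw [peval_eq hK (w.pl hK κ) hs0 hss hne2 hsat2 (fun i => (hq i).res t0)]
  exact rat_const hφ q hqv hVl.1 hVl.sat hne2 hsat2

end Pool.Agent.Helper15.GT
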