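import Mathlib
import Pool.Agent.Helper9.NS
import Pool.Agent.Helper15.GT.Ruled
import Pool.Agent.Helper15.GT.RDec

/-!
# GT: ruled surfaces, Voisin's property for Albanese trivial cycles
-/

set_option linter.unusedSectionVars false

namespace Pool.Agent.Helper15.GT

open VC VF Function Polynomial Pool.Agent.Helper21.TO Pool.Agent.Helper21.TB
open Pool.Agent.Helper51.VN (Harm)

universe u

variable {k F K : Type u} [Field k] [IsAlgClosed k] [CharZero k] [Field F] [Algebra k F] [Field K]
  [Algebra k K]

/-- If all functionals come from curves then all Albanese trivial cycles are torsion. -/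
theorem vpj_zero (h : ∀ (M : ℕ) (ξ : Fin M → F) (hξ : ξ ≠ 0) (φ : (proj k (van k ξ)).Pt → k),
      Kills (proj k (van k ξ)) φ → ∃ (K : Type u) (_ : Field K) (_ : Algebra k K) (hK : IsFunctionField k K)
        (j : K →ₐ[k] F) (l : Place k K → k), Harm hK l ∧ ∀ w : RPl k F, φ (evP ξ hξ w) = l (w.pl hK j)) :
    VPJ k F 0 := by
  classical
  intro M ξ hξ n hn b hb
  have hnul : ∀ i, Nul (proj k (van k ξ)) (b i) := by
    intro i φ hφ
    obtain ⟨a, ha, hab⟩ := hb i
    obtain ⟨K, _, _, hK, j, l, hl, hw⟩ := h M ξ hξ φ hφ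
    rw [hab, Finsupp.linearCombination_mapDomain]
    have h2 := harm_curve hl _ (ha.2 K hK j)
    rw [Finsupp.linearCombination_mapDomain] at h2
    rw [← h2]
    congr 2
    funext w
    exact hw w
  refine separation _ _ fun Φ hΦ => ?_
  rw [map_sum]
  refine Finset.sum_eq_zero fun σ _ => ?_
  rw [map_smul, ext_congr (fun K _ _ hK p => pconst K hK p) hΦ (fun i => b (σ i)) (fun _ => 0)
    (fun i => by rw [sub_zero]; exact hnul _)]
  have h3 : extProd (fun _ : Fin n => (0 : (proj k (van k ξ)).Cycles)) = 0 := by
    exact (extM (proj k (van k ξ)).Pt n).map_coord_zero ⟨0, hn⟩ rfl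
  rw [h3, map_zero, smul_zero]

/-- The function field of a ruled surface. -/
theorem vpj_ruled (hK : IsFunctionField k K) (κ : K →ₐ[k] F) (x : F)
    (hx : IntermediateField.adjoin k (Set.range κ ∪ {x}) = ⊤) : VPJ k F 0 := by
  classical
  apply vpj_zero
  intro M ξ hξ φ hφ
  by_cases htr : ∀ p : K[X], p.eval₂ (κ : K →+* F) x = 0 → p = 0
  · obtain ⟨l, hl, hw⟩ := ruled_base hK κ x htr (fun z => by
      have hz : z ∈ IntermediateField.adjoin k (Set.range κ ∪ {x}) := by
        rw [hx]
        exact IntermediateField.mem_top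
      rw [IntermediateField.mem_adjoin_iff_div] at hz
      have key : ∀ r ∈ Algebra.adjoin k (Set.range κ ∪ {x}), ∃ p : K[X], p.eval₂ (κ : K →+* F) x = r := by
        intro r hr
        induction hr using Algebra.adjoin_induction with
        | mem r hr =>
          rcases hr with ⟨a, rfl⟩ | rfl
          · exact ⟨C a, eval₂_C _ _⟩
          · exact ⟨X, eval₂_X _ _⟩
        | algebraMap c =>
          refine ⟨C (algebraMap k K c), ?_⟩
          rw [eval₂_C]
          exact κ.commutes c
        | add r s _ _ hr hs =>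
          obtain ⟨p, rfl⟩ := hr
          obtain ⟨q, rfl⟩ := hs
          exact ⟨p + q, eval₂_add _ _⟩
        | mul r s _ _ hr hs =>
          obtain ⟨p, rfl⟩ := hr
          obtain ⟨q, rfl⟩ := hs
          exact ⟨p * q, eval₂_mul _ _⟩
      obtain ⟨r, hr, s, hs, hrs⟩ := hz
      obtain ⟨p, hp⟩ := key r hr
      obtain ⟨q, hq⟩ := key s hs
      by_cases hs0 : s = 0
      · refine ⟨0, 1, ?_, ?_⟩
        · rw [eval₂_one]
          exact one_ne_zero
        · rw [hrs, hs0, div_zero, zero_mul, eval₂_zero]
      · refine ⟨p, q, by rw [hq]; exact hs0, ?_⟩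
        rw [hp, hq, hrs, div_mul_cancel₀ _ hs0]) ξ hξ hφ
    exact ⟨K, _, _, hK, κ, l, hl, hw⟩
  · push Not at htr
    obtain ⟨p, hp, hp0⟩ := htr
    letI : Algebra K F := (κ : K →+* F).toAlgebra
    haveI : IsScalarTower k K F := IsScalarTower.of_algebraMap_eq fun r => (κ.commutes r).symm
    have halg : IsAlgebraic K x := ⟨p, hp0, hp⟩
    have htop : IntermediateField.adjoin K {x} = ⊤ := by
      rw [eq_top_iff]
      intro z _
      have hz : z ∈ IntermediateField.adjoin k (Set.range κ ∪ {x}) := by
        rw [hx]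
        exact IntermediateField.mem_top
      have hle : IntermediateField.adjoin k (Set.range κ ∪ {x}) ≤
          (IntermediateField.adjoin K {x}).restrictScalars k := by
        rw [IntermediateField.adjoin_le_iff]
        rintro z (⟨a, rfl⟩ | rfl)
        · exact (IntermediateField.adjoin K {x}).algebraMap_mem a
        · exact IntermediateField.mem_adjoin_simple_self K z
      exact hle hz
    haveI : FiniteDimensional K F := by
      haveI : FiniteDimensional K (IntermediateField.adjoin K {x}) :=
        IntermediateField.adjoin.finiteDimensional halg.isIntegral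
      rw [htop] at this
      exact LinearEquiv.finiteDimensional (IntermediateField.topEquiv (F := K) (E := F)).toLinearEquiv
    have hF : IsFunctionField k F := ff_ext hK
    refine ⟨F, inferInstance, inferInstance, hF, AlgHom.id k F,
      fun Q => φ ((proj k (van k ξ)).eval hF (ppt ξ hξ (fun P hP _ _ => hP)) Q), harm_kills hφ hF _, fun w => ?_⟩
    obtain ⟨b, hb, hs, hv, he⟩ := exists_evP ξ hξ w
    rw [he]
    obtain ⟨-, r, hr⟩ := hv
    congr 1
    exact (peval_eq' hF (w.pl hF (AlgHom.id k F)) hξ (fun P hP _ _ => hP) hb hs r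
      (fun i => (isRes_pl hF (AlgHom.id k F) w _ _).mpr (hr i))).symm

end Pool.Agent.Helper15.GT
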