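import Mathlib
import Pool.Agent.Helper9.NS
import Pool.Agent.Helper15.GT.RBase
import Pool.Agent.Helper15.GT.RDec
import Pool.Agent.Helper15.GT.RFin
import Pool.Agent.Helper15.GT.Ruled2
import Pool.Agent.Helper21.TZ.Main

/-!
# GT: the class of function fields, and the theorem
-/

set_option linter.unusedSectionVars false

namespace Pool.Agent.Helper15.GT

open VC VF Function Pool.Agent.Helper21.TO
open Pool.Agent.Helper21.TB (Fibration)

universe u

/-- The smallest class of pairs of a field `F` over `k` and a natural number `p` with the following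
properties.
* (`fib`) Let `F` be the function field of a surface with a fibration over the curve with function field `K`, of
  genus `g`, whose generic fibre is a curve of genus one, given by the data `T`: `F` contains `K` and is the
  fixed field of the Galois group `T.G` in `T.Ω`. Let `E` be the minimal divisor on the base with
  `4 E + div a ≥ 0` and `6 E + div b ≥ 0` for the coefficients of the equation `y ^ 2 = x ^ 3 + a x + b` of the Jacobian. Then
  `(F, p)` is in the class where `p = deg E + g - 1` if `E` is not a principal divisor and `p = g` if `E` is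
  a principal divisor.
* (`ruled`) If `F = K (x)` where `K` is the function field of a curve, then `(F, 0)` is in the class.
* (`dec`) If the finite group `G` acts on `F`, and `Γ_i` are subgroups such that the sums of their elements generate the
  rational group ring of `G` as a left ideal, and if the pairs of the fixed field of `Γ_i` and `p_i` are in
  the class, then `(F, ∑ p_i)` is in the class. -/
inductive Cls (k : Type u) [Field k] [IsAlgClosed k] [CharZero k] :
    (F : Type u) → [Field F] → [Algebra k F] → ℕ → Prop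
  | fib (F K L Ω : Type u) [Field F] [Algebra k F] [Field K] [Algebra k K] [Field L] [Algebra k L]
      [Algebra K L] [IsScalarTower k K L] [Field Ω] [Algebra k Ω] [Algebra L Ω] [IsScalarTower k L Ω]
      (T : Fibration k K L Ω) (g : ℕ) (hg : IsGenus k K g) (E : Place k K →₀ ℤ)
      (h4 : ∀ P : Place k K, T.a ≠ 0 → 0 ≤ ord P.ring T.a + 4 * E P)
      (h6 : ∀ P : Place k K, T.b ≠ 0 → 0 ≤ ord P.ring T.b + 6 * E P)
      (hmin : ∀ P : Place k K, (T.a ≠ 0 ∧ ord P.ring T.a + 4 * E P < 4) ∨
        (T.b ≠ 0 ∧ ord P.ring T.b + 6 * E P < 6))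
      (κ : K →ₐ[k] F) (f : F →ₐ[k] Ω) (hκ : f.comp κ = T.j)
      (hf : ∀ z : Ω, z ∈ Set.range f ↔ ∀ σ ∈ T.G, σ z = z) (p : ℕ)
      (hp : ((¬ ∃ u : K, u ≠ 0 ∧ ∀ P : Place k K, ord P.ring u = E P) ∧ (E.sum fun _ m => m) + g = p + 1) ∨
        ((∃ u : K, u ≠ 0 ∧ ∀ P : Place k K, ord P.ring u = E P) ∧ p = g)) : Cls k F p
  | ruled (F K : Type u) [Field F] [Algebra k F] [Field K] [Algebra k K] (hK : IsFunctionField k K)
      (κ : K →ₐ[k] F) (x : F) (hx : IntermediateField.adjoin k (Set.range κ ∪ {x}) = ⊤) : Cls k F 0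
  | dec (F : Type u) [Field F] [Algebra k F] (G : Type u) [Group G] [Finite G] (ρ : G →* (F ≃ₐ[k] F))
      (m : ℕ) (Γ : Fin m → Subgroup G) (hΓ : Ideal.span (Set.range fun i => eG (Γ i)) = ⊤)
      (p : Fin m → ℕ) (h : ∀ i, Cls k (IntermediateField.fixedField ((Γ i).map ρ)) (p i)) :
      Cls k F (∑ i, p i)

theorem Cls.vpj {k F : Type u} [Field k] [IsAlgClosed k] [CharZero k] [Field F] [Algebra k F] {p : ℕ}
    (h : Cls k F p) : VPJ k F p := by
  induction h with
  | fib F K L Ω T g hg E h4 h6 hmin κ f hκ hf p hp =>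
    have hf1 : ∀ σ ∈ T.G, ∀ z, σ (f z) = f z := fun σ hσ z => (hf (f z)).mp ⟨z, rfl⟩ σ hσ
    rcases hp with ⟨hE, hp⟩ | ⟨⟨u, hu, huE⟩, rfl⟩
    · exact vpj_fib T hg E h4 h6 hmin hE κ f hκ hf1 hp
    · exact Pool.Agent.Helper21.TZ.vpj_triv T hg hu (fun P h => by rw [huE P]; exact h4 P h)
        (fun P h => by rw [huE P]; exact h6 P h) κ f hκ hf1 (fun z hz => (hf z).mpr hz)
  | ruled F K hK κ x hx => exact vpj_ruled hK κ x hx
  | dec F G ρ m Γ hΓ p h ih => exact vpj_dec ρ Γ hΓ p ih

theorem main {k F : Type u} [Field k] [IsAlgClosed k] [CharZero k] [Field F] [Algebra k F] {p : ℕ}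
    (h : Cls k F p) {M : ℕ} (ξ : Fin M → F) (hξ : ξ ≠ 0) {n : ℕ} (hn : p < n)
    (a : Fin n → (proj k (van k ξ)).Cycles) (ha0 : ∀ l, (a l).sum (fun _ c => c) = 0)
    (haJ : ∀ (K : Type u) [Field K] [Algebra k K] (hK : IsFunctionField k K) (j : K →ₐ[k] F),
      ¬ IsGenus k K 0 → ∃ π : PPt k k (van k ξ) → Place k K, IsMor j ξ π ∧
        ∀ l, (a l).mapDomain π ∈ (curve hK).Rat) :
    ∃ m : ℕ, 0 < m ∧ m • ∑ σ : Equiv.Perm (Fin n), ((Equiv.Perm.sign σ : ℤˣ) : ℤ) •
      extProd (fun i => a (σ i)) ∈ ((proj k (van k ξ)).pow n).Rat :=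
  vpj_apply h.vpj ξ hξ hn a ha0 haJ

end Pool.Agent.Helper15.GT
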