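import Mathlib
import Pool.Agent.Helper9.NS
import Pool.Agent.Helper15.GT.Defs
import Pool.Agent.Helper15.GT.Aut
import Pool.Agent.Helper15.GT.Grid

/-!
# Block GT-FIX: the norm vector has coordinates in the fixed field

`ρ γ'` permutes the factors of `nm d (tr ρ ξ (fun γ : Γ => γ)) l = ∏_{γ ∈ Γ} ∑_i a_i ρ γ (ξ i)`: `ρ γ' (nm ..) = nm (tr ρ ξ (γ' * γ))`
(`nm_map`) and reindexing by `Equiv.mulLeft γ'` (`nm_perm`). The fixed field of `Γ.map ρ` is
`IntermediateField.fixedField`, membership: fixed by all elements (`IntermediateField.mem_fixedField_iff`).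
* `exists_fix`: `u l = ⟨nm .. l, _⟩`; it is not zero by `nm_ne_zero` (`ρ γ ∘ ξ ≠ 0`); the vanishing forms agree by `van_hom` with
  `IntermediateField.val`.
-/

set_option linter.unusedSectionVars false

namespace Pool.Agent.Helper15.GT

open VC VF Function Pool.Agent.Helper21.TO

universe u

variable {k : Type u} [Field k] [IsAlgClosed k] [CharZero k]

theorem exists_fix {F : Type u} [Field F] [Algebra k F] {G : Type u} [Group G] (ρ : G →* (F ≃ₐ[k] F)) {M : ℕ}
    (ξ : Fin M → F) (hξ : ξ ≠ 0) (Γ : Subgroup G) [Fintype Γ] {d : ℕ} (hd : Fintype.card Γ ≤ d) :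
    ∃ u : Fin ((d + 1) ^ M) → IntermediateField.fixedField (Γ.map ρ), u ≠ 0 ∧
      van k u = van k (nm d (tr ρ ξ (fun γ : Γ => (γ : G)))) := by
  have hfix : ∀ l, nm d (tr ρ ξ (fun γ : Γ => (γ : G))) l ∈ IntermediateField.fixedField (Γ.map ρ) := by
    intro l
    rw [IntermediateField.mem_fixedField_iff]
    rintro _ ⟨g, hg, rfl⟩
    have h1 := nm_map (d := d) ((ρ g : F ≃ₐ[k] F) : F →+* F) (tr ρ ξ (fun γ : Γ => (γ : G))) l
    have h2 : (fun j i => ((ρ g : F ≃ₐ[k] F) : F →+* F) (tr ρ ξ (fun γ : Γ => (γ : G)) j i)) =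
        fun j => tr ρ ξ (fun γ : Γ => (γ : G)) (Equiv.mulLeft (⟨g, hg⟩ : Γ) j) := by
      funext j i
      change (ρ g) ((ρ (j : G)) (ξ i)) = (ρ (g * (j : G))) (ξ i)
      rw [map_mul]
      rfl
    rw [h2, nm_perm] at h1
    exact h1.symm
  have hF : CharZero F := charZero_of_injective_algebraMap (algebraMap k F).injective
  refine ⟨fun l => ⟨_, hfix l⟩, ?_, ?_⟩
  · intro h0
    refine nm_ne_zero hd (tr ρ ξ (fun γ : Γ => (γ : G))) (fun γ hγ => hξ ?_)
      (funext fun l => congrArg Subtype.val (congrFun h0 l))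
    funext i
    have h3 := congrFun hγ i
    exact (map_eq_zero_iff (ρ (γ : G)) (ρ (γ : G)).injective).1 h3
  · exact (van_hom (IntermediateField.val (IntermediateField.fixedField (Γ.map ρ)))
      (fun l => (⟨_, hfix l⟩ : IntermediateField.fixedField (Γ.map ρ)))).symm

theorem VP.sub {F F' : Type u} [Field F] [Algebra k F] [Field F'] [Algebra k F'] (f : F →ₐ[k] F') {p : ℕ}
    (h : VP k F' p) : VP k F p := by
  intro M ξ hξ n hn
  have h1 : (fun i => f (ξ i)) ≠ 0 := by
    intro h0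
    apply hξ
    funext i
    exact (map_eq_zero_iff f f.toRingHom.injective).mp (congrFun h0 i)
  have h2 := h M (fun i => f (ξ i)) h1 n hn
  rwa [van_hom] at h2

end Pool.Agent.Helper15.GT
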