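import Mathlib
import Pool.Agent.Helper9.NS
import Pool.Agent.Helper15.GT.Defs

/-!
# GT: specializations (definition), block GT-SPS: specializations satisfy the equations

* `sat_spec`: for a form `P` of degree `n` with `P (nm d (x ∘ τ)) = 0`: `nm d (fun j i => x (τ j) i / r (τ j)) =
  (∏_j r (τ j))⁻¹ nm d (x ∘ τ)` (`nm_smul`), so `P` vanishes at it (`aeval_smul'`); all these elements are in `B` and `θ` maps them
  to `nm d (z ∘ τ)` (`nm_map` for `B.val` and for `θ`), so `P (nm d (z ∘ τ)) = θ (0) = 0` (`MvPolynomial.comp_aeval_apply`).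
* `sat_spec1`: the same with `x j / r j` instead of the norm vector.
-/

set_option linter.unusedSectionVars false

namespace Pool.Agent.Helper15.GT

open VC VF Function Pool.Agent.Helper21.TO

universe u

variable {k : Type u} [Field k]

/-- The vectors `z j` are obtained from the vectors `x j` by scaling with `r j` and applying `θ`. -/
structure IsSpec {F : Type u} [Field F] [Algebra k F] {ι : Type*} {M : ℕ} (x : ι → Fin M → F)
    (z : ι → Fin M → k) (B : Subalgebra k F) (θ : B →ₐ[k] k) (r : ι → F) : Prop where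
  r_ne : ∀ j, r j ≠ 0
  z_ne : ∀ j, z j ≠ 0
  val : ∀ j i, ∃ hm : x j i / r j ∈ B, θ ⟨x j i / r j, hm⟩ = z j i

/-- A form vanishing at a vector over `F` which lifts to `B` vanishes at the image under `θ`. -/
private lemma aeval_of_lift36 {F : Type u} [Field F] [Algebra k F] {B : Subalgebra k F} (θ : B →ₐ[k] k) {N : ℕ}
    (u : Fin N → B) (P : MvPolynomial (Fin N) k) (h : MvPolynomial.aeval (fun l => (u l : F)) P = 0) :
    MvPolynomial.aeval (fun l => θ (u l)) P = 0 := by
  have h1 : MvPolynomial.aeval u P = 0 := by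
    apply Subtype.val_injective
    have := MvPolynomial.comp_aeval_apply (f := u) B.val P
    rw [ZeroMemClass.coe_zero, ← h]
    exact this
  have h2 := MvPolynomial.comp_aeval_apply (f := u) θ P
  rw [h1, map_zero] at h2
  exact h2.symm

theorem sat_spec {F : Type u} [Field F] [Algebra k F] {ι : Type*} {M : ℕ} {x : ι → Fin M → F}
    {z : ι → Fin M → k} {B : Subalgebra k F} {θ : B →ₐ[k] k} {r : ι → F} (h : IsSpec x z B θ r) {κ : Type*}
    [Fintype κ] (τ : κ → ι) (d : ℕ) : Sat (van k (nm d fun j => x (τ j))) (nm d fun j => z (τ j)) := by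
  intro P hP n hn
  have hP' : MvPolynomial.aeval (nm d fun j => x (τ j)) P = 0 := hP
  classical
  let u : κ → Fin M → B := fun j i => ⟨x (τ j) i / r (τ j), (h.val (τ j) i).choose⟩
  have hu : ∀ j i, θ (u j i) = z (τ j) i := fun j i => (h.val (τ j) i).choose_spec
  have huv : ∀ j i, ((u j i : B) : F) = (r (τ j))⁻¹ * x (τ j) i := fun j i => by
    show x (τ j) i / r (τ j) = _
    rw [div_eq_mul_inv, mul_comm]
  have e1 : (fun l => ((nm d u l : B) : F)) = fun l => (∏ j, (r (τ j))⁻¹) * nm d (fun j => x (τ j)) l := by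
    funext l
    have h1 := nm_map (d := d) (B.val : B →+* F) u l
    have h2 := nm_smul (d := d) (fun j => (r (τ j))⁻¹) (fun j => x (τ j)) l
    rw [← h2]
    have h3 : (fun (j : κ) (i : Fin M) => (r (τ j))⁻¹ * x (τ j) i) =
        fun j i => (B.val : B →+* F) (u j i) := by
      funext j i
      exact (huv j i).symm
    rw [h3]
    exact h1.symm
  have e2 : (fun l => θ (nm d u l)) = nm d fun j => z (τ j) := by
    funext l
    have h1 := nm_map (d := d) (θ : B →+* k) u l
    have h3 : (fun (j : κ) (i : Fin M) => (θ : B →+* k) (u j i)) = fun j => z (τ j) := by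
      funext j i
      exact hu j i
    rw [h3] at h1
    exact h1.symm
  have h4 : MvPolynomial.aeval (fun l => ((nm d u l : B) : F)) P = 0 := by
    rw [e1, aeval_smul' hn, hP', mul_zero]
  have h5 := aeval_of_lift36 θ (fun l => nm d u l) P h4
  rwa [e2] at h5

theorem sat_spec1 {F : Type u} [Field F] [Algebra k F] {ι : Type*} {M : ℕ} {x : ι → Fin M → F}
    {z : ι → Fin M → k} {B : Subalgebra k F} {θ : B →ₐ[k] k} {r : ι → F} (h : IsSpec x z B θ r) (j : ι) :
    Sat (van k (x j)) (z j) := by
  intro P hP n hn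
  have hP' : MvPolynomial.aeval (x j) P = 0 := hP
  let u : Fin M → B := fun i => ⟨x j i / r j, (h.val j i).choose⟩
  have hu : (fun i => θ (u i)) = z j := funext fun i => (h.val j i).choose_spec
  have huv : (fun i => ((u i : B) : F)) = fun i => (r j)⁻¹ * x j i := by
    funext i
    show x j i / r j = _
    rw [div_eq_mul_inv, mul_comm]
  have h4 : MvPolynomial.aeval (fun i => ((u i : B) : F)) P = 0 := by
    rw [huv, aeval_smul' hn, hP', mul_zero]
  have h5 := aeval_of_lift36 θ u P h4
  rwa [hu] at h5

end Pool.Agent.Helper15.GT
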