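import Mathlib
import Pool.Agent.Helper9.NS
import Pool.Agent.Helper15.GT.Defs
import Pool.Agent.Helper15.GT.Hom
import Pool.Agent.Helper15.GT.SpecDef

/-!
# Block GT-SPEC: specialization of several points, extending a given one

Choose `i0` with `a i0 ≠ 0`. `exists_homK` (with `K = k`) for `g = x j0`: `x j0 i0 ≠ 0` and `χ : A → k`, `A = Algebra.adjoin k {x j0 i /
x j0 i0}`, `χ (x j0 i / x j0 i0) = a i / a i0`. Let `P` be the kernel of `χ`, a prime (maximal) ideal of `A`. There is a
valuation subring `V` of `F` with `A ⊆ V` and `P ⊆ V.nonunits` (`LocalSubring.exists_le_valuationSubring` for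
`LocalSubring.ofPrime A P`, Mathlib/RingTheory/Valuation/LocalSubring.lean). For every `j ≠ j0` choose `i_j` such that
`V.valuation (x j i_j)` is maximal (`Finite.exists_max`); `r j = x j i_j ≠ 0`, and `x j i / r j ∈ V` for all `i`; for `j0` take
`i_j0 = i0`. Let `B = Algebra.adjoin k {x j i / r j : j, i}`, a finitely generated `k`-algebra, `A ≤ B ⊆ V` (`k ⊆ A ⊆ V`). The ideal of
`B` generated by `P` is contained in `V.nonunits ∩ B`, so proper; let `m` be a maximal ideal of `B` containing it.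
`B / m` is a field, finitely generated as a `k`-algebra, so finite over `k` (Zariski's lemma,
`finite_of_finite_type_of_isJacobsonRing`) and equal to `k` (`IsAlgClosed.algebraMap_bijective_of_isIntegral`): `θ : B → k`.
`θ` and `χ` agree on `A`: both have kernel containing `P` and for `z ∈ A` we have `z - χ z ∈ P`. Put
`z j i = θ (x j i / r j)`; `z j i_j = 1`, so `z j ≠ 0`; `z j0 i = χ (x j0 i / x j0 i0) = a i / a i0`, so `c = 1 / a i0`.
-/

set_option linter.unusedSectionVars false

namespace Pool.Agent.Helper15.GT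

open VC VF Function Pool.Agent.Helper21.TO

universe u

variable {k : Type u} [Field k]

theorem exists_spec [IsAlgClosed k] [CharZero k] {F : Type u} [Field F] [Algebra k F] {ι : Type*} [Finite ι]
    {M : ℕ} (x : ι → Fin M → F) (hx : ∀ j, x j ≠ 0) (j0 : ι) (a : Fin M → k) (ha : a ≠ 0)
    (h : Sat (van k (x j0)) a) :
    ∃ (z : ι → Fin M → k) (B : Subalgebra k F) (θ : B →ₐ[k] k) (r : ι → F), IsSpec x z B θ r ∧
      ∃ c : k, c ≠ 0 ∧ ∀ i, z j0 i = c * a i := by
  classical
  obtain ⟨i0, hi0⟩ := Function.ne_iff.mp ha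
  have hi0' : a i0 ≠ 0 := hi0
  obtain ⟨hx0, χ, hχ⟩ := exists_homK (x j0) a h i0 hi0'
  haveI : Nonempty (Fin M) := ⟨i0⟩
  -- the valuation ring
  have hker : RingHom.ker χ.toRingHom ≠ ⊤ := RingHom.ker_ne_top χ.toRingHom
  obtain ⟨V, hAV, hPV⟩ := Ideal.image_subset_nonunits_valuationSubring
    (A := (Algebra.adjoin k (Set.range (fun i => x j0 i / x j0 i0))).toSubring) (RingHom.ker χ.toRingHom) hker
  have hkV : ∀ c : k, algebraMap k F c ∈ V := fun c =>
    hAV (Subalgebra.algebraMap_mem (Algebra.adjoin k (Set.range (fun i => x j0 i / x j0 i0))) c)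
  have hgV : ∀ i, x j0 i / x j0 i0 ∈ V := fun i =>
    hAV (Algebra.subset_adjoin ⟨i, rfl⟩ :
      x j0 i / x j0 i0 ∈ Algebra.adjoin k (Set.range (fun i => x j0 i / x j0 i0)))
  -- the denominators
  have hden : ∀ j, ∃ i, x j i ≠ 0 ∧ (∀ i', x j i' / x j i ∈ V) ∧ (j = j0 → i = i0) := by
    intro j
    by_cases hj : j = j0
    · subst hj
      exact ⟨i0, hx0, hgV, fun _ => rfl⟩
    · obtain ⟨i, hi⟩ := Finite.exists_max (fun i => V.valuation (x j i))
      have hne : x j i ≠ 0 := by
        intro h0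
        apply hx j
        funext i'
        have := hi i'
        rw [h0, map_zero, le_zero_iff, map_eq_zero] at this
        exact this
      refine ⟨i, hne, fun i' => ?_, fun h => absurd h hj⟩
      rw [← V.valuation_le_one_iff, map_div₀]
      have h1 : V.valuation (x j i) ≠ 0 := (Valuation.ne_zero_iff _).2 hne
      exact (div_le_one₀ (zero_lt_iff.2 h1)).2 (hi i')
  choose idx hidx using hden
  -- the ring `B`
  set gen : ι × Fin M → F := fun p => x p.1 p.2 / x p.1 (idx p.1) with hgen
  set B : Subalgebra k F := Algebra.adjoin k (Set.range gen) with hB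
  let VV : Subalgebra k F := { V.toSubring with algebraMap_mem' := hkV }
  have hBV : B ≤ VV := by
    rw [hB, Algebra.adjoin_le_iff]
    rintro _ ⟨p, rfl⟩
    exact (hidx p.1).2.1 p.2
  have hfg : Algebra.FiniteType k B := by
    rw [← Subalgebra.fg_iff_finiteType]
    rw [hB, ← (Set.finite_range gen).coe_toFinset]
    exact Subalgebra.fg_adjoin_finset _
  -- the ideal
  let incl : B →+* V := (Subring.inclusion (S := B.toSubring) (T := V.toSubring) hBV)
  let J : Ideal B := (IsLocalRing.maximalIdeal V).comap incl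
  have hJ : J ≠ ⊤ := Ideal.comap_ne_top _ (Ideal.IsPrime.ne_top inferInstance)
  obtain ⟨m, hm, hJm⟩ := Ideal.exists_le_maximal J hJ
  have := hm
  letI : Field (B ⧸ m) := Ideal.Quotient.field m
  haveI : Algebra.FiniteType k (B ⧸ m) :=
    Algebra.FiniteType.of_surjective (Ideal.Quotient.mkₐ k m) Ideal.Quotient.mk_surjective
  haveI : Module.Finite k (B ⧸ m) := finite_of_finite_type_of_isJacobsonRing k (B ⧸ m)
  have hbij : Function.Bijective (algebraMap k (B ⧸ m)) :=
    IsAlgClosed.algebraMap_bijective_of_isIntegral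
  let e : k ≃ₐ[k] (B ⧸ m) := AlgEquiv.ofBijective (Algebra.ofId k (B ⧸ m)) hbij
  let θ : B →ₐ[k] k := (e.symm : (B ⧸ m) →ₐ[k] k).comp (Ideal.Quotient.mkₐ k m)
  have hθ : ∀ b : B, b ∈ m → θ b = 0 := by
    intro b hb
    show e.symm (Ideal.Quotient.mk m b) = 0
    rw [Ideal.Quotient.eq_zero_iff_mem.2 hb, map_zero]
  have hmem : ∀ j i, x j i / x j (idx j) ∈ B := fun j i => Algebra.subset_adjoin ⟨(j, i), rfl⟩
  have hr : ∀ j, x j (idx j) ≠ 0 := fun j => (hidx j).1
  have hidx0 : idx j0 = i0 := (hidx j0).2.2 rfl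
  refine ⟨fun j i => θ ⟨x j i / x j (idx j), hmem j i⟩, B, θ, fun j => x j (idx j), ⟨hr, fun j => ?_, fun j i =>
    ⟨hmem j i, rfl⟩⟩, (a i0)⁻¹, inv_ne_zero hi0', fun i => ?_⟩
  · intro h0
    have h1 := congrFun h0 (idx j)
    have h2 : (⟨x j (idx j) / x j (idx j), hmem j (idx j)⟩ : B) = 1 := Subtype.ext (div_self (hr j))
    simp only [h2, map_one] at h1
    exact one_ne_zero h1
  · have hiA : x j0 i / x j0 i0 ∈ Algebra.adjoin k (Set.range (fun i => x j0 i / x j0 i0)) :=
      Algebra.subset_adjoin ⟨i, rfl⟩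
    have h1 := hχ i hiA
    have hmem0 : x j0 i / x j0 i0 ∈ B := by
      have := hmem j0 i
      rwa [hidx0] at this
    have h2 : (⟨x j0 i / x j0 (idx j0), hmem j0 i⟩ : B) = ⟨x j0 i / x j0 i0, hmem0⟩ :=
      Subtype.ext (by show x j0 i / x j0 (idx j0) = x j0 i / x j0 i0; rw [hidx0])
    show θ ⟨x j0 i / x j0 (idx j0), hmem j0 i⟩ = (a i0)⁻¹ * a i
    rw [h2]
    set c : k := a i / a i0 with hc
    have h3 : (⟨x j0 i / x j0 i0, hmem0⟩ : B) - algebraMap k B c ∈ m := by
      apply hJm
      show incl _ ∈ IsLocalRing.maximalIdeal V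
      have hk0 : (⟨x j0 i / x j0 i0, hiA⟩ : Algebra.adjoin k (Set.range (fun i => x j0 i / x j0 i0))) -
          algebraMap k _ c ∈ RingHom.ker χ.toRingHom := by
        rw [RingHom.mem_ker]
        show χ _ = 0
        rw [map_sub, h1, AlgHom.commutes]
        exact sub_self _
      have hk1 : x j0 i / x j0 i0 - algebraMap k F c ∈ V.nonunits := by
        apply hPV
        exact ⟨_, hk0, rfl⟩
      have hk2 : x j0 i / x j0 i0 - algebraMap k F c ∈ ((↑) : V → F) '' IsLocalRing.maximalIdeal V := by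
        rw [V.image_maximalIdeal]
        exact hk1
      obtain ⟨w, hw, hw2⟩ := hk2
      have : incl ((⟨x j0 i / x j0 i0, hmem0⟩ : B) - algebraMap k B c) = w := Subtype.ext hw2.symm
      rw [this]
      exact hw
    have h4 := hθ _ h3
    rw [map_sub, AlgHom.commutes, sub_eq_zero] at h4
    rw [h4]
    show c = _
    rw [hc]
    field_simp

end Pool.Agent.Helper15.GT
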