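import Mathlib
import Pool.Agent.Helper9.NS
import Pool.Agent.Helper15.GT.Defs
import Pool.Agent.Helper15.GT.Aut
import Pool.Agent.Helper15.GT.Grid
import Pool.Agent.Helper15.GT.Spec
import Pool.Agent.Helper15.GT.ZEq

/-!
# Block GT-GEN: every point of `S` comes from the quotients, up to a factor

`p = ppt a` (`exists_ppt`). Apply `exists_spec` to the family `x g = ρ g ∘ ξ`, `g ∈ G`, `j0 = 1` (`ρ 1 ∘ ξ = ξ`): points `z g`,
`z 1 = c a`. `Sat (van k ξ) (z g)` by `sat_spec1` and `van_aut`. For `i < m` and `h ∈ G` let `y i h = nm d (fun j => z (h * s i j))`, not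
zero by `nm_ne_zero`; it satisfies `van k (nm d (tr ρ ξ (s i)))` by `sat_spec` with `τ j = h * s i j`, because
`nm d (fun j => x (h * s i j)) = ρ h ∘ nm d (tr ρ ξ (s i))` (`map_mul`, `nm_map`) and `van_aut`. By `Zc_eq` (`IsFac` with factor 1):
`Zc (ppt (y i h)) = ∑_j cy (z (h * s i j))`. Put `b i = ∑_h c i h • [ppt (y i h)]`. Then
`∑_i Zc_lin (b i) = ∑_i ∑_h c i h • ∑_j cy (z (h * s i j)) = D • cy (z 1)`, the image of the identity `hc` under the homomorphism
`single g 1 ↦ cy (z g)` (`Finsupp.linearCombination ℤ (fun g => cy _ (z g))`), and `cy (z 1) = cy (c a) = cy a = [p]`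
(`cy_smul`, definition of `cy`).
-/

set_option linter.unusedSectionVars false

namespace Pool.Agent.Helper15.GT

open VC VF Function Pool.Agent.Helper21.TO

universe u

variable {k : Type u} [Field k] [IsAlgClosed k] [CharZero k]

theorem exists_gen {F : Type u} [Field F] [Algebra k F] {G : Type u} [Group G] [Fintype G]
    (ρ : G →* (F ≃ₐ[k] F)) {M : ℕ} (ξ : Fin M → F) (hξ : ξ ≠ 0) {m : ℕ} {κ : Fin m → Type u}
    [∀ i, Fintype (κ i)] (s : ∀ i, κ i → G) {d : ℕ} (hd : ∀ i, Fintype.card (κ i) ≤ d) (D : ℕ)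
    (c : Fin m → G → ℤ)
    (hc : ∑ i, ∑ h, c i h • ∑ j, Finsupp.single (h * s i j) (1 : ℤ) = Finsupp.single (1 : G) (D : ℤ))
    (p : (proj k (van k ξ)).Pt) :
    ∃ b : ∀ i, (proj k (van k (nm d (tr ρ ξ (s i))))).Cycles,
      (∀ i, (b i).sum (fun _ c => c) = ∑ h, c i h) ∧
        D • (Finsupp.single p 1 : (proj k (van k ξ)).Cycles) =
          ∑ i, Finsupp.linearCombination ℤ (Zc (κ i) (van k ξ) d) (b i) := by
  classical
  obtain ⟨a, ha, hsat, rfl⟩ := exists_ppt p
  let x : G → Fin M → F := fun g i => ρ g (ξ i)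
  have hx1 : x 1 = ξ := by
    funext i
    change ρ 1 (ξ i) = ξ i
    rw [map_one]
    rfl
  have hxne : ∀ g, x g ≠ 0 := by
    intro g h0
    apply hξ
    funext i
    have h1 : ρ g (ξ i) = 0 := congrFun h0 i
    exact (map_eq_zero_iff (ρ g) (ρ g).injective).1 h1
  obtain ⟨z, B, θ, r, hspec, c0, hc0, hz1⟩ := exists_spec x hxne 1 a ha (by rw [hx1]; exact hsat)
  have hnm : ∀ (i : Fin m) (h : G), nm d (fun j => x (h * s i j)) =
      fun l => ρ h (nm d (tr ρ ξ (s i)) l) := by
    intro i h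
    funext l
    have h1 := nm_map (d := d) ((ρ h : F ≃ₐ[k] F) : F →+* F) (tr ρ ξ (s i)) l
    have h2 : (fun j => x (h * s i j)) =
        fun j i' => ((ρ h : F ≃ₐ[k] F) : F →+* F) (tr ρ ξ (s i) j i') := by
      funext j i'
      change ρ (h * s i j) (ξ i') = ρ h (ρ (s i j) (ξ i'))
      rw [map_mul]
      rfl
    rw [h2]
    exact h1
  let y : ∀ (i : Fin m) (_ : G), Fin ((d + 1) ^ M) → k := fun i h => nm d fun j => z (h * s i j)
  have hy : ∀ i h, y i h ≠ 0 := fun i h => nm_ne_zero (hd i) _ fun j => hspec.z_ne _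
  have hys : ∀ i h, Sat (van k (nm d (tr ρ ξ (s i)))) (y i h) := by
    intro i h
    have h1 := sat_spec hspec (fun j => h * s i j) d
    rw [hnm i h, van_aut (ρ h) (nm d (tr ρ ξ (s i)))] at h1
    exact h1
  have hZ : ∀ i h, Zc (κ i) (van k ξ) d (ppt (y i h) (hy i h) (hys i h)) =
      ∑ j, cy (van k ξ) (z (h * s i j)) := by
    intro i h
    exact Zc_eq (hd i) (van k ξ) (hy i h) (hys i h)
      ⟨fun j => hspec.z_ne _, 1, one_ne_zero, fun l => (one_mul _).symm⟩
  refine ⟨fun i => ∑ h, c i h • Finsupp.single (ppt (y i h) (hy i h) (hys i h)) 1, fun i => ?_, ?_⟩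
  · have h1 : ∀ w : (proj k (van k (nm d (tr ρ ξ (s i))))).Cycles,
        w.sum (fun _ c => c) = Finsupp.linearCombination ℤ (fun _ => (1 : ℤ)) w := by
      intro w
      rw [Finsupp.linearCombination_apply]
      refine Finsupp.sum_congr fun q _ => ?_
      rw [smul_eq_mul, mul_one]
    rw [h1, map_sum]
    refine Finset.sum_congr rfl fun h _ => ?_
    rw [map_zsmul, Finsupp.linearCombination_single, smul_eq_mul, smul_eq_mul, mul_one, mul_one]
  · have h1 : ∀ i, Finsupp.linearCombination ℤ (Zc (κ i) (van k ξ) d)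
        (∑ h, c i h • Finsupp.single (ppt (y i h) (hy i h) (hys i h)) 1) =
        ∑ h, c i h • ∑ j, cy (van k ξ) (z (h * s i j)) := by
      intro i
      rw [map_sum]
      refine Finset.sum_congr rfl fun h _ => ?_
      rw [map_zsmul, Finsupp.linearCombination_single, one_smul, hZ]
    rw [Finset.sum_congr rfl fun i _ => h1 i]
    have h2 := congrArg (Finsupp.linearCombination ℤ (fun g : G => cy (van k ξ) (z g))) hc
    rw [map_sum, Finsupp.linearCombination_single] at h2
    have h3 : ∀ i, Finsupp.linearCombination ℤ (fun g : G => cy (van k ξ) (z g))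
        (∑ h, c i h • ∑ j, Finsupp.single (h * s i j) (1 : ℤ)) =
        ∑ h, c i h • ∑ j, cy (van k ξ) (z (h * s i j)) := by
      intro i
      rw [map_sum]
      refine Finset.sum_congr rfl fun h _ => ?_
      rw [map_zsmul, map_sum]
      congr 1
      refine Finset.sum_congr rfl fun j _ => ?_
      rw [Finsupp.linearCombination_single, one_smul]
    rw [Finset.sum_congr rfl fun i _ => h3 i] at h2
    rw [h2, natCast_zsmul]
    congr 1
    have h4 : z 1 = fun i => c0 * a i := funext hz1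
    rw [h4, cy_smul (van k ξ) hc0]
    unfold cy
    rw [dif_pos ⟨ha, hsat⟩]

end Pool.Agent.Helper15.GT
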