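import Mathlib
import Pool.Agent.Helper9.NS
import Pool.Agent.Helper15.GT.Defs
import Pool.Agent.Helper15.GT.Gen

/-!
# Block GT-GENDEG: every cycle of degree zero on `S` comes from cycles of degree zero on the quotients

For `a = ∑_p a_p [p]` take `b i = ∑_p a_p b_p i` (`b_p` from `exists_gen`); its degree is `(∑_p a_p) (∑_h c i h) = 0`.
-/

set_option linter.unusedSectionVars false

namespace Pool.Agent.Helper15.GT

open VC VF Function Pool.Agent.Helper21.TO

universe u

variable {k : Type u} [Field k] [IsAlgClosed k] [CharZero k]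

private lemma deg_eq_h40 {X : Type*} (c : X →₀ ℤ) :
    (c.sum fun _ c => c) = Finsupp.linearCombination ℤ (fun _ : X => (1 : ℤ)) c := by
  rw [Finsupp.linearCombination_apply]
  refine Finsupp.sum_congr fun x _ => ?_
  rw [smul_eq_mul, mul_one]

theorem exists_gen_deg {F : Type u} [Field F] [Algebra k F] {G : Type u} [Group G] [Fintype G]
    (ρ : G →* (F ≃ₐ[k] F)) {M : ℕ} (ξ : Fin M → F) (hξ : ξ ≠ 0) {m : ℕ} {κ : Fin m → Type u}
    [∀ i, Fintype (κ i)] (s : ∀ i, κ i → G) {d : ℕ} (hd : ∀ i, Fintype.card (κ i) ≤ d) (D : ℕ)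
    (c : Fin m → G → ℤ)
    (hc : ∑ i, ∑ h, c i h • ∑ j, Finsupp.single (h * s i j) (1 : ℤ) = Finsupp.single (1 : G) (D : ℤ))
    (a : (proj k (van k ξ)).Cycles) (ha : a.sum (fun _ c => c) = 0) :
    ∃ b : ∀ i, (proj k (van k (nm d (tr ρ ξ (s i))))).Cycles, (∀ i, (b i).sum (fun _ c => c) = 0) ∧
      D • a = ∑ i, Finsupp.linearCombination ℤ (Zc (κ i) (van k ξ) d) (b i) := by
  choose b hb1 hb2 using fun p => exists_gen ρ ξ hξ s hd D c hc p
  refine ⟨fun i => a.sum fun p n => n • b p i, fun i => ?_, ?_⟩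
  · rw [deg_eq_h40, map_finsuppSum]
    have h1 : (a.sum fun p n => Finsupp.linearCombination ℤ (fun _ => (1 : ℤ)) (n • b p i)) =
        a.sum fun p n => n * ∑ h, c i h := by
      refine Finsupp.sum_congr fun p _ => ?_
      rw [map_smul, ← deg_eq_h40, hb1, smul_eq_mul]
    rw [h1, ← Finsupp.sum_mul, ha, zero_mul]
  · have h1 : ∀ i, Finsupp.linearCombination ℤ (Zc (κ i) (van k ξ) d) (a.sum fun p n => n • b p i) =
        a.sum fun p n => n • Finsupp.linearCombination ℤ (Zc (κ i) (van k ξ) d) (b p i) := by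
      intro i
      rw [map_finsuppSum]
      refine Finsupp.sum_congr fun p _ => ?_
      rw [map_smul]
    rw [Finset.sum_congr rfl fun i _ => h1 i]
    have h2 : (a.sum fun p n => n • (D • (Finsupp.single p 1 : (proj k (van k ξ)).Cycles))) = D • a := by
      have h3 : ∀ (p : (proj k (van k ξ)).Pt) (n : ℤ),
          n • (D • (Finsupp.single p 1 : (proj k (van k ξ)).Cycles)) = D • Finsupp.single p n := by
        intro p n
        rw [smul_comm, Finsupp.smul_single, smul_eq_mul, mul_one]
      simp only [h3]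
      rw [← Finsupp.smul_sum, Finsupp.sum_single]
    rw [← h2]
    unfold Finsupp.sum
    rw [Finset.sum_comm]
    refine Finset.sum_congr rfl fun p _ => ?_
    show a p • (D • (Finsupp.single p 1 : (proj k (van k ξ)).Cycles)) = _
    rw [hb2, Finset.smul_sum]

end Pool.Agent.Helper15.GT
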