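import Mathlib
import Pool.Agent.Helper9.NS
import Pool.Agent.Helper15.GT.Defs
import Pool.Agent.Helper15.GT.Fix
import Pool.Agent.Helper15.GT.GenDeg
import Pool.Agent.Helper15.GT.Ring
import Pool.Agent.Helper15.GT.Dec
import Pool.Agent.Helper15.GT.Lift

/-!
# Block GT-MAIN: the decomposition theorem for function fields

Let `d = card G`, `D`, `c` from `exists_coeff`, and for `ξ : Fin M → F`, `ξ ≠ 0`: `S = proj k (van k ξ)`,
`X i = proj k (van k (nm d (tr ρ ξ (fun γ : Γ i => γ))))`, `Z i = Zc (Γ i) (van k ξ) d`. `Cor (X i) S (Z i)` by `cor_Zc` (the vectors `ρ γ ∘ ξ`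
satisfy `van k ξ`: `van_aut`). `VoisinOn (X i) (degree zero) n` for `n > p i` by the hypothesis `h i` for the vector `u` of `exists_fix`
(rewrite `van k u`). `HS` = cycles of degree zero, `exists_gen_deg`. `HasConst` is `pconst` (TO/Defs).
-/

set_option linter.unusedSectionVars false

namespace Pool.Agent.Helper15.GT

open VC VF Function Pool.Agent.Helper21.TO

universe u

variable {k : Type u} [Field k] [IsAlgClosed k] [CharZero k]

theorem vp_dec {F : Type u} [Field F] [Algebra k F] {G : Type u} [Group G] [Finite G]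
    (ρ : G →* (F ≃ₐ[k] F)) {m : ℕ} (Γ : Fin m → Subgroup G)
    (hΓ : Ideal.span (Set.range fun i => eG (Γ i)) = ⊤) (p : Fin m → ℕ)
    (h : ∀ i, VP k (IntermediateField.fixedField ((Γ i).map ρ)) (p i)) : VP k F (∑ i, p i) := by
  classical
  intro M ξ hξ n hn
  let _ : Fintype G := Fintype.ofFinite G
  let _ : ∀ i, Fintype (Γ i) := fun i => Fintype.ofFinite _
  obtain ⟨D, c, hD, hc⟩ := exists_coeff Γ hΓ
  have hd : ∀ i, Fintype.card (Γ i) ≤ Fintype.card G := fun i =>
    Fintype.card_le_of_injective (fun γ : Γ i => (γ : G)) Subtype.val_injective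
  have hS : HasConst (proj k (van k ξ)) := fun K _ _ hK q => pconst K hK q
  have hsat : ∀ g : G, Sat (van k ξ) (fun i => ρ g (ξ i)) := by
    intro g P hP n' _
    have h1 : P ∈ van k (fun i => ρ g (ξ i)) := by
      rw [van_aut (ρ g) ξ]
      exact hP
    exact h1
  have hZ : ∀ i, Cor (proj k (van k (nm (Fintype.card G) (tr ρ ξ (fun γ : Γ i => (γ : G))))))
      (proj k (van k ξ)) (Zc (Γ i) (van k ξ) (Fintype.card G)) := fun i =>
    cor_Zc (hd i) (van k ξ) (tr ρ ξ (fun γ : Γ i => (γ : G))) fun j => hsat (j : G)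
  rw [← voisinOn_iff]
  refine voisinOn_dec hS hZ
    (fun i => {a : (proj k (van k (nm (Fintype.card G) (tr ρ ξ (fun γ : Γ i => (γ : G)))))).Cycles |
      a.sum (fun _ c => c) = 0}) p ?_ hn _ ?_
  · intro i n' hn'
    obtain ⟨u, hu, hvan⟩ := exists_fix ρ ξ hξ (Γ i) (hd i)
    have h1 := h i _ u hu n' hn'
    rw [hvan] at h1
    exact h1
  · intro a ha
    obtain ⟨b, hb, hab⟩ := exists_gen_deg ρ ξ hξ (fun i (γ : Γ i) => (γ : G)) hd D c hc a ha
    refine ⟨D, hD, b, hb, ?_⟩
    rw [hab, sub_self]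
    exact Nul.zero

end Pool.Agent.Helper15.GT
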