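import Mathlib
import Pool.Agent.Helper9.NS
import Pool.Agent.Helper15.GT.Defs
import Pool.Agent.Helper15.GT.Main
import Pool.Agent.Helper21.TO.Final
import Pool.Agent.Helper21.TO.Wei

/-!
# GT: the class of function fields
-/

set_option linter.unusedSectionVars false

namespace Pool.Agent.Helper15.GT

open VC VF Function Pool.Agent.Helper21.TO

universe u

open Pool.Agent.Helper51.EW (Wei)

variable {k : Type u} [Field k] [IsAlgClosed k] [CharZero k]

/-- The smallest class of pairs of a function field `F` and a natural number `p` which contains the function fields of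
the genus one fibrations over the projective line with `q = 0` and `p = p_g`, contains with `F` all its subfields (with the
same `p`), and contains `(F, ∑ p_i)` if a finite group acts on `F` such that `(F ^ Γ_i, p_i)` is in the class
for subgroups `Γ_i` for which the sums of their elements generate the rational group ring as a left ideal. -/
inductive Dec (k : Type u) [Field k] [IsAlgClosed k] [CharZero k] :
    (F : Type u) → [Field F] → [Algebra k F] → ℕ → Prop
  | genusOne (F : Type u) [Field F] [Algebra k F] (W : Wei k) (hN : 1 ≤ W.N)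
      (hΔ : 4 * W.A ^ 3 + 27 * W.B ^ 2 ≠ 0) (hmin : Minimal W) (L Ω : Type u) [Field L] [Algebra k L]
      [Field Ω] [Algebra k Ω] [Algebra L Ω] [IsScalarTower k L Ω] (T : Torsor W L Ω) (f : F →ₐ[k] Ω)
      (hf : ∀ σ ∈ T.G, ∀ z, σ (f z) = f z) : Dec k F (W.N - 1)
  | sub (F F' : Type u) [Field F] [Algebra k F] [Field F'] [Algebra k F'] (f : F →ₐ[k] F') (p : ℕ)
      (h : Dec k F' p) : Dec k F p
  | dec (F : Type u) [Field F] [Algebra k F] (G : Type u) [Group G] [Finite G] (ρ : G →* (F ≃ₐ[k] F)) (m : ℕ)
      (Γ : Fin m → Subgroup G) (hΓ : Ideal.span (Set.range fun i => eG (Γ i)) = ⊤) (p : Fin m → ℕ)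
      (h : ∀ i, Dec k (IntermediateField.fixedField ((Γ i).map ρ)) (p i)) : Dec k F (∑ i, p i)

theorem Dec.vp {F : Type u} [Field F] [Algebra k F] {p : ℕ} (h : Dec k F p) : VP k F p := by
  induction h with
  | genusOne F W hN hΔ hmin L Ω T f hf =>
    intro M ξ hξ n hn
    have h1 : (fun i => f (ξ i)) ≠ 0 := by
      intro h0
      apply hξ
      funext i
      exact (map_eq_zero_iff f f.toRingHom.injective).mp (congrFun h0 i)
    have h2 : Voisin (proj k (van k fun i => f (ξ i))) n :=
      voisin_torsor hΔ hmin T _ h1 (fun σ hσ i => hf σ hσ _)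
        (fun b hb => voisin_wei hN (by omega) hΔ b hb)
    rwa [van_hom] at h2
  | sub F F' f p h ih => exact ih.sub f
  | dec F G ρ m Γ hΓ p h ih => exact vp_dec ρ Γ hΓ p ih

end Pool.Agent.Helper15.GT
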