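import Mathlib
import Pool.Agent.Helper9.NS
import Pool.Agent.Helper15.GT.GZ
import Pool.Agent.Helper15.GT.Aut
import Pool.Agent.Helper21.TB.AllZ

/-!
# GT: genus one fibrations over a curve of genus zero, cycles of degree zero
-/

set_option linter.unusedSectionVars false

namespace Pool.Agent.Helper15.GT

open VC VF Function Pool.Agent.Helper21.TO
open Pool.Agent.Helper21.TB
open Pool.Agent.Helper51.VN (Harm)

universe u

/-- A harmonic function on a curve of genus zero is constant. -/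
lemma harm_genus_zero {k K : Type u} [Field k] [IsAlgClosed k] [CharZero k] [Field K] [Algebra k K]
    {hK : IsFunctionField k K} (hg : IsGenus k K 0) {κ : Place k K → k} (h : Harm hK κ) (P Q : Place k K) :
    κ P = κ Q := by
  have h1 := harm_curve h _ (mem_rat_of_genus_zero hK hg (Finsupp.single P 1 - Finsupp.single Q 1) (by
    rw [Finsupp.sum_sub_index (fun _ _ _ => rfl), Finsupp.sum_single_index rfl,
      Finsupp.sum_single_index rfl, sub_self]))
  rw [map_sub, Finsupp.linearCombination_single, Finsupp.linearCombination_single, one_smul, one_smul,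
    sub_eq_zero] at h1
  exact h1

theorem vp_fib0 {k F K L Ω : Type u} [Field k] [IsAlgClosed k] [CharZero k] [Field F] [Algebra k F] [Field K]
    [Algebra k K] [Field L] [Algebra k L] [Algebra K L] [IsScalarTower k K L] [Field Ω] [Algebra k Ω]
    [Algebra L Ω] [IsScalarTower k L Ω] (T : Fibration k K L Ω) (hg : IsGenus k K 0)
    (E : Place k K →₀ ℤ) (h4 : ∀ P : Place k K, T.a ≠ 0 → 0 ≤ ord P.ring T.a + 4 * E P)
    (h6 : ∀ P : Place k K, T.b ≠ 0 → 0 ≤ ord P.ring T.b + 6 * E P)
    (hmin : ∀ P : Place k K, (T.a ≠ 0 ∧ ord P.ring T.a + 4 * E P < 4) ∨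
      (T.b ≠ 0 ∧ ord P.ring T.b + 6 * E P < 6)) (hE : ¬ ∃ u : K, u ≠ 0 ∧ ∀ P : Place k K, ord P.ring u = E P)
    (f : F →ₐ[k] Ω) (hf : ∀ σ ∈ T.G, ∀ z, σ (f z) = f z) {p : ℕ}
    (hp : (E.sum fun _ m => m) = p + 1) : VP k F p := by
  intro M ξ hξ n hn b hdeg
  have hη : (fun i => f (ξ i)) ≠ 0 := by
    intro h0
    apply hξ
    funext i
    exact (map_eq_zero_iff f f.toRingHom.injective).mp (congrFun h0 i)
  have hvan : vanB k (fun i => f (ξ i)) = van k ξ := van_hom f ξ
  have hn' : (E.sum fun _ m => m) + (0 : ℕ) ≤ n := by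
    rw [hp]
    have : (p : ℤ) + 1 ≤ n := by exact_mod_cast hn
    push_cast
    linarith
  have key := fun (b' : Fin n → (proj k (vanB k (fun i => f (ξ i)))).Cycles) ha' =>
    voisin_np T hg E h4 h6 hmin hE (fun i => f (ξ i)) hη
      (fun σ hσ i => hf σ hσ _) hn' b' ha'
  rw [hvan] at key
  refine key b fun i φ κ' hφ hκ' _ hcon => ?_
  obtain ⟨P₀⟩ : Nonempty (Place k K) := by
    obtain ⟨t, ht, -⟩ := T.hF
    obtain ⟨P, -⟩ := exists_place T.hF ht
    exact ⟨P⟩
  have hs := hcon (κ' P₀) (fun P => harm_genus_zero hg hκ' P P₀)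
  have h3 : Finsupp.linearCombination ℤ φ (b i) = ((b i).sum (fun _ c => c) : ℤ) • κ' P₀ := by
    rw [Finsupp.linearCombination_apply, Finsupp.sum, Finsupp.sum, Finset.sum_smul]
    exact Finset.sum_congr rfl fun s _ => by rw [hs s]
  rw [h3, hdeg i, zero_smul]

end Pool.Agent.Helper15.GT
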