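import Mathlib
import Pool.Agent.Helper9.NS
import Pool.Agent.Helper15.GT.Defs
import Pool.Agent.Helper15.GT.Aut
import Pool.Agent.Helper21.TB.AllZ

/-!
# GT: surfaces covered by curves of genus one

The surface with function field `F` is covered by a family of curves of genus one: `F` is embedded in the
function field of the total space `X` of the family over the curve `B` (function field `K`). Assume that there is
a curve `R` in a model of `X` which dominates `B`, and whose image in a model of the surface is a point or a rational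
curve. In terms of fields: `O` is a valuation ring of `Ω` containing `K`, with residue field in `N`, and the residues of
the elements of `F` are contained in `k (z)`. Then the alternating products of `n ≥ deg E + g` cycles of degree zero
are torsion, for every projective model.
-/

set_option linter.unusedSectionVars false

namespace Pool.Agent.Helper15.GT

open VC VF Function Pool.Agent.Helper21.TO
open Pool.Agent.Helper21.TB

universe u

/-- Zero-cycles on a surface covered by a family of curves of genus one. -/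
theorem kimura_min {k F L Ω : Type u} [Field k] [IsAlgClosed k] [CharZero k] [Field F]
    [Algebra k F] [Field L] [Algebra k L] [Algebra F L] [IsScalarTower k F L] [Field Ω]
    [Algebra k Ω] [Algebra L Ω] [IsScalarTower k L Ω]
    (T : Fibration k F L Ω) {g : ℕ} (hg : IsGenus k F g) (E : Place k F →₀ ℤ)
    (h4 : ∀ P : Place k F, T.a ≠ 0 → 0 ≤ ord P.ring T.a + 4 * E P)
    (h6 : ∀ P : Place k F, T.b ≠ 0 → 0 ≤ ord P.ring T.b + 6 * E P)
    (hmin : ∀ P : Place k F, (T.a ≠ 0 ∧ ord P.ring T.a + 4 * E P < 4) ∨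
      (T.b ≠ 0 ∧ ord P.ring T.b + 6 * E P < 6)) (hE : ¬ ∃ u : F, u ≠ 0 ∧ ∀ P : Place k F, ord P.ring u = E P)
    {M : ℕ} (ξ : Fin M → Ω) (hξ : ξ ≠ 0)
    (hfix : ∀ σ ∈ T.G, ∀ i, σ (ξ i) = ξ i)
    (K : Type u) [Field K] [Algebra k K] (hK : IsFunctionField k K) (ι : F →ₐ[k] K) (z : K)
    (f : Fin M → Polynomial k) (hf : (fun i => Polynomial.aeval z (f i)) ≠ 0)
    (H : ∀ (n : ℕ) (G : MvPolynomial (Fin M) F), G.IsHomogeneous n →
      G.eval₂ (T.j : F →+* Ω) ξ = 0 → G.eval₂ (ι : F →+* K) (fun i => Polynomial.aeval z (f i)) = 0)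
    {n : ℕ} (hn : (E.sum fun _ m => m) + g ≤ n) (a : Fin n → (proj k (vanB k ξ)).Cycles)
    (ha : ∀ i, (a i).sum (fun _ c => c) = 0) :
    ∃ m : ℕ, 0 < m ∧ m • ∑ σ : Equiv.Perm (Fin n), ((Equiv.Perm.sign σ : ℤˣ) : ℤ) •
      extProd (fun i => a (σ i)) ∈ ((proj k (vanB k ξ)).pow n).Rat := by
  classical
  have hS : Sat (vanB k ξ) (fun i => Polynomial.aeval z (f i)) := by
    intro P hP m hm
    have h1 : MvPolynomial.aeval ξ P = 0 := hP
    have h2 := H m (P.map (algebraMap k F)) (hm.map _) (by
      rw [MvPolynomial.eval₂_map]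
      have e : ((T.j : F →+* Ω)).comp (algebraMap k F) = algebraMap k Ω := by
        ext r
        exact T.j.commutes r
      rw [e]
      exact h1)
    rw [MvPolynomial.eval₂_map] at h2
    have e : ((ι : F →+* K)).comp (algebraMap k F) = algebraMap k K := by
      ext r
      exact ι.commutes r
    rw [e] at h2
    exact h2
  refine voisin_np T hg E h4 h6 hmin hE ξ hξ hfix hn a fun i φ κ hφ hκ h1 h2 => ?_
  obtain ⟨c, p, q, hc, hgg⟩ := exists_num _ _ T.x T.y T.eqn T.gen ξ
  obtain ⟨r, hr⟩ := kappa_rat (D := (exists_ellC T.hF T.a T.b T.disc E h4 h6 (fun _ => hmin)).choose)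
    (C := mkCv T ξ hξ c p q hc hgg) T.j ξ hφ κ h1 hK ι z f hf hS H
  have hs := h2 r hr
  have h3 : Finsupp.linearCombination ℤ φ (a i) = ((a i).sum (fun _ c => c) : ℤ) • r := by
    rw [Finsupp.linearCombination_apply, Finsupp.sum, Finsupp.sum, Finset.sum_smul]
    exact Finset.sum_congr rfl fun s _ => by rw [hs s]
  rw [h3, ha i, zero_smul]

theorem vp_kim {k F K L Ω : Type u} [Field k] [IsAlgClosed k] [CharZero k] [Field F] [Algebra k F] [Field K]
    [Algebra k K] [Field L] [Algebra k L] [Algebra K L] [IsScalarTower k K L] [Field Ω] [Algebra k Ω]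
    [Algebra L Ω] [IsScalarTower k L Ω] (T : Fibration k K L Ω) {g : ℕ} (hg : IsGenus k K g)
    (E : Place k K →₀ ℤ)
    (h4 : ∀ P : Place k K, T.a ≠ 0 → 0 ≤ ord P.ring T.a + 4 * E P)
    (h6 : ∀ P : Place k K, T.b ≠ 0 → 0 ≤ ord P.ring T.b + 6 * E P)
    (hmin : ∀ P : Place k K, (T.a ≠ 0 ∧ ord P.ring T.a + 4 * E P < 4) ∨
      (T.b ≠ 0 ∧ ord P.ring T.b + 6 * E P < 6)) (hE : ¬ ∃ u : K, u ≠ 0 ∧ ∀ P : Place k K, ord P.ring u = E P)
    (f : F →ₐ[k] Ω) (hf : ∀ σ ∈ T.G, ∀ z, σ (f z) = f z)
    (N : Type u) [Field N] [Algebra k N] (hN : IsFunctionField k N) (O : ValuationSubring Ω) (π : O →+* N)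
    (hB : ∀ x : K, T.j x ∈ O) (hk : ∀ (c : k) (h : algebraMap k Ω c ∈ O), π ⟨algebraMap k Ω c, h⟩ = algebraMap k N c)
    (z : N) (hz : ∀ (x : F) (hx : f x ∈ O), π ⟨f x, hx⟩ ∈ IntermediateField.adjoin k {z})
    {p : ℕ} (hp : (E.sum fun _ m => m) + g = p + 1) : VP k F p := by
  classical
  intro M ξ hξ n hn a ha
  have hη : (fun i => f (ξ i)) ≠ 0 := by
    intro h0
    apply hξ
    funext i
    exact (map_eq_zero_iff f f.toRingHom.injective).mp (congrFun h0 i)
  -- scaling of the coordinates
  obtain ⟨j0, hj0, hmem⟩ := exists_max (O.comap f.toRingHom) ξ hξ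
  have hmem' : ∀ i, f (ξ i * (ξ j0)⁻¹) ∈ O := fun i => by
    have h1 := hmem i
    rw [ValuationSubring.mem_comap] at h1
    exact h1
  set v : Fin M → O := fun i => ⟨f (ξ i * (ξ j0)⁻¹), hmem' i⟩ with hv
  have hv0 : v j0 = 1 := by
    apply Subtype.ext
    change f (ξ j0 * (ξ j0)⁻¹) = 1
    rw [mul_inv_cancel₀ hj0, map_one]
  -- the residues are quotients of polynomials in `z`
  have hrs : ∀ i, ∃ r s : Polynomial k, Polynomial.aeval z s ≠ 0 ∧
      π (v i) * Polynomial.aeval z s = Polynomial.aeval z r := by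
    intro i
    obtain ⟨r, s, h⟩ := IntermediateField.mem_adjoin_simple_iff k (π (v i)) |>.mp (hz _ (hmem' i))
    by_cases hs : Polynomial.aeval z s = 0
    · refine ⟨0, 1, by rw [map_one]; exact one_ne_zero, ?_⟩
      rw [h, hs, div_zero, zero_mul, map_zero]
    · exact ⟨r, s, hs, by rw [h, div_mul_cancel₀ _ hs]⟩
  choose r s hs hrs' using hrs
  set q : Fin M → Polynomial k := fun i => r i * ∏ i' ∈ Finset.univ.erase i, s i' with hq
  have hq' : ∀ i, Polynomial.aeval z (q i) = (∏ i', Polynomial.aeval z (s i')) * π (v i) := by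
    intro i
    rw [hq]
    beta_reduce
    rw [map_mul, map_prod, ← hrs' i, ← Finset.mul_prod_erase Finset.univ _ (Finset.mem_univ i)]
    ring
  have hPi : (∏ i', Polynomial.aeval z (s i')) ≠ 0 := Finset.prod_ne_zero_iff.mpr fun i _ => hs i
  have hq0 : (fun i => Polynomial.aeval z (q i)) ≠ 0 := by
    intro h0
    have h1 := congrFun h0 j0
    rw [Pi.zero_apply, hq' j0, hv0, map_one, mul_one] at h1
    exact hPi h1
  -- the embedding of the base in the residue field
  let jO : K →+* O := (T.j : K →+* Ω).codRestrict O hB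
  let ι : K →ₐ[k] N :=
    { π.comp jO with
      commutes' := by
        intro c
        have h1 : (T.j : K →+* Ω) (algebraMap k K c) = algebraMap k Ω c := T.j.commutes c
        have h2 : jO (algebraMap k K c) = ⟨algebraMap k Ω c, h1 ▸ hB _⟩ := Subtype.ext h1
        change π (jO (algebraMap k K c)) = _
        rw [h2]
        exact hk c _ }
  have hn' : (E.sum fun _ m => m) + g ≤ n := by
    rw [hp]
    exact_mod_cast hn
  have key := fun (b' : Fin n → (proj k (vanB k (fun i => f (ξ i)))).Cycles) hb' =>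
    kimura_min T hg E h4 h6 hmin hE (fun i => f (ξ i)) hη (fun σ hσ i => hf σ hσ _) N hN ι z q hq0 (by
      intro n' G hG h0
      have e1 : (fun i => Polynomial.aeval z (q i)) =
          fun i => (∏ i', Polynomial.aeval z (s i')) * π (v i) := funext hq'
      have e2 : ∀ (c : N) (u : Fin M → N), G.eval₂ (ι : K →+* N) (fun i => c * u i) =
          c ^ n' * G.eval₂ (ι : K →+* N) u := fun c u => eval₂_smul_homog hG _ c u
      rw [e1, e2]
      have e3 : π (G.eval₂ jO v) = G.eval₂ (ι : K →+* N) (fun i => π (v i)) := by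
        rw [MvPolynomial.eval₂_comp_left π jO v G]
        rfl
      have e4 : O.subtype (G.eval₂ jO v) = G.eval₂ (T.j : K →+* Ω) (fun i => f (ξ j0)⁻¹ * f (ξ i)) := by
        rw [MvPolynomial.eval₂_comp_left O.subtype jO v G]
        have e5 : (O.subtype ∘ v) = fun i => f (ξ j0)⁻¹ * f (ξ i) := by
          funext i
          change f (ξ i * (ξ j0)⁻¹) = _
          rw [map_mul, mul_comm]
        rw [e5]
        rfl
      have e6 : G.eval₂ jO v = 0 := by
        apply Subtype.ext
        change O.subtype (G.eval₂ jO v) = 0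
        rw [e4, eval₂_smul_homog hG, h0, mul_zero]
      rw [← e3, e6, map_zero, mul_zero]) hn' b' hb'
  have hvan : vanB k (fun i => f (ξ i)) = van k ξ := van_hom f ξ
  rw [hvan] at key
  exact key a ha

end Pool.Agent.Helper15.GT
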