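import Mathlib
import Pool.Agent.Helper9.NS
import Pool.Agent.Helper15.GT.Kim
import Pool.Agent.Helper15.GT.KBase

/-!
# GT: surfaces covered by curves of genus one, all cycles of degree zero
-/

set_option linter.unusedSectionVars false

namespace Pool.Agent.Helper15.GT

open VC VF Function Pool.Agent.Helper21.TO
open Pool.Agent.Helper21.TB
open Pool.Agent.Helper51.VN (Harm)

universe u

theorem vp_cov {k F K L Ω : Type u} [Field k] [IsAlgClosed k] [CharZero k] [Field F] [Algebra k F] [Field K]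
    [Algebra k K] [Field L] [Algebra k L] [Algebra K L] [IsScalarTower k K L] [Field Ω] [Algebra k Ω]
    [Algebra L Ω] [IsScalarTower k L Ω] (T : Fibration k K L Ω) {g : ℕ} (hg : IsGenus k K g)
    (E : Place k K →₀ ℤ) (h4 : ∀ P : Place k K, T.a ≠ 0 → 0 ≤ ord P.ring T.a + 4 * E P)
    (h6 : ∀ P : Place k K, T.b ≠ 0 → 0 ≤ ord P.ring T.b + 6 * E P)
    (hmin : ∀ P : Place k K, (T.a ≠ 0 ∧ ord P.ring T.a + 4 * E P < 4) ∨
      (T.b ≠ 0 ∧ ord P.ring T.b + 6 * E P < 6)) (hE : ¬ ∃ u : K, u ≠ 0 ∧ ∀ P : Place k K, ord P.ring u = E P)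
    (f : F →ₐ[k] Ω) (hf : ∀ σ ∈ T.G, ∀ z, σ (f z) = f z)
    (hR : g = 0 ∨ ∃ (N : Type u) (_ : Field N) (_ : Algebra k N) (O : ValuationSubring Ω) (π : O →+* N) (z : N),
      IsFunctionField k N ∧ (∀ x : K, T.j x ∈ O) ∧
      (∀ (c : k) (h : algebraMap k Ω c ∈ O), π ⟨algebraMap k Ω c, h⟩ = algebraMap k N c) ∧
      ∀ (x : F) (hx : f x ∈ O), π ⟨f x, hx⟩ ∈ IntermediateField.adjoin k {z})
    {p : ℕ} (hp : (E.sum fun _ m => m) + g = p + 1) : VP k F p := by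
  rcases hR with rfl | ⟨N, _, _, O, π, z, hN, hB, hk, hz⟩
  · refine vp_fib0 T hg E h4 h6 hmin hE f hf ?_
    have h1 : ((0 : ℕ) : ℤ) = 0 := rfl
    rw [h1, add_zero] at hp
    exact hp
  · exact vp_kim T hg E h4 h6 hmin hE f hf N hN O π hB hk z hz hp

end Pool.Agent.Helper15.GT
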