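import Mathlib
import Pool.Agent.Helper9.NS
import Pool.Agent.Helper15.GT.RDec
import Pool.Agent.Helper15.GT.RingH
import Pool.Agent.Helper15.GT.ExtQ

/-!
# GT: the decomposition theorem for quotients, all cycles of degree zero
-/

set_option linter.unusedSectionVars false

namespace Pool.Agent.Helper15.GT

open VC VF Function Pool.Agent.Helper21.TO

universe u

variable {k : Type u} [Field k] [IsAlgClosed k] [CharZero k]

lemma voisin_decH {F : Type u} [Field F] [Algebra k F] {G : Type u} [Group G] [Finite G]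
    (ρ : G →* (F ≃ₐ[k] F)) {m : ℕ} (Γ : Fin m → Subgroup G) (H : Subgroup G)
    (hΓ : eG H ∈ Ideal.span (Set.range fun i => eG (Γ i))) (p : Fin m → ℕ)
    (h : ∀ i, VP k (IntermediateField.fixedField ((Γ i).map ρ)) (p i)) {M : ℕ} (ξ : Fin M → F) (hξ : ξ ≠ 0)
    (hfix : ∀ η ∈ H, ∀ i, ρ η (ξ i) = ξ i) {n : ℕ} (hn : ∑ i, p i < n) : Voisin (proj k (van k ξ)) n := by
  classical
  letI : Fintype G := Fintype.ofFinite G
  letI : ∀ i, Fintype (Γ i) := fun i => Fintype.ofFinite _
  letI : Fintype H := Fintype.ofFinite _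
  have hd : ∀ i, Fintype.card (Γ i) ≤ Fintype.card G := fun i =>
    Fintype.card_le_of_injective (fun x : Γ i => (x : G)) Subtype.coe_injective
  obtain ⟨D, c, hD, hc⟩ := exists_coeffH Γ H hΓ
  have hCor : ∀ i, Cor (proj k (van k (fixV ρ ξ (Γ i) (Fintype.card G)))) (proj k (van k ξ))
      (Zc (Γ i) (van k ξ) (Fintype.card G)) := by
    intro i
    have h1 := cor_Zc (k := k) (hd i) (van k ξ) (tr ρ ξ (fun γ : Γ i => (γ : G))) (fun j => by
      intro P hP n hn
      have h2 : P ∈ van k (fun i' => (ρ (j : G)) (ξ i')) := by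
        rw [van_aut]
        exact hP
      exact h2)
    rw [← van_fixV ρ ξ (Γ i) (Fintype.card G)] at h1
    exact h1
  rw [← voisinOn_iff]
  refine voisinOn_dec (S := proj k (van k ξ)) (fun K _ _ hK p => pconst K hK p)
    (X := fun i => proj k (van k (fixV ρ ξ (Γ i) (Fintype.card G))))
    (Z := fun i => Zc (Γ i) (van k ξ) (Fintype.card G)) hCor
    (fun i => {b | b.sum (fun _ c => c) = 0}) p
    (fun i n' hn' => voisinOn_iff.mpr
      (h i _ (fixV ρ ξ (Γ i) (Fintype.card G)) (fixV_ne_zero ρ hξ (Γ i) (hd i)) n' hn')) hn _ ?_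
  intro a ha
  choose w hw using exists_rpl_evP (k := k) ξ hξ
  set f : ∀ i, G → IntermediateField.fixedField ((Γ i).map ρ) →ₐ[k] F := fun i h =>
    ((ρ h : F ≃ₐ[k] F) : F →ₐ[k] F).comp (IntermediateField.val _) with hf
  refine ⟨D * Fintype.card H, Nat.mul_pos hD Fintype.card_pos, fun i =>
    (∑ h, c i h • a.mapDomain (fun q => (w q).comap (f i h))).mapDomain
      (evP (fixV ρ ξ (Γ i) (Fintype.card G)) (fixV_ne_zero ρ hξ (Γ i) (hd i))), fun i => ?_, ?_⟩
  · change Finsupp.sum _ _ = 0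
    rw [deg_mapDomain]
    refine deg_sum_smul _ _ _ fun h _ => ?_
    rw [deg_mapDomain]
    exact ha
  set A : G → (proj k (van k ξ)).Cycles := fun g =>
    a.mapDomain (fun q => evP ξ hξ ((w q).comap ((ρ g : F ≃ₐ[k] F) : F →ₐ[k] F))) with hA
  have hA1 : ∀ η : H, A (η : G) = a := by
    intro η
    rw [hA]
    beta_reduce
    have e : (fun q => evP ξ hξ ((w q).comap ((ρ (η : G) : F ≃ₐ[k] F) : F →ₐ[k] F))) = id := by
      funext q
      obtain ⟨b, hb, hs, hv, he⟩ := exists_evP ξ hξ (w q)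
      rw [hw q] at he
      have h1 : Vl (w q) (fun i => ((ρ (η : G) : F ≃ₐ[k] F) : F →ₐ[k] F) (ξ i)) b := by
        have e2 : (fun i => ((ρ (η : G) : F ≃ₐ[k] F) : F →ₐ[k] F) (ξ i)) = ξ := by
          funext i
          exact hfix η η.2 i
        rw [e2]
        exact hv
      rw [evP_eq hξ (Vl.comap' hξ h1) hb hs, id_eq, he]
    rw [e, Finsupp.mapDomain_id]
  have key : ∀ i, Finsupp.linearCombination ℤ (Zc (Γ i) (van k ξ) (Fintype.card G))
      ((∑ h, c i h • a.mapDomain (fun q => (w q).comap (f i h))).mapDomain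
        (evP (fixV ρ ξ (Γ i) (Fintype.card G)) (fixV_ne_zero ρ hξ (Γ i) (hd i)))) =
      ∑ h, c i h • ∑ γ : Γ i, A (h * γ) := by
    intro i
    rw [Finsupp.linearCombination_mapDomain, map_sum]
    refine Finset.sum_congr rfl fun h _ => ?_
    rw [map_smul, Finsupp.linearCombination_mapDomain]
    congr 1
    have e : ((Zc (Γ i) (van k ξ) (Fintype.card G) ∘
        evP (fixV ρ ξ (Γ i) (Fintype.card G)) (fixV_ne_zero ρ hξ (Γ i) (hd i))) ∘
        fun q => (w q).comap (f i h)) = fun q => ∑ γ : Γ i,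
          Finsupp.single (evP ξ hξ ((w q).comap ((ρ (h * γ) : F ≃ₐ[k] F) : F →ₐ[k] F))) (1 : ℤ) := by
      funext q
      exact Z_ev ρ hξ (Γ i) (hd i) (w q) h
    rw [e, Finsupp.linearCombination_apply, Finsupp.sum]
    simp only [Finset.smul_sum]
    rw [Finset.sum_comm]
    refine Finset.sum_congr rfl fun γ _ => ?_
    rw [hA]
    beta_reduce
    rw [Finsupp.mapDomain, Finsupp.sum]
    refine Finset.sum_congr rfl fun q _ => ?_
    rw [Finsupp.smul_single, smul_eq_mul, mul_one]
  have h0 : (D * Fintype.card H) • a - ∑ i, Finsupp.linearCombination ℤ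
      (Zc (Γ i) (van k ξ) (Fintype.card G)) ((∑ h, c i h • a.mapDomain (fun q => (w q).comap (f i h))).mapDomain
        (evP (fixV ρ ξ (Γ i) (Fintype.card G)) (fixV_ne_zero ρ hξ (Γ i) (hd i)))) = 0 := by
    rw [sub_eq_zero, Finset.sum_congr rfl fun i _ => key i]
    have h1 := congrArg (Finsupp.linearCombination ℤ A) hc
    have h2 : Finsupp.linearCombination ℤ A ((D : ℤ) • ∑ η : H, Finsupp.single (η : G) (1 : ℤ)) =
        (D * Fintype.card H) • a := by
      rw [map_smul, map_sum, Finset.sum_congr rfl fun η _ => by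
        rw [Finsupp.linearCombination_single, one_smul, hA1 η], Finset.sum_const, Finset.card_univ,
        natCast_zsmul, ← mul_smul]
    rw [h2, map_sum] at h1
    rw [← h1]
    refine Finset.sum_congr rfl fun i _ => ?_
    rw [map_sum]
    refine Finset.sum_congr rfl fun h _ => ?_
    rw [map_smul, map_sum]
    congr 1
    refine Finset.sum_congr rfl fun γ _ => ?_
    rw [Finsupp.linearCombination_single, one_smul]
  rw [h0]
  exact Nul.zero

theorem vp_decH {F : Type u} [Field F] [Algebra k F] {G : Type u} [Group G] [Finite G]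
    (ρ : G →* (F ≃ₐ[k] F)) {m : ℕ} (Γ : Fin m → Subgroup G) (H : Subgroup G)
    (hΓ : eG H ∈ Ideal.span (Set.range fun i => eG (Γ i))) (p : Fin m → ℕ)
    (h : ∀ i, VP k (IntermediateField.fixedField ((Γ i).map ρ)) (p i)) :
    VP k (IntermediateField.fixedField (H.map ρ)) (∑ i, p i) := by
  intro M ξ hξ n hn
  have h1 : (fun i => (IntermediateField.fixedField (H.map ρ)).val (ξ i)) ≠ 0 := by
    intro h0
    apply hξ
    funext i
    exact Subtype.ext (congrFun h0 i)
  have h2 := voisin_decH ρ Γ H hΓ p h _ h1 (fun η hη i => by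
    have h3 := (ξ i).2
    rw [IntermediateField.mem_fixedField_iff] at h3
    exact h3 (ρ η) ⟨η, hη, rfl⟩) hn
  rwa [van_hom] at h2

end Pool.Agent.Helper15.GT
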