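import Mathlib
import Pool.Agent.Helper9.NS
import Pool.Agent.Helper15.GT.KCov
import Pool.Agent.Helper15.GT.VDec
import Pool.Agent.Helper15.GT.Fix

/-!
# GT: the class of function fields, all cycles of degree zero
-/

set_option linter.unusedSectionVars false

namespace Pool.Agent.Helper15.GT

open VC VF Function Pool.Agent.Helper21.TO
open Pool.Agent.Helper21.TB (Fibration)

universe u

/-- The smallest class of pairs of a field `F` over `k` and a natural number `p` with the following
properties.
* (`cov`) Let a variety with function field `F` be covered by a family of curves of genus one, given by the data `T`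
  over the curve with function field `K`, of genus `g`: `F` is embedded in the fixed field of the Galois
  group `T.G` in `T.Ω`. Let `E` be the minimal divisor on the base with `4 E + div a ≥ 0` and `6 E + div b ≥ 0` for the
  coefficients of the equation `y ^ 2 = x ^ 3 + a x + b` of the Jacobian, and assume that it is not principal (for
  example that its degree is positive), and that the genus of the base is zero or that a rational curve meets the general member of the family: there are a valuation ring `O` of `T.Ω` which
  contains `K`, and a homomorphism `π` from `O` to a function field `N` of one variable, such that the images of the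
  elements of `F` in `O` are contained in `k (z)` for some `z`. Then `(F, deg E + g - 1)` is in the class.
* (`sub`) If `F` is contained in `F'` and `(F', p)` is in the class then `(F, p)` is in the class.
* (`dec`) If the finite group `G` acts on `F`, and `H`, `Γ_i` are subgroups such that the sum of the elements of `H` is
  contained in the left ideal of the rational group ring generated by the sums of the elements of the `Γ_i`, and if
  the pairs of the fixed field of `Γ_i` and `p_i` are in the class, then the pair of the fixed field of `H` and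
  `∑ p_i` is in the class. -/
inductive KCls (k : Type u) [Field k] [IsAlgClosed k] [CharZero k] :
    (F : Type u) → [Field F] → [Algebra k F] → ℕ → Prop
  | cov (F K L Ω : Type u) [Field F] [Algebra k F] [Field K] [Algebra k K] [Field L] [Algebra k L]
      [Algebra K L] [IsScalarTower k K L] [Field Ω] [Algebra k Ω] [Algebra L Ω] [IsScalarTower k L Ω]
      (T : Fibration k K L Ω) (g : ℕ) (hg : IsGenus k K g) (E : Place k K →₀ ℤ)
      (h4 : ∀ P : Place k K, T.a ≠ 0 → 0 ≤ ord P.ring T.a + 4 * E P)
      (h6 : ∀ P : Place k K, T.b ≠ 0 → 0 ≤ ord P.ring T.b + 6 * E P)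
      (hmin : ∀ P : Place k K, (T.a ≠ 0 ∧ ord P.ring T.a + 4 * E P < 4) ∨
        (T.b ≠ 0 ∧ ord P.ring T.b + 6 * E P < 6)) (hE : ¬ ∃ u : K, u ≠ 0 ∧ ∀ P : Place k K, ord P.ring u = E P)
      (f : F →ₐ[k] Ω) (hf : ∀ σ ∈ T.G, ∀ z, σ (f z) = f z)
      (hR : g = 0 ∨ ∃ (N : Type u) (_ : Field N) (_ : Algebra k N) (O : ValuationSubring Ω) (π : O →+* N)
        (z : N), IsFunctionField k N ∧ (∀ x : K, T.j x ∈ O) ∧
        (∀ (c : k) (h : algebraMap k Ω c ∈ O), π ⟨algebraMap k Ω c, h⟩ = algebraMap k N c) ∧
        ∀ (x : F) (hx : f x ∈ O), π ⟨f x, hx⟩ ∈ IntermediateField.adjoin k {z})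
      (p : ℕ) (hp : (E.sum fun _ m => m) + g = p + 1) : KCls k F p
  | sub (F F' : Type u) [Field F] [Algebra k F] [Field F'] [Algebra k F'] (f : F →ₐ[k] F') (p : ℕ)
      (h : KCls k F' p) : KCls k F p
  | dec (F : Type u) [Field F] [Algebra k F] (G : Type u) [Group G] [Finite G] (ρ : G →* (F ≃ₐ[k] F))
      (H : Subgroup G) (m : ℕ) (Γ : Fin m → Subgroup G)
      (hΓ : eG H ∈ Ideal.span (Set.range fun i => eG (Γ i)))
      (p : Fin m → ℕ) (h : ∀ i, KCls k (IntermediateField.fixedField ((Γ i).map ρ)) (p i)) :
      KCls k (IntermediateField.fixedField (H.map ρ)) (∑ i, p i)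

theorem KCls.vp {k F : Type u} [Field k] [IsAlgClosed k] [CharZero k] [Field F] [Algebra k F] {p : ℕ}
    (h : KCls k F p) : VP k F p := by
  induction h with
  | cov F K L Ω T g hg E h4 h6 hmin hE f hf hR p hp => exact vp_cov T hg E h4 h6 hmin hE f hf hR hp
  | sub F F' f p h ih => exact VP.sub f ih
  | dec F G ρ H m Γ hΓ p h ih => exact vp_decH ρ Γ H hΓ p ih

end Pool.Agent.Helper15.GT
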